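import Pool.Agent.Helper49.VW.Defs

set_option autoImplicit false

/-! VW-12: intersections of progressions. -/

namespace Pool.Agent.Helper49.VW

open Finset

theorem comm_mono (Q Q' a b : ℕ) (h : Q ≤ Q') (hc : Comm Q a b) : Comm Q' a b := by
  obtain ⟨p, r, h1, h2, h3, h4, h5⟩ := hc
  exact ⟨p, r, h1, h2.trans h, h3, h4.trans h, h5⟩

theorem comm_one (a b : ℕ) : Comm 1 a b ↔ a = b := by
  constructor
  · rintro ⟨p, r, h1, h2, h3, h4, h5⟩
    obtain rfl : p = 1 := by omega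
    obtain rfl : r = 1 := by omega
    simpa using h5
  · rintro rfl
    exact ⟨1, 1, le_rfl, le_rfl, le_rfl, le_rfl, rfl⟩

/-- If `c / a` and `c / b` are quotients of integers at most `q` then `a / b` is a quotient of integers
at most `q ^ 2`. -/
theorem comm_of_comm (q a b c : ℕ) (hc : 1 ≤ c) (h1 : Comm q c a) (h2 : Comm q c b) :
    Comm (q ^ 2) a b := by
  obtain ⟨p, r, p1, p2, r1, r2, e⟩ := h1
  obtain ⟨p', r', p1', p2', r1', r2', e'⟩ := h2
  refine ⟨p' * r, p * r', Nat.mul_pos p1' r1, ?_, Nat.mul_pos p1 r1', ?_, ?_⟩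
  · rw [sq]
    exact Nat.mul_le_mul p2' r2
  · rw [sq]
    exact Nat.mul_le_mul p2 r2'
  · calc a * (p * r') = (a * p) * r' := by ring
      _ = c * r * r' := by rw [e]
      _ = (c * r') * r := by ring
      _ = b * (p' * r) := by rw [e']; ring

private lemma apinter_aux (m q : ℕ) (a b : ℕ × ℕ) (p r : ℕ) (hm : 1 ≤ m) (hb : 1 ≤ b.2)
    (hcop : Nat.Coprime p r) (h : a.2 * r = b.2 * p) (hr : q < r) :
    (win m a ∩ win m b).card ≤ (m - 1) / (q + 1) + 1 := by
  classical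
  have hJ : win m a ∩ win m b ⊆
      ((Finset.range m).filter (fun j => a.1 + j * a.2 ∈ win m b)).image
        (fun j => a.1 + j * a.2) := by
    intro x hx
    rw [Finset.mem_inter] at hx
    obtain ⟨h1, h2⟩ := hx
    rw [win, Finset.mem_image] at h1
    obtain ⟨j, hj, rfl⟩ := h1
    exact Finset.mem_image.2 ⟨j, Finset.mem_filter.2 ⟨hj, h2⟩, rfl⟩
  refine (Finset.card_le_card hJ).trans (Finset.card_image_le.trans ?_)
  have hle : (m - 1) / r ≤ (m - 1) / (q + 1) := Nat.div_le_div_left (by omega) (by omega)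
  refine le_trans ?_ (Nat.add_le_add_right hle 1)
  rw [← Finset.card_range ((m - 1) / r + 1)]
  refine Finset.card_le_card_of_injOn (fun j => j / r) ?_ ?_
  · intro j hj
    simp only [Finset.coe_filter, Finset.mem_range, Set.mem_setOf_eq, Finset.coe_range,
      Set.mem_Iio] at hj ⊢
    have : j / r ≤ (m - 1) / r := Nat.div_le_div_right (by omega)
    omega
  · intro j hj j2 hj2 hjj
    simp only [Finset.coe_filter, Finset.mem_range, Set.mem_setOf_eq] at hj hj2 hjj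
    obtain ⟨_, hj'⟩ := hj
    obtain ⟨_, hj2'⟩ := hj2
    rw [win, Finset.mem_image] at hj' hj2'
    obtain ⟨i, _, hi⟩ := hj'
    obtain ⟨i2, _, hi2⟩ := hj2'
    have e1 : (b.1 : ℤ) + i * b.2 = a.1 + j * a.2 := by exact_mod_cast hi
    have e2 : (b.1 : ℤ) + i2 * b.2 = a.1 + j2 * a.2 := by exact_mod_cast hi2
    have e3 : (a.2 : ℤ) * r = b.2 * p := by exact_mod_cast h
    have hb' : (b.2 : ℤ) ≠ 0 := by exact_mod_cast (by omega : b.2 ≠ 0)
    have e4 : ((j : ℤ) - j2) * p = ((i : ℤ) - i2) * r := by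
      apply mul_left_cancel₀ hb'
      linear_combination (-((j : ℤ) - j2)) * e3 - (r : ℤ) * e1 + (r : ℤ) * e2
    have e5 : (r : ℤ) ∣ ((j : ℤ) - j2) * p := by
      rw [e4]
      exact dvd_mul_left _ _
    have e6 : IsCoprime (r : ℤ) (p : ℤ) := Nat.isCoprime_iff_coprime.2 hcop.symm
    have e7 : (r : ℤ) ∣ (j : ℤ) - j2 := e6.dvd_of_dvd_mul_right e5
    have e8 : j2 ≡ j [MOD r] := Nat.modEq_iff_dvd.2 e7
    have e9 : j2 % r = j % r := e8
    rw [← Nat.div_add_mod j r, ← Nat.div_add_mod j2 r, hjj, e9]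

/-- Write `a.2 = g p`, `b.2 = g r` with `p, r` coprime; then `p > q` or `r > q`.  The positions in the
first progression of the common points are congruent mod `r`, those in the second mod `p`. -/
theorem card_inter_le (m q : ℕ) (a b : ℕ × ℕ) (hm : 1 ≤ m) (ha : 1 ≤ a.2) (hb : 1 ≤ b.2)
    (h : ¬ Comm q a.2 b.2) : (win m a ∩ win m b).card ≤ (m - 1) / (q + 1) + 1 := by
  have hg : 0 < Nat.gcd a.2 b.2 := Nat.gcd_pos_of_pos_left _ ha
  obtain ⟨g, p, r, hg', hcop, ea, eb⟩ : ∃ g p r : ℕ, 0 < g ∧ Nat.Coprime p r ∧ a.2 = g * p ∧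
      b.2 = g * r := by
    refine ⟨Nat.gcd a.2 b.2, a.2 / Nat.gcd a.2 b.2, b.2 / Nat.gcd a.2 b.2, hg,
      Nat.coprime_div_gcd_div_gcd hg, ?_, ?_⟩
    · exact (Nat.mul_div_cancel' (Nat.gcd_dvd_left _ _)).symm
    · exact (Nat.mul_div_cancel' (Nat.gcd_dvd_right _ _)).symm
  have hp : 1 ≤ p := by
    rcases Nat.eq_zero_or_pos p with rfl | hp
    · rw [mul_zero] at ea
      omega
    · exact hp
  have hr : 1 ≤ r := by
    rcases Nat.eq_zero_or_pos r with rfl | hr
    · rw [mul_zero] at eb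
      omega
    · exact hr
  have e1 : a.2 * r = b.2 * p := by
    rw [ea, eb]
    ring
  rcases Nat.lt_or_ge q r with h1 | h1
  · exact apinter_aux m q a b p r hm hb hcop e1 h1
  · rcases Nat.lt_or_ge q p with h2 | h2
    · rw [Finset.inter_comm]
      exact apinter_aux m q b a r p hm ha hcop.symm e1.symm h2
    · exact absurd ⟨p, r, hp, h2, hr, h1, e1⟩ h

/-- At most `Q ^ 2` integers are commensurable to `d`: `x * r = d * p` determines `x`. -/
theorem card_comm_le (Q d : ℕ) (S : Finset ℕ) (hS : ∀ x ∈ S, Comm Q x d) :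
    S.card ≤ Q ^ 2 := by
  classical
  have hex : ∀ x, ∃ pr : ℕ × ℕ, x ∈ S →
      pr ∈ (Finset.Icc 1 Q) ×ˢ (Finset.Icc 1 Q) ∧ x * pr.2 = d * pr.1 := by
    intro x
    by_cases hx : x ∈ S
    · obtain ⟨p, r, h1, h2, h3, h4, h5⟩ := hS x hx
      exact ⟨(p, r), fun _ => ⟨Finset.mem_product.2 ⟨Finset.mem_Icc.2 ⟨h1, h2⟩,
        Finset.mem_Icc.2 ⟨h3, h4⟩⟩, h5⟩⟩
    · exact ⟨(0, 0), fun h => absurd h hx⟩
  choose f hf using hex
  have hcard : ((Finset.Icc 1 Q) ×ˢ (Finset.Icc 1 Q)).card = Q ^ 2 := by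
    rw [Finset.card_product, Nat.card_Icc, Nat.add_sub_cancel, sq]
  rw [← hcard]
  refine Finset.card_le_card_of_injOn f (fun x hx => (hf x hx).1) ?_
  intro x hx y hy hxy
  have h1 := (hf x hx).2
  have h2 := (hf y hy).2
  rw [hxy] at h1
  have h3 : 1 ≤ (f y).2 := (Finset.mem_Icc.1 (Finset.mem_product.1 (hf y hy).1).2).1
  exact Nat.eq_of_mul_eq_mul_right h3 (h1.trans h2.symm)

end Pool.Agent.Helper49.VW
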