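import Pool.Agent.Helper49.VW.Defs

set_option autoImplicit false

/-! VW-3: the small potentials (Erdos-Selfridge inside one time group). -/

namespace Pool.Agent.Helper49.VW

open Finset

variable {ι : Type} [DecidableEq ι]

theorem q_nonneg (s : St ι) (g : ℕ) : 0 ≤ q s g := by
  unfold q
  refine Finset.sum_nonneg fun A _ => ?_
  split_ifs
  · positivity
  · exact le_refl _

theorem qAt_nonneg (s : St ι) (g z : ℕ) : 0 ≤ qAt s g z := by
  unfold qAt
  refine Finset.sum_nonneg fun A _ => ?_
  split_ifs
  · positivity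
  · exact le_refl _

theorem qAt_le_q (s : St ι) (g z : ℕ) : qAt s g z ≤ q s g := by
  unfold q qAt
  refine Finset.sum_le_sum fun A _ => ?_
  by_cases h : s.grp A = g ∧ Disjoint (s.R A) s.B
  · rw [if_pos h]
    split_ifs
    · exact le_refl _
    · positivity
  · rw [if_neg h, if_neg (fun h' => h h'.1)]

/-- Maker takes a point `x`: the potential grows at most by the potential at `x` (the weight of
every set which contains `x` is at most doubled). -/
theorem q_maker_le (s : St ι) (g x : ℕ) :
    q { s with M := insert x s.M } g ≤ q s g + qAt s g x := by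
  unfold q qAt
  rw [← Finset.sum_add_distrib]
  refine Finset.sum_le_sum fun A _ => ?_
  dsimp only
  by_cases h : s.grp A = g ∧ Disjoint (s.R A) s.B
  · rw [if_pos h, if_pos h]
    by_cases hx : x ∈ s.R A
    · rw [if_pos ⟨h, hx⟩]
      have h1 : (s.R A \ s.M).card ≤ (s.R A \ insert x s.M).card + 1 := by
        have : s.R A \ s.M ⊆ insert x (s.R A \ insert x s.M) := by
          intro p hp
          rw [Finset.mem_sdiff] at hp
          rw [Finset.mem_insert, Finset.mem_sdiff, Finset.mem_insert]
          by_cases hpx : p = x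
          · exact Or.inl hpx
          · exact Or.inr ⟨hp.1, fun h => h.elim hpx hp.2⟩
        exact (Finset.card_le_card this).trans (Finset.card_insert_le _ _)
      have h2 : (1 / 2 : ℝ) ^ (s.R A \ insert x s.M).card
          = 2 * (1 / 2 : ℝ) ^ ((s.R A \ insert x s.M).card + 1) := by
        rw [pow_succ]; ring
      have h3 : (1 / 2 : ℝ) ^ ((s.R A \ insert x s.M).card + 1)
          ≤ (1 / 2 : ℝ) ^ (s.R A \ s.M).card :=
        pow_le_pow_of_le_one (by norm_num) (by norm_num) h1
      rw [h2]
      linarith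
    · rw [if_neg (fun h' => hx h'.2)]
      have h1 : s.R A \ insert x s.M = s.R A \ s.M := by
        ext p
        rw [Finset.mem_sdiff, Finset.mem_sdiff, Finset.mem_insert]
        constructor
        · rintro ⟨h1, h2⟩
          exact ⟨h1, fun h => h2 (Or.inr h)⟩
        · rintro ⟨h1, h2⟩
          refine ⟨h1, fun h => h.elim (fun h => hx (h ▸ h1)) h2⟩
      rw [h1, add_zero]
  · have h3 : ¬ ((s.grp A = g ∧ Disjoint (s.R A) s.B) ∧ x ∈ s.R A) := fun h' => h h'.1
    rw [if_neg h, if_neg h, if_neg h3, add_zero]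

/-- If no protective set of the group `g` contains `x`, nothing changes. -/
theorem q_maker_eq (s : St ι) (g x : ℕ) (hx : ∀ A ∈ s.D, s.grp A = g → x ∉ s.R A) :
    q { s with M := insert x s.M } g = q s g ∧
    ∀ z, qAt { s with M := insert x s.M } g z = qAt s g z := by
  have key : ∀ A ∈ s.D, s.grp A = g → s.R A \ insert x s.M = s.R A \ s.M := by
    intro A hA hg
    have hx' := hx A hA hg
    ext p
    rw [Finset.mem_sdiff, Finset.mem_sdiff, Finset.mem_insert]
    constructor
    · rintro ⟨h1, h2⟩
      exact ⟨h1, fun h => h2 (Or.inr h)⟩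
    · rintro ⟨h1, h2⟩
      refine ⟨h1, fun h => h.elim (fun h => hx' (h ▸ h1)) h2⟩
  constructor
  · unfold q
    refine Finset.sum_congr rfl fun A hA => ?_
    dsimp only
    by_cases h : s.grp A = g ∧ Disjoint (s.R A) s.B
    · rw [if_pos h, if_pos h, key A hA h.1]
    · rw [if_neg h, if_neg h]
  · intro z
    unfold qAt
    refine Finset.sum_congr rfl fun A hA => ?_
    dsimp only
    by_cases h : (s.grp A = g ∧ Disjoint (s.R A) s.B) ∧ z ∈ s.R A
    · rw [if_pos h, if_pos h, key A hA h.1.1]
    · rw [if_neg h, if_neg h]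

theorem q_breaker_le (s : St ι) (g y : ℕ) :
    q { s with B := insert y s.B } g ≤ q s g ∧
    ∀ z, qAt { s with B := insert y s.B } g z ≤ qAt s g z := by
  have key : ∀ A, Disjoint (s.R A) (insert y s.B) → Disjoint (s.R A) s.B := fun A h =>
    Finset.disjoint_of_subset_right (Finset.subset_insert _ _) h
  constructor
  · unfold q
    refine Finset.sum_le_sum fun A hA => ?_
    dsimp only
    by_cases h : s.grp A = g ∧ Disjoint (s.R A) (insert y s.B)
    · rw [if_pos h, if_pos ⟨h.1, key A h.2⟩]
    · rw [if_neg h]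
      split_ifs
      · positivity
      · exact le_refl _
  · intro z
    unfold qAt
    refine Finset.sum_le_sum fun A hA => ?_
    dsimp only
    by_cases h : (s.grp A = g ∧ Disjoint (s.R A) (insert y s.B)) ∧ z ∈ s.R A
    · rw [if_pos h, if_pos ⟨⟨h.1.1, key A h.1.2⟩, h.2⟩]
    · rw [if_neg h]
      split_ifs
      · positivity
      · exact le_refl _

theorem q_breaker_at (s : St ι) (g y : ℕ) :
    q { s with B := insert y s.B } g + qAt s g y ≤ q s g := by
  unfold q qAt
  rw [← Finset.sum_add_distrib]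
  refine Finset.sum_le_sum fun A _ => ?_
  dsimp only
  by_cases h : s.grp A = g ∧ Disjoint (s.R A) s.B
  · by_cases hy : y ∈ s.R A
    · have h0 : ¬ (s.grp A = g ∧ Disjoint (s.R A) (insert y s.B)) := by
        rintro ⟨-, h2⟩
        exact (Finset.disjoint_left.mp h2 hy) (Finset.mem_insert_self _ _)
      have h1 : (s.grp A = g ∧ Disjoint (s.R A) s.B) ∧ y ∈ s.R A := ⟨h, hy⟩
      rw [if_neg h0, if_pos h, if_pos h1, zero_add]
    · have h3 : ¬ ((s.grp A = g ∧ Disjoint (s.R A) s.B) ∧ y ∈ s.R A) := fun h' => hy h'.2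
      rw [if_neg h3, if_pos h, add_zero]
      split_ifs
      · exact le_refl _
      · positivity
  · have h0 : ¬ (s.grp A = g ∧ Disjoint (s.R A) (insert y s.B)) := by
      rintro ⟨h1, h2⟩
      exact h ⟨h1, Finset.disjoint_of_subset_right (Finset.subset_insert _ _) h2⟩
    have h3 : ¬ ((s.grp A = g ∧ Disjoint (s.R A) s.B) ∧ y ∈ s.R A) := fun h' => h h'.1
    rw [if_neg h, if_neg h0, if_neg h3, add_zero]

/-- A protective set free of Breaker is not contained in Maker's set. -/
theorem not_subset_of_q_lt (s : St ι) (A : ι) (hA : A ∈ s.D) (hB : Disjoint (s.R A) s.B)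
    (h : q s (s.grp A) < 1) : ¬ s.R A ⊆ s.M := by
  intro hsub
  have h1 : (if s.grp A = s.grp A ∧ Disjoint (s.R A) s.B then
      (1 / 2 : ℝ) ^ (s.R A \ s.M).card else 0) ≤ q s (s.grp A) := by
    unfold q
    refine Finset.single_le_sum
      (f := fun C => if s.grp C = s.grp A ∧ Disjoint (s.R C) s.B then
      (1 / 2 : ℝ) ^ (s.R C \ s.M).card else 0) (fun C _ => ?_) hA
    split_ifs
    · positivity
    · exact le_refl _
  rw [if_pos ⟨rfl, hB⟩, Finset.sdiff_eq_empty_iff_subset.mpr hsub, Finset.card_empty,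
    pow_zero] at h1
  linarith

end Pool.Agent.Helper49.VW
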