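import Pool.Agent.Helper49.VW.Weights
import Pool.Agent.Helper49.VW.Small

set_option autoImplicit false

/-! VW-7a: start of the cascade. -/

namespace Pool.Agent.Helper49.VW

open Finset

variable {ι : Type} [DecidableEq ι]

private theorem stepB1_sdiff (P M E : Finset ℕ) (x : ℕ) :
    P \ (insert x M ∪ E) = (P \ (M ∪ E)).erase x := by
  ext z
  simp only [Finset.mem_sdiff, Finset.mem_union, Finset.mem_insert, Finset.mem_erase, not_or]
  tauto

/-- VW-7a. The state `s0 = { s with M := insert x s.M }` after Maker's move outside `E` starts a
cascade: `Core` (only `M` grows), `PreClosed` (from `Closed` for `s`), `Casc s0 s0` with empty new family,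
`Phi < 1` by `big2` and `Phi_maker_le`. -/
theorem casc_start (pts : ι → Finset ℕ) (H : Finset ι) (V : Finset ℕ) (β T : ℕ)
    (Fam : Finset (Finset ι)) (s : St ι) (h : Good pts H V β T Fam s) (x : ℕ) (hxV : x ∈ V)
    (hxM : x ∉ s.M) (hxB : x ∉ s.B) (hxE : x ∉ s.E) :
    PreClosed pts H β x { s with M := insert x s.M } ∧
    Casc pts H V β T Fam x { s with M := insert x s.M } { s with M := insert x s.M } := by
  refine ⟨⟨?_, ?_⟩, ?_⟩
  · intro A hA hAD hAB
    have h1 : β < (pts A \ (s.M ∪ s.E)).card := h.closed A hA hAD hAB
    show β ≤ (pts A \ (insert x s.M ∪ s.E)).card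
    rw [stepB1_sdiff]
    have h2 := Finset.pred_card_le_card_erase (s := pts A \ (s.M ∪ s.E)) (a := x)
    omega
  · intro A hA hAD hAB hx
    have h1 : β < (pts A \ (s.M ∪ s.E)).card := h.closed A hA hAD hAB
    show β < (pts A \ (insert x s.M ∪ s.E)).card
    rw [stepB1_sdiff, Finset.erase_eq_of_notMem]
    · exact h1
    · intro hx'
      exact hx (Finset.mem_sdiff.1 hx').1
  · have hc := h.core
    have hD : ({ s with M := insert x s.M } : St ι).D \ ({ s with M := insert x s.M } : St ι).D
        = ∅ := Finset.sdiff_self _
    have hb : (({ s with M := insert x s.M } : St ι).D \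
        ({ s with M := insert x s.M } : St ι).D).biUnion
          ({ s with M := insert x s.M } : St ι).anc = ∅ := by
      rw [hD, Finset.biUnion_empty]
    refine
      { core := ?_
        Meq := rfl
        Beq := rfl
        Esub := Finset.Subset.refl _
        Dsub := Finset.Subset.refl _
        ancEq := fun _ _ => rfl
        abEq := fun _ _ => rfl
        REq := fun _ _ => rfl
        grpEq := fun _ _ => rfl
        newE := fun p hp hp' => absurd hp hp'
        newR := fun A hA hA' => absurd hA hA'
        famCard := ?_
        famConn := ?_
        root := ?_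
        phi := ?_ }
    · exact
        { MV := Finset.insert_subset hxV hc.MV
          BV := hc.BV
          MB := Finset.disjoint_insert_left.2 ⟨hxB, hc.MB⟩
          EV := hc.EV
          DH := hc.DH
          abD := hc.abD
          abp := hc.abp
          ancD := hc.ancD
          ancSelf := hc.ancSelf
          ancTrans := hc.ancTrans
          ancLinked := hc.ancLinked
          ancCard := hc.ancCard
          RE := hc.RE
          Rp := hc.Rp
          Rg := hc.Rg
          grpM := fun A hA => (hc.grpM A hA).trans
            (Finset.card_le_card (Finset.subset_insert x s.M)) }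
    · rw [hb]
      simp
    · intro C hC
      rw [hb] at hC
      simp at hC
    · intro hne
      rw [hD] at hne
      simp at hne
    · exact lt_of_le_of_lt (Phi_maker_le pts β Fam s x) (h.big2 x hxV hxM hxB hxE)

end Pool.Agent.Helper49.VW
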