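import Pool.Agent.Helper49.VW.Small

set_option autoImplicit false

/-! VW-7b: the small potentials after the cascade. -/

namespace Pool.Agent.Helper49.VW

open Finset

variable {ι : Type} [DecidableEq ι]

/-- VW-7b. Small potentials at the end `s'` of the cascade which started from
`{ s with M := insert x s.M }`: for `g = s'.M.card` (the new group) `q s' g ≤ T (1/2)^β < 1/2`; for all other
groups `q` and `qAt` are those of `s` (old sets have `grp ≤ s.M.card < s'.M.card`, new sets have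
`grp = s'.M.card`, and `x ∉ R A ⊆ E` for old sets).  The number of new sets is at most `T` by `famCard`
and `ancSelf`. -/
theorem casc_small (pts : ι → Finset ℕ) (H : Finset ι) (V : Finset ℕ) (β T : ℕ)
    (Fam : Finset (Finset ι)) (s : St ι) (h : Good pts H V β T Fam s) (x : ℕ) (hxV : x ∈ V)
    (hxM : x ∉ s.M) (hxB : x ∉ s.B) (hxE : x ∉ s.E) (hβ : 2 * T < 2 ^ β) (s' : St ι)
    (hs' : Casc pts H V β T Fam x { s with M := insert x s.M } s') :
    (∀ g, q s' g < 1) ∧
    (∀ z ∈ s'.E, z ∉ s'.M → z ∉ s'.B →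
      q s' (s'.grp (s'.ab z)) + qAt s' (s'.grp (s'.ab z)) z < 1) := by
  have hcore := h.core
  have hc' := hs'.core
  have hg : (insert x s.M).card = s.M.card + 1 := Finset.card_insert_of_notMem hxM
  have hM : s'.M = insert x s.M := hs'.Meq
  have hB : s'.B = s.B := hs'.Beq
  have hDsub : s.D ⊆ s'.D := hs'.Dsub
  have hR : ∀ A ∈ s.D, s'.R A = s.R A := hs'.REq
  have hG : ∀ A ∈ s.D, s'.grp A = s.grp A := hs'.grpEq
  have hnew : ∀ A ∈ s'.D, A ∉ s.D → β ≤ (s'.R A).card ∧ Disjoint (s'.R A) s'.M ∧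
      s'.grp A = s.M.card + 1 := by
    intro A hA hA'
    obtain ⟨-, h1, h2, -, h3⟩ := hs'.newR A hA hA'
    exact ⟨h1, h2, h3.trans hg⟩
  have hold : ∀ A ∈ s.D, s'.grp A ≠ s.M.card + 1 := by
    intro A hA
    rw [hG A hA]
    have := hcore.grpM A hA
    omega
  have hRx : ∀ A ∈ s.D, s.R A \ insert x s.M = s.R A \ s.M := by
    intro A hA
    have hx' : x ∉ s.R A := fun h' => hxE (hcore.RE A hA h')
    ext p
    rw [Finset.mem_sdiff, Finset.mem_sdiff, Finset.mem_insert]
    constructor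
    · rintro ⟨h1, h2⟩
      exact ⟨h1, fun h => h2 (Or.inr h)⟩
    · rintro ⟨h1, h2⟩
      exact ⟨h1, fun h => h.elim (fun h => hx' (h ▸ h1)) h2⟩
  -- number of new sets
  have hcard : (s'.D \ s.D).card ≤ T := by
    refine (Finset.card_le_card ?_).trans hs'.famCard
    intro A hA
    rw [Finset.mem_biUnion]
    exact ⟨A, hA, hc'.ancSelf A (Finset.mem_sdiff.1 hA).1⟩
  -- the new group
  have hnewq : q s' (s.M.card + 1) < 1 / 2 := by
    have h1 : q s' (s.M.card + 1) ≤ ∑ A ∈ s'.D \ s.D, (1 / 2 : ℝ) ^ β := by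
      unfold q
      rw [← Finset.sum_sdiff hDsub]
      have h2 : ∑ A ∈ s.D, (if s'.grp A = s.M.card + 1 ∧ Disjoint (s'.R A) s'.B then
          (1 / 2 : ℝ) ^ (s'.R A \ s'.M).card else 0) = 0 := by
        refine Finset.sum_eq_zero fun A hA => ?_
        rw [if_neg (fun h' => hold A hA h'.1)]
      rw [h2, add_zero]
      refine Finset.sum_le_sum fun A hA => ?_
      obtain ⟨hA1, hA2⟩ := Finset.mem_sdiff.1 hA
      obtain ⟨h3, h4, h5⟩ := hnew A hA1 hA2
      split_ifs
      · rw [Finset.sdiff_eq_self_of_disjoint h4]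
        exact pow_le_pow_of_le_one (by norm_num) (by norm_num) h3
      · positivity
    rw [Finset.sum_const, nsmul_eq_mul] at h1
    have h6 : ((s'.D \ s.D).card : ℝ) * (1 / 2) ^ β ≤ T * (1 / 2) ^ β := by
      gcongr
    have h7 : (T : ℝ) * (1 / 2) ^ β < 1 / 2 := by
      have h8 : (2 * T : ℝ) < 2 ^ β := by exact_mod_cast hβ
      rw [one_div, inv_pow, ← div_eq_mul_inv, div_lt_iff₀ (by positivity)]
      linarith
    linarith
  -- the old groups
  have hq : ∀ g, g ≠ s.M.card + 1 → q s' g = q s g ∧ ∀ z, qAt s' g z = qAt s g z := by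
    intro g hgne
    constructor
    · unfold q
      rw [← Finset.sum_sdiff hDsub]
      have h2 : ∑ A ∈ s'.D \ s.D, (if s'.grp A = g ∧ Disjoint (s'.R A) s'.B then
          (1 / 2 : ℝ) ^ (s'.R A \ s'.M).card else 0) = 0 := by
        refine Finset.sum_eq_zero fun A hA => ?_
        obtain ⟨hA1, hA2⟩ := Finset.mem_sdiff.1 hA
        rw [if_neg (fun h' => hgne (h'.1.symm.trans (hnew A hA1 hA2).2.2))]
      rw [h2, zero_add]
      refine Finset.sum_congr rfl fun A hA => ?_
      rw [hG A hA, hR A hA, hM, hB, hRx A hA]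
    · intro z
      unfold qAt
      rw [← Finset.sum_sdiff hDsub]
      have h2 : ∑ A ∈ s'.D \ s.D, (if (s'.grp A = g ∧ Disjoint (s'.R A) s'.B) ∧ z ∈ s'.R A then
          (1 / 2 : ℝ) ^ (s'.R A \ s'.M).card else 0) = 0 := by
        refine Finset.sum_eq_zero fun A hA => ?_
        obtain ⟨hA1, hA2⟩ := Finset.mem_sdiff.1 hA
        rw [if_neg (fun h' => hgne (h'.1.1.symm.trans (hnew A hA1 hA2).2.2))]
      rw [h2, zero_add]
      refine Finset.sum_congr rfl fun A hA => ?_
      rw [hG A hA, hR A hA, hM, hB, hRx A hA]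
  constructor
  · intro g
    by_cases hgg : g = s.M.card + 1
    · rw [hgg]
      linarith
    · rw [(hq g hgg).1]
      exact h.small1 g
  · intro z hzE hzM hzB
    by_cases hgg : s'.grp (s'.ab z) = s.M.card + 1
    · rw [hgg]
      have := qAt_le_q s' (s.M.card + 1) z
      linarith
    · have hzE0 : z ∈ s.E := by
        by_contra hz
        obtain ⟨-, -, h3⟩ := hs'.newE z hzE hz
        exact hgg (hnew _ (hc'.abD z hzE) h3).2.2
      have hab : s'.ab z = s.ab z := hs'.abEq z hzE0
      rw [(hq _ hgg).1, (hq _ hgg).2, hab, hG _ (hcore.abD z hzE0)]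
      refine h.small2 z hzE0 ?_ ?_
      · intro h'
        exact hzM (hM ▸ Finset.mem_insert_of_mem h')
      · intro h'
        exact hzB (hB ▸ h')

end Pool.Agent.Helper49.VW
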