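import Pool.Agent.Helper49.VW.CascAll
import Pool.Agent.Helper49.VW.StepB1
import Pool.Agent.Helper49.VW.StepB2

set_option autoImplicit false

/-! VW-7c, VW-7d: Maker plays outside the emergency room. -/

namespace Pool.Agent.Helper49.VW

open Finset

variable {ι : Type} [DecidableEq ι]

/-- the end of the cascade -/
private theorem sb_end (pts : ι → Finset ℕ) (H : Finset ι) (V : Finset ℕ) (β T : ℕ)
    (Fam : Finset (Finset ι)) (hV : ∀ A ∈ H, pts A ⊆ V)
    (hFam : FamT pts H T Fam) (hT : 1 ≤ T) (hβ : 2 * T < 2 ^ β) (hne : ∀ A ∈ H, (pts A).Nonempty)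
    (s : St ι) (h : Good pts H V β T Fam s) (x : ℕ) (hxV : x ∈ V)
    (hxM : x ∉ s.M) (hxB : x ∉ s.B) (hxE : x ∉ s.E) :
    ∃ s', s'.M = insert x s.M ∧ s'.B = s.B ∧ Core pts H V T s' ∧ Closed pts H β s' ∧
      Phi pts β Fam s' < 1 ∧ (∀ g, q s' g < 1) ∧
      (∀ z ∈ s'.E, z ∉ s'.M → z ∉ s'.B →
        q s' (s'.grp (s'.ab z)) + qAt s' (s'.grp (s'.ab z)) z < 1) := by
  obtain ⟨hpre, h0⟩ := casc_start pts H V β T Fam s h x hxV hxM hxB hxE
  obtain ⟨s', hs', hcl⟩ := casc_all pts H V β T Fam x _ hV hFam hT hne hpre _ h0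
  obtain ⟨hq, hq'⟩ := casc_small pts H V β T Fam s h x hxV hxM hxB hxE hβ s' hs'
  exact ⟨s', hs'.Meq, hs'.Beq, hs'.core, hcl, hs'.phi, hq, hq'⟩

/-- Breaker answers with `y` -/
private theorem sb_good (pts : ι → Finset ℕ) (H : Finset ι) (V : Finset ℕ) (β T : ℕ)
    (Fam : Finset (Finset ι)) (s' : St ι) (hcore : Core pts H V T s') (hcl : Closed pts H β s')
    (hphi : Phi pts β Fam s' < 1) (hq : ∀ g, q s' g < 1)
    (hq' : ∀ z ∈ s'.E, z ∉ s'.M → z ∉ s'.B →
        q s' (s'.grp (s'.ab z)) + qAt s' (s'.grp (s'.ab z)) z < 1)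
    (y : ℕ) (hyV : y ∈ V) (hyM : y ∉ s'.M)
    (hbig : ∀ z ∈ V, z ∉ s'.M → z ∉ insert y s'.B → z ∉ s'.E →
      Phi pts β Fam { s' with B := insert y s'.B }
        + PhiAt pts β Fam { s' with B := insert y s'.B } z < 1) :
    Good pts H V β T Fam { s' with B := insert y s'.B } where
  core :=
    { MV := hcore.MV
      BV := Finset.insert_subset hyV hcore.BV
      MB := Finset.disjoint_insert_right.2 ⟨hyM, hcore.MB⟩
      EV := hcore.EV
      DH := hcore.DH
      abD := hcore.abD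
      abp := hcore.abp
      ancD := hcore.ancD
      ancSelf := hcore.ancSelf
      ancTrans := hcore.ancTrans
      ancLinked := hcore.ancLinked
      ancCard := hcore.ancCard
      RE := hcore.RE
      Rp := hcore.Rp
      Rg := hcore.Rg
      grpM := hcore.grpM }
  closed := fun A hA hAD hp => hcl A hA hAD fun p hp1 hp2 =>
    hp p hp1 (Finset.mem_insert_of_mem hp2)
  big1 := lt_of_le_of_lt (Phi_breaker_le pts β Fam s' y).1 hphi
  big2 := hbig
  small1 := fun g => lt_of_le_of_lt (q_breaker_le s' g y).1 (hq g)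
  small2 := fun z hzE hzM hzB => by
    have hzB' : z ∉ s'.B := fun hz => hzB (Finset.mem_insert_of_mem hz)
    have h1 := hq' z hzE hzM hzB'
    have h2 := q_breaker_le s' (s'.grp (s'.ab z)) y
    have h3 := h2.2 z
    exact lt_of_le_of_lt (add_le_add h2.1 h3) h1

/-- VW-7c. Maker does not complete a set: if `pts A ⊆ insert x s.M = s'.M` then `A ∈ s'.D` by
`Closed`, and then `R A ⊆ pts A ⊆ s'.M` contradicts `not_subset_of_q_lt` (Breaker has no point in
`A`). -/
theorem stepB_good (pts : ι → Finset ℕ) (H : Finset ι) (V : Finset ℕ) (β T : ℕ)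
    (Fam : Finset (Finset ι)) (hV : ∀ A ∈ H, pts A ⊆ V)
    (hFam : FamT pts H T Fam) (hT : 1 ≤ T) (hβ : 2 * T < 2 ^ β) (hne : ∀ A ∈ H, (pts A).Nonempty)
    (s : St ι) (h : Good pts H V β T Fam s) (x : ℕ) (hxV : x ∈ V)
    (hxM : x ∉ s.M) (hxB : x ∉ s.B) (hxE : x ∉ s.E) :
    ∀ A ∈ H, ¬ pts A ⊆ insert x s.M := by
  classical
  obtain ⟨s', hM, hB, hcore, hcl, -, hq, -⟩ :=
    sb_end pts H V β T Fam hV hFam hT hβ hne s h x hxV hxM hxB hxE
  intro A hA hsub
  rw [← hM] at hsub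
  have hdisj : ∀ p ∈ pts A, p ∉ s'.B := fun p hp hpB =>
    Finset.disjoint_left.1 hcore.MB (hsub hp) hpB
  by_cases hAD : A ∈ s'.D
  · have hR : s'.R A ⊆ s'.M := (hcore.Rp A hAD).trans hsub
    have hRB : Disjoint (s'.R A) s'.B :=
      Finset.disjoint_left.2 fun p hp => hdisj p (hcore.Rp A hAD hp)
    exact not_subset_of_q_lt s' A hAD hRB (hq _) hR
  · have h1 := hcl A hA hAD fun p hp hpB => absurd hpB (hdisj p hp)
    have h2 : pts A \ (s'.M ∪ s'.E) = ∅ :=
      Finset.sdiff_eq_empty_iff_subset.2 (hsub.trans Finset.subset_union_left)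
    rw [h2, Finset.card_empty] at h1
    omega

/-- VW-7d. Breaker's answer: an unclaimed point of the big board (outside `s'.E`) which maximises
`PhiAt` at the end `s'` of the cascade, if there is one; otherwise any unclaimed point of `V`. -/
theorem stepB (pts : ι → Finset ℕ) (H : Finset ι) (V : Finset ℕ) (β T : ℕ)
    (Fam : Finset (Finset ι)) (hV : ∀ A ∈ H, pts A ⊆ V)
    (hFam : FamT pts H T Fam) (hT : 1 ≤ T) (hβ : 2 * T < 2 ^ β) (hne : ∀ A ∈ H, (pts A).Nonempty)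
    (s : St ι) (h : Good pts H V β T Fam s) (x : ℕ) (hxV : x ∈ V)
    (hxM : x ∉ s.M) (hxB : x ∉ s.B) (hxE : x ∉ s.E)
    (hex : ∃ y ∈ V, y ∉ insert x s.M ∧ y ∉ s.B) :
    ∃ y ∈ V, y ∉ insert x s.M ∧ y ∉ s.B ∧
      ∃ s'', s''.M = insert x s.M ∧ s''.B = insert y s.B ∧ Good pts H V β T Fam s'' := by
  classical
  obtain ⟨s', hM, hB, hcore, hcl, hphi, hq, hq'⟩ :=
    sb_end pts H V β T Fam hV hFam hT hβ hne s h x hxV hxM hxB hxE
  rcases (V.filter (fun y => y ∉ s'.M ∧ y ∉ s'.B ∧ y ∉ s'.E)).eq_empty_or_nonempty with hY | hY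
  · obtain ⟨y, hyV, hyM, hyB⟩ := hex
    refine ⟨y, hyV, hyM, hyB, { s' with B := insert y s'.B }, hM, ?_, ?_⟩
    · show insert y s'.B = insert y s.B
      rw [hB]
    · rw [← hM] at hyM
      refine sb_good pts H V β T Fam s' hcore hcl hphi hq hq' y hyV hyM ?_
      intro z hzV hzM hzB hzE
      have hzB' : z ∉ s'.B := fun hz => hzB (Finset.mem_insert_of_mem hz)
      have : z ∈ V.filter (fun y => y ∉ s'.M ∧ y ∉ s'.B ∧ y ∉ s'.E) :=
        Finset.mem_filter.2 ⟨hzV, hzM, hzB', hzE⟩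
      rw [hY] at this
      exact absurd this (Finset.notMem_empty z)
  · obtain ⟨y, hy, hmax⟩ := Finset.exists_max_image _ (fun y => PhiAt pts β Fam s' y) hY
    obtain ⟨hyV, hyM, hyB, hyE⟩ := Finset.mem_filter.1 hy
    refine ⟨y, hyV, hM ▸ hyM, hB ▸ hyB, { s' with B := insert y s'.B }, hM, ?_, ?_⟩
    · show insert y s'.B = insert y s.B
      rw [hB]
    · refine sb_good pts H V β T Fam s' hcore hcl hphi hq hq' y hyV hyM ?_
      intro z hzV hzM hzB hzE
      have hzB' : z ∉ s'.B := fun hz => hzB (Finset.mem_insert_of_mem hz)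
      have h1 := hmax z (Finset.mem_filter.2 ⟨hzV, hzM, hzB', hzE⟩)
      have h2 := Phi_breaker_big pts β Fam s' y hyE
      have h3 := (Phi_breaker_le pts β Fam s' y).2 z
      linarith

end Pool.Agent.Helper49.VW
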