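import Pool.Agent.Helper49.VW.StepE
import Pool.Agent.Helper49.VW.StepB

set_option autoImplicit false

/-! VW-8: the abstract theorem for Breaker. -/

namespace Pool.Agent.Helper49.VW

open Finset

variable {ι : Type} [DecidableEq ι] [Inhabited ι]

/-- the state at the beginning of the game -/
private noncomputable def st0 : St ι where
  M := ∅
  B := ∅
  E := ∅
  D := ∅
  anc := fun _ => ∅
  ab := fun _ => default
  R := fun _ => ∅
  grp := fun _ => 0

private theorem st0_ok (pts : ι → Finset ℕ) (F : Finset ι) : Ok pts (st0 : St ι) F :=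
  ⟨fun A _ hA => absurd hA (Finset.notMem_empty A),
    fun _ _ _ => ⟨fun p _ hp => absurd hp (Finset.notMem_empty p),
      fun p _ hp => absurd hp (Finset.notMem_empty p)⟩⟩

private theorem st0_unc (pts : ι → Finset ℕ) (F : Finset ι) :
    unc pts (st0 : St ι) F = F.biUnion pts := by
  unfold unc
  show (F \ ∅).biUnion pts \ (∅ ∪ ∅) = F.biUnion pts
  simp

private theorem st0_wt (pts : ι → Finset ℕ) (β : ℕ) (F : Finset ι) :
    wt pts β (st0 : St ι) F =
      (2 : ℝ) ^ (((β * F.card : ℕ) : ℤ) - ((F.biUnion pts).card : ℤ)) := by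
  unfold wt
  rw [if_pos (st0_ok pts F), st0_unc]
  show (2 : ℝ) ^ (((β * (F \ ∅).card : ℕ) : ℤ) - ((F.biUnion pts).card : ℤ)) = _
  simp

private theorem st0_core (pts : ι → Finset ℕ) (H : Finset ι) (V : Finset ℕ) (T : ℕ) :
    Core pts H V T (st0 : St ι) where
  MV := Finset.empty_subset _
  BV := Finset.empty_subset _
  MB := Finset.disjoint_empty_left _
  EV := Finset.empty_subset _
  DH := Finset.empty_subset _
  abD := fun p hp => absurd hp (Finset.notMem_empty p)
  abp := fun p hp => absurd hp (Finset.notMem_empty p)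
  ancD := fun p hp => absurd hp (Finset.notMem_empty p)
  ancSelf := fun p hp => absurd hp (Finset.notMem_empty p)
  ancTrans := fun p hp => absurd hp (Finset.notMem_empty p)
  ancLinked := fun p hp => absurd hp (Finset.notMem_empty p)
  ancCard := fun p hp => absurd hp (Finset.notMem_empty p)
  RE := fun p hp => absurd hp (Finset.notMem_empty p)
  Rp := fun p hp => absurd hp (Finset.notMem_empty p)
  Rg := fun p hp => absurd hp (Finset.notMem_empty p)
  grpM := fun p hp => absurd hp (Finset.notMem_empty p)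

open Classical in
/-- **Abstract criterion.**  `Inv M B := ∃ s, s.M = M ∧ s.B = B ∧ Good pts H V β T Fam s` with
`Fam` the family of all `F ⊆ H` with `T < F.card ≤ 2 T` which are linked to some `L ∈ H`.  Start: all
components of the state empty; `Ok` holds for all `F`, `wt = 2 ^ (β |F| - |⋃ F|)`,
`Phi + PhiAt ≤ 2 Phi < 1`. -/
theorem breaker_abstract (pts : ι → Finset ℕ) (H : Finset ι) (V : Finset ℕ) (β T : ℕ)
    (hV : ∀ A ∈ H, pts A ⊆ V) (hcard : ∀ A ∈ H, β < (pts A).card) (hT : 1 ≤ T)
    (hβ : 2 * T < 2 ^ β)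
    (hsum : 2 * ∑ F ∈ H.powerset.filter
      (fun F => T < F.card ∧ F.card ≤ 2 * T ∧ ∃ L ∈ H, Linked pts F L),
      (2 : ℝ) ^ (((β * F.card : ℕ) : ℤ) - ((F.biUnion pts).card : ℤ)) < 1) :
    ∃ Inv, BInv V (fun M => ∃ A ∈ H, pts A ⊆ M) Inv := by
  set Fam : Finset (Finset ι) := H.powerset.filter
      (fun F => T < F.card ∧ F.card ≤ 2 * T ∧ ∃ L ∈ H, Linked pts F L) with hFamdef
  have hFam : FamT pts H T Fam := by
    intro F hF h1 h2 h3
    rw [hFamdef, Finset.mem_filter, Finset.mem_powerset]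
    exact ⟨hF, h1, h2, h3⟩
  have hne : ∀ A ∈ H, (pts A).Nonempty := fun A hA =>
    Finset.card_pos.1 (lt_of_le_of_lt (Nat.zero_le _) (hcard A hA))
  have hPhi : 2 * Phi pts β Fam (st0 : St ι) < 1 := by
    unfold Phi
    rw [Finset.sum_congr rfl (fun F _ => st0_wt pts β F)]
    exact hsum
  have hwt0 : ∀ F, 0 ≤ wt pts β (st0 : St ι) F := by
    intro F
    rw [st0_wt]
    positivity
  have hPhi0 : 0 ≤ Phi pts β Fam (st0 : St ι) := Finset.sum_nonneg fun F _ => hwt0 F
  have hPhiAt : ∀ z, PhiAt pts β Fam (st0 : St ι) z ≤ Phi pts β Fam (st0 : St ι) := by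
    intro z
    unfold PhiAt Phi
    refine Finset.sum_le_sum fun F _ => ?_
    split_ifs
    · exact le_refl _
    · exact hwt0 F
  refine ⟨fun M B => ∃ s : St ι, s.M = M ∧ s.B = B ∧ Good pts H V β T Fam s, ?_, ?_, ?_, ?_⟩
  · refine ⟨st0, rfl, rfl, ?_⟩
    exact
      { core := st0_core pts H V T
        closed := by
          intro A hA _ _
          show β < (pts A \ (∅ ∪ ∅)).card
          simpa using hcard A hA
        big1 := by linarith
        big2 := by
          intro z _ _ _ _
          have := hPhiAt z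
          linarith
        small1 := by
          intro g
          unfold q
          show ∑ A ∈ (∅ : Finset ι), _ < _
          simp
        small2 := fun z hz => absurd hz (Finset.notMem_empty z) }
  · rintro M B ⟨s, rfl, rfl, hs⟩
    exact hs.core.MV
  · rintro M B x ⟨s, rfl, rfl, hs⟩ hxV hxM hxB ⟨A, hA, hsub⟩
    by_cases hxE : x ∈ s.E
    · exact stepE_good pts H V β T Fam s hs x hxV hxM hxB hxE A hA hsub
    · exact stepB_good pts H V β T Fam hV hFam hT hβ hne s hs x hxV hxM hxB hxE A hA hsub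
  · rintro M B x ⟨s, rfl, rfl, hs⟩ hxV hxM hxB hex
    by_cases hxE : x ∈ s.E
    · obtain ⟨y, h1, h2, h3, h4⟩ := stepE pts H V β T Fam s hs x hxV hxM hxB hxE hex
      exact ⟨y, h1, h2, h3, _, rfl, rfl, h4⟩
    · obtain ⟨y, h1, h2, h3, s'', h4, h5, h6⟩ :=
        stepB pts H V β T Fam hV hFam hT hβ hne s hs x hxV hxM hxB hxE hex
      exact ⟨y, h1, h2, h3, s'', h4, h5, h6⟩

end Pool.Agent.Helper49.VW
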