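import Pool.Agent.Helper49.VW.SegDefs

set_option autoImplicit false

/-! VW-14: disjoint blocks in a long progression. -/

namespace Pool.Agent.Helper49.VW

open Finset

/-- the blocks are pairwise disjoint and contained in the progression -/
theorem block_disjoint (m : ℕ) (a d t t' : ℕ) (hd : 1 ≤ d) (h : t ≠ t') :
    Disjoint (win m (a + t * m * d, d)) (win m (a + t' * m * d, d)) := by
  rw [Finset.disjoint_left]
  intro x hx hx'
  simp only [win, Finset.mem_image, Finset.mem_range] at hx hx'
  obtain ⟨j, hj, rfl⟩ := hx
  obtain ⟨j', hj', he⟩ := hx'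
  apply h
  have h1 : (t' * m + j') * d = (t * m + j) * d := by
    have e1 : (t' * m + j') * d = t' * m * d + j' * d := by ring
    have e2 : (t * m + j) * d = t * m * d + j * d := by ring
    rw [e1, e2]
    omega
  have h2 : t' * m + j' = t * m + j := Nat.eq_of_mul_eq_mul_right hd h1
  have hm : 0 < m := by omega
  have h3 : (t' * m + j') / m = t' := by
    rw [add_comm, Nat.add_mul_div_right _ _ hm, Nat.div_eq_of_lt hj', zero_add]
  have h4 : (t * m + j) / m = t := by
    rw [add_comm, Nat.add_mul_div_right _ _ hm, Nat.div_eq_of_lt hj, zero_add]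
  rw [← h3, ← h4, h2]

theorem block_subset (m L : ℕ) (hm : 1 ≤ m) (a d t : ℕ) (ht : t < L / m) :
    win m (a + t * m * d, d) ⊆ (Finset.range L).image (fun j => a + j * d) := by
  intro x hx
  simp only [win, Finset.mem_image, Finset.mem_range] at hx ⊢
  obtain ⟨j, hj, rfl⟩ := hx
  refine ⟨t * m + j, ?_, by ring⟩
  have h1 : (t + 1) * m ≤ L := by
    have h2 : t + 1 ≤ L / m := ht
    calc (t + 1) * m ≤ (L / m) * m := Nat.mul_le_mul_right m h2
      _ ≤ L := Nat.div_mul_le_self L m
  have h3 : (t + 1) * m = t * m + m := by ring
  omega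

/-- A progression with `L ≥ m` terms of which at most `L / 1000` lie outside `V`.  Of its `L / m ≥
L / (2 m)` disjoint blocks of `m` terms at most `L / (50 m)` have more than `m / 20` terms outside
`V`. -/
theorem blocks (m L : ℕ) (hm : 1 ≤ m) (hL : m ≤ L) (a d : ℕ) (hd : 1 ≤ d) (V : Finset ℕ)
    (h : 1000 * (((Finset.range L).image (fun j => a + j * d)) \ V).card ≤ L) :
    10 * L ≤ 21 * m * ((Finset.range (L / m)).filter
      (fun t => 20 * (win m (a + t * m * d, d) \ V).card ≤ m)).card := by
  set S := (Finset.range L).image (fun j => a + j * d) with hS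
  set good := (Finset.range (L / m)).filter
      (fun t => 20 * (win m (a + t * m * d, d) \ V).card ≤ m) with hgood
  set bad := (Finset.range (L / m)).filter
      (fun t => ¬ 20 * (win m (a + t * m * d, d) \ V).card ≤ m) with hbad
  have hsum : good.card + bad.card = L / m := by
    have := Finset.card_filter_add_card_filter_not (s := Finset.range (L / m))
      (fun t => 20 * (win m (a + t * m * d, d) \ V).card ≤ m)
    rw [Finset.card_range] at this
    exact this
  have hb1 : ∑ t ∈ bad, (win m (a + t * m * d, d) \ V).card ≤ (S \ V).card := by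
    rw [← Finset.card_biUnion]
    · apply Finset.card_le_card
      intro x hx
      simp only [Finset.mem_biUnion, Finset.mem_sdiff] at hx ⊢
      obtain ⟨t, ht, hx1, hx2⟩ := hx
      refine ⟨?_, hx2⟩
      have ht' : t < L / m := by
        rw [hbad, Finset.mem_filter, Finset.mem_range] at ht
        exact ht.1
      exact block_subset m L hm a d t ht' hx1
    · intro t _ t' _ htt
      exact (block_disjoint m a d t t' hd htt).mono Finset.sdiff_subset Finset.sdiff_subset
  have hb2 : bad.card * m ≤ 20 * ∑ t ∈ bad, (win m (a + t * m * d, d) \ V).card := by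
    rw [Finset.mul_sum, ← smul_eq_mul, ← Finset.sum_const]
    apply Finset.sum_le_sum
    intro t ht
    rw [hbad, Finset.mem_filter] at ht
    have := ht.2
    omega
  have hb3 : 50 * (bad.card * m) ≤ L := by
    have : 50 * (bad.card * m) ≤ 1000 * (S \ V).card := by omega
    exact this.trans h
  have hq1 : 1 ≤ L / m := (Nat.one_le_div_iff hm).mpr hL
  have hq2 : L < m * (L / m) + m := by
    have h1 := Nat.div_add_mod L m
    have h2 := Nat.mod_lt L hm
    omega
  have hq3 : m * 1 ≤ m * (L / m) := Nat.mul_le_mul_left m hq1
  have hq4 : m * (L / m) = m * good.card + bad.card * m := by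
    rw [← hsum]; ring
  have e : 21 * m * good.card = 21 * (m * good.card) := by ring
  rw [e]
  omega

end Pool.Agent.Helper49.VW
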