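import Pool.Agent.Helper49.VW.SegBase

set_option autoImplicit false

/-! VW-15c: a covered block has many extra points. -/

namespace Pool.Agent.Helper49.VW

open Finset

/-- VW-15c. -/
theorem cover_Vext (m l h Q n : ℕ) (a d L w : ℕ → ℕ) (Fr : Finset ℕ) (hm : 1000000 ≤ m)
    (hnm : 100 * n ≤ 101 * m)
    (hs : SegData m l h Q a d L w Fr) (hQ : m ^ 2 ≤ Q) (hFr : 120 * Fr.card ≤ n)
    (i : ℕ) (hi : i < h) (b : ℕ) (hB : win m (b, d i) ⊆ seg a d L i)
    (hc : 20 * (win m (b, d i) \ pre a d L i).card ≤ m) :
    44 * m ≤ 100 * (win m (b, d i) ∩ Vext m h a d L Fr).card := by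
  have hcard : (win m (b, d i)).card = m := by
    unfold win
    rw [Finset.card_image_of_injective, Finset.card_range]
    intro x y hxy
    have h1 : b + x * d i = b + y * d i := hxy
    have h2 : x * d i = y * d i := by omega
    exact Nat.eq_of_mul_eq_mul_right (hs.d1 i hi) h2
  have hsub : win m (b, d i) ⊆ (win m (b, d i) \ pre a d L i) ∪
      ((win m (b, d i) ∩ Vext m h a d L Fr) ∪
        (Fr.filter (fun j => j < i)).biUnion (fun j => win m (a j, d j) ∩ win m (b, d i))) := by
    intro x hx
    by_cases hp : x ∈ pre a d L i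
    · have h1 := pre_subset m l h Q a d L w Fr hs i hi hp
      rw [Finset.mem_union] at h1
      rw [Finset.mem_union, Finset.mem_union]
      right
      rcases h1 with h1 | h1
      · left
        exact Finset.mem_inter.2 ⟨hx, h1⟩
      · right
        rw [Finset.mem_biUnion] at h1 ⊢
        obtain ⟨j, hj, hxj⟩ := h1
        exact ⟨j, hj, Finset.mem_inter.2 ⟨hxj, hx⟩⟩
    · rw [Finset.mem_union]
      left
      exact Finset.mem_sdiff.2 ⟨hx, hp⟩
  have h1 := Finset.card_le_card hsub
  have h2 := Finset.card_union_le (win m (b, d i) \ pre a d L i)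
      ((win m (b, d i) ∩ Vext m h a d L Fr) ∪
        (Fr.filter (fun j => j < i)).biUnion (fun j => win m (a j, d j) ∩ win m (b, d i)))
  have h3 := Finset.card_union_le (win m (b, d i) ∩ Vext m h a d L Fr)
        ((Fr.filter (fun j => j < i)).biUnion (fun j => win m (a j, d j) ∩ win m (b, d i)))
  have h4 : ((Fr.filter (fun j => j < i)).biUnion
      (fun j => win m (a j, d j) ∩ win m (b, d i))).card ≤
      ∑ j ∈ Fr.filter (fun j => j < i), (win m (a j, d j) ∩ win m (b, d i)).card :=
    Finset.card_biUnion_le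
  have h5 := sum_base_le m l h Q a d L w Fr (by omega) hs hQ i hi b hB
  rw [hcard] at h1
  omega

end Pool.Agent.Helper49.VW
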