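import Pool.Agent.Helper49.VW.CS
import Pool.Agent.Helper49.VW.Blocks
import Pool.Agent.Helper49.VW.SegCover

set_option autoImplicit false

/-! VW-16a: the bad segments. -/

namespace Pool.Agent.Helper49.VW

open Finset

/-- the segments which are not free and have few new points -/
def badSeg (h lam : ℕ) (a d L w : ℕ → ℕ) (Fr : Finset ℕ) : Finset ℕ :=
  (Finset.range h \ Fr).filter (fun i => (seg a d L i \ pre a d L i).card < 480 * lam * w i)

/-- VW-16a. Bad segments: their total length is at most `2.1 * 80000 * m` and there are at most `80000` of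
them.  For a bad segment `480 lam w_i ≤ 480 lam ((L_i - m) / l + 1) ≤ L_i / 1000` (`l = 24000000 lam`,
`480 lam ≤ m / 10^6`), so `blocks` gives `10 L_i ≤ 21 m c_i` where `c_i ≥ 1` is the number of covered blocks;
all covered blocks of all bad segments together satisfy the hypotheses of `cs_bound` with
`X = Vext` (`cover_Vext`, `card_Vext_le`). -/
theorem bad_len (m l h n lam Q : ℕ) (a d L w : ℕ → ℕ) (Fr : Finset ℕ)
    (hs : SegData m l h Q a d L w Fr) (hn : n = m + l) (hl : l = 24000000 * lam)
    (hlam : 1 ≤ lam) (hbig : 1000000000000 * lam ≤ n) (hQ : m ^ 2 ≤ Q)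
    (hv : vext m h a d L Fr ≤ 4 * n) (hFr : 120 * lam * Fr.card ≤ n) :
    10 * ∑ i ∈ badSeg h lam a d L w Fr, L i ≤ 21 * m * 80000 ∧
    (badSeg h lam a d L w Fr).card ≤ 80000 := by
  classical
  have hmbig : 999000000000 * lam ≤ m := by omega
  have hm6 : 1000000 ≤ m := by omega
  have hm1 : 1 ≤ m := by omega
  have hnm : 100 * n ≤ 101 * m := by omega
  have hFr' : 120 * Fr.card ≤ n := by
    calc 120 * Fr.card = 120 * 1 * Fr.card := by ring
      _ ≤ 120 * lam * Fr.card := by gcongr
      _ ≤ n := hFr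
  -- the covered blocks of a bad segment
  set S := badSeg h lam a d L w Fr with hSdef
  let I : ℕ → Finset ℕ := fun i => (Finset.range (L i / m)).filter
    (fun t => 20 * (win m (a i + t * m * d i, d i) \ pre a d L i).card ≤ m)
  have hSmem : ∀ i ∈ S, i < h ∧ i ∉ Fr ∧
      (seg a d L i \ pre a d L i).card < 480 * lam * w i := by
    intro i hi
    rw [hSdef, badSeg, Finset.mem_filter, Finset.mem_sdiff, Finset.mem_range] at hi
    exact ⟨hi.1.1, hi.1.2, hi.2⟩
  have hI : ∀ i ∈ S, 10 * L i ≤ 21 * m * (I i).card := by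
    intro i hi
    obtain ⟨hih, hiF, hnew⟩ := hSmem i hi
    have hw := hs.wl i hih
    have hw1 := hs.w1 i hih
    have hLm := hs.Lm i hih
    refine blocks m (L i) hm1 hLm (a i) (d i) (hs.d1 i hih) (pre a d L i) ?_
    obtain ⟨v, hv⟩ : ∃ v, w i = v + 1 := ⟨w i - 1, by omega⟩
    have hvl : v * l ≤ L i - m := by
      have := hw
      rw [hv] at this
      simpa using this
    rw [hl] at hvl
    rw [hv] at hnew
    have hnew' : (seg a d L i \ pre a d L i).card < 480 * (lam * v) + 480 * lam := by
      calc (seg a d L i \ pre a d L i).card < 480 * lam * (v + 1) := hnew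
        _ = 480 * (lam * v) + 480 * lam := by ring
    have hvl' : 24000000 * (lam * v) ≤ L i - m := by
      calc 24000000 * (lam * v) = v * (24000000 * lam) := by ring
        _ ≤ L i - m := hvl
    change 1000 * (seg a d L i \ pre a d L i).card ≤ L i
    omega
  -- all blocks
  let blk : ℕ → ℕ → ℕ × ℕ := fun i t => (a i + t * m * d i, d i)
  let Bi : ℕ → Finset (ℕ × ℕ) := fun i => (I i).image (blk i)
  let Bl : Finset (ℕ × ℕ) := S.biUnion Bi
  have hne : ∀ b : ℕ × ℕ, (win m b).Nonempty := by
    intro b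
    refine ⟨b.1, ?_⟩
    rw [win, Finset.mem_image]
    exact ⟨0, Finset.mem_range.mpr hm1, by simp⟩
  have hsub : ∀ i ∈ S, ∀ t ∈ I i, win m (blk i t) ⊆ seg a d L i := by
    intro i hi t ht
    have ht' := (Finset.mem_filter.mp ht).1
    exact block_subset m (L i) hm1 (a i) (d i) t (Finset.mem_range.mp ht')
  have hdis0 : ∀ i ∈ S, ∀ t ∈ I i, ∀ j ∈ S, ∀ s ∈ I j, blk i t ≠ blk j s →
      (blk i t).2 = (blk j s).2 → Disjoint (win m (blk i t)) (win m (blk j s)) := by
    intro i hi t ht j hj s hsI hne' heq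
    by_cases hij : i = j
    · subst hij
      have hts : t ≠ s := by
        intro hts
        exact hne' (by rw [hts])
      exact block_disjoint m (a i) (d i) t s (hs.d1 i (hSmem i hi).1) hts
    · have hdd : d i = d j := heq
      exact Finset.disjoint_of_subset_left (hsub i hi t ht)
        (Finset.disjoint_of_subset_right (hsub j hj s hsI)
          (hs.disj i (hSmem i hi).1 j (hSmem j hj).1 hij hdd))
  have hinj : ∀ i ∈ S, Set.InjOn (blk i) (I i : Set ℕ) := by
    intro i hi t ht s hs' hts
    by_contra hne'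
    have hd' := block_disjoint m (a i) (d i) t s (hs.d1 i (hSmem i hi).1) hne'
    have heq : win m (a i + t * m * d i, d i) = win m (a i + s * m * d i, d i) := by
      have : blk i t = blk i s := hts
      exact congrArg (win m) this
    rw [heq, disjoint_self] at hd'
    exact (hne _).ne_empty hd'
  have hBcard : Bl.card = ∑ i ∈ S, (I i).card := by
    change (S.biUnion Bi).card = _
    rw [Finset.card_biUnion]
    · refine Finset.sum_congr rfl fun i hi => ?_
      exact Finset.card_image_of_injOn (hinj i hi)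
    · intro i hi j hj hij
      rw [Function.onFun, Finset.disjoint_left]
      intro b hb1 hb2
      obtain ⟨t, ht, rfl⟩ := Finset.mem_image.mp hb1
      obtain ⟨s, hsI, hbs⟩ := Finset.mem_image.mp hb2
      have hdd : d j = d i := congrArg Prod.snd hbs
      have h1 := hsub i hi t ht
      have h2 := hsub j hj s hsI
      rw [hbs] at h2
      have h3 := hs.disj i (hSmem i hi).1 j (hSmem j hj).1 hij hdd.symm
      obtain ⟨p, hp⟩ := hne (blk i t)
      exact (Finset.disjoint_left.mp h3 (h1 hp)) (h2 hp)
  have hBl : Bl.card ≤ 80000 := by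
    refine cs_bound m hm6 Bl ?_ ?_ (Vext m h a d L Fr) ?_ ?_
    · intro b hb
      obtain ⟨i, hi, hb'⟩ := Finset.mem_biUnion.mp hb
      obtain ⟨t, ht, rfl⟩ := Finset.mem_image.mp hb'
      exact hs.d1 i (hSmem i hi).1
    · intro b hb c hc hbc h2
      obtain ⟨i, hi, hb'⟩ := Finset.mem_biUnion.mp hb
      obtain ⟨t, ht, rfl⟩ := Finset.mem_image.mp hb'
      obtain ⟨j, hj, hc'⟩ := Finset.mem_biUnion.mp hc
      obtain ⟨s, hsI, rfl⟩ := Finset.mem_image.mp hc'
      exact hdis0 i hi t ht j hj s hsI hbc h2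
    · have := card_Vext_le m l h Q a d L w Fr hs
      omega
    · intro b hb
      obtain ⟨i, hi, hb'⟩ := Finset.mem_biUnion.mp hb
      obtain ⟨t, ht, rfl⟩ := Finset.mem_image.mp hb'
      exact cover_Vext m l h Q n a d L w Fr hm6 hnm hs hQ hFr' i (hSmem i hi).1
        (a i + t * m * d i) (hsub i hi t ht) (Finset.mem_filter.mp ht).2
  refine ⟨?_, ?_⟩
  · calc 10 * ∑ i ∈ S, L i = ∑ i ∈ S, 10 * L i := by rw [Finset.mul_sum]
      _ ≤ ∑ i ∈ S, 21 * m * (I i).card := Finset.sum_le_sum hI
      _ = 21 * m * ∑ i ∈ S, (I i).card := by rw [Finset.mul_sum]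
      _ = 21 * m * Bl.card := by rw [hBcard]
      _ ≤ 21 * m * 80000 := by gcongr
  · calc S.card = ∑ i ∈ S, 1 := by simp
      _ ≤ ∑ i ∈ S, (I i).card := by
          refine Finset.sum_le_sum fun i hi => ?_
          have h1 := hI i hi
          have h2 := hs.Lm i (hSmem i hi).1
          by_contra hlt
          have h0 : (I i).card = 0 := by omega
          rw [h0] at h1
          omega
      _ = Bl.card := hBcard.symm
      _ ≤ 80000 := hBl

end Pool.Agent.Helper49.VW
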