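import Pool.Agent.Helper49.VW.Defs
import Pool.Agent.Helper38.VdW.Main

set_option autoImplicit false

/-! VW-9: from an invariant for Breaker to the game of the problem. -/

namespace Pool.Agent.Helper49.VW

open Finset

namespace Model

open Classical in
/-- Breaker's choice -/
noncomputable def pick (V : Finset ℕ) (Inv : Finset ℕ → Finset ℕ → Prop) (M B : Finset ℕ) : ℕ :=
  if h : ∃ y ∈ V, y ∉ M ∧ y ∉ B ∧ Inv M (insert y B) then h.choose
  else if h : ∃ y ∈ V, y ∉ M ∧ y ∉ B then h.choose else 0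

theorem pick_inv {V : Finset ℕ} {Inv : Finset ℕ → Finset ℕ → Prop} {M B : Finset ℕ}
    (h : ∃ y ∈ V, y ∉ M ∧ y ∉ B ∧ Inv M (insert y B)) : Inv M (insert (pick V Inv M B) B) := by
  unfold pick
  rw [dif_pos h]
  exact h.choose_spec.2.2.2

theorem pick_mem {V : Finset ℕ} {Inv : Finset ℕ → Finset ℕ → Prop} {M B : Finset ℕ}
    (h : ∃ y ∈ V, y ∉ M ∧ y ∉ B) :
    pick V Inv M B ∈ V ∧ pick V Inv M B ∉ M ∧ pick V Inv M B ∉ B := by
  unfold pick
  by_cases h' : ∃ y ∈ V, y ∉ M ∧ y ∉ B ∧ Inv M (insert y B)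
  · rw [dif_pos h']
    exact ⟨h'.choose_spec.1, h'.choose_spec.2.1, h'.choose_spec.2.2.1⟩
  · rw [dif_neg h', dif_pos h]
    exact ⟨h.choose_spec.1, h.choose_spec.2.1, h.choose_spec.2.2⟩

/-- the history -/
structure Hist where
  l : List ℕ
  M : Finset ℕ
  B : Finset ℕ

/-- the next move -/
noncomputable def mv (V : Finset ℕ) (Inv : Finset ℕ → Finset ℕ → Prop) (σ : List ℕ → ℕ) (k : ℕ)
    (s : Hist) : ℕ := if k % 2 = 0 then σ s.l else pick V Inv s.M s.B

/-- the states -/
noncomputable def hist (V : Finset ℕ) (Inv : Finset ℕ → Finset ℕ → Prop) (σ : List ℕ → ℕ) :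
    ℕ → Hist
  | 0 => ⟨[], ∅, ∅⟩
  | k + 1 => ⟨(hist V Inv σ k).l ++ [mv V Inv σ k (hist V Inv σ k)],
      if k % 2 = 0 then insert (mv V Inv σ k (hist V Inv σ k)) (hist V Inv σ k).M
        else (hist V Inv σ k).M,
      if k % 2 = 0 then (hist V Inv σ k).B
        else insert (mv V Inv σ k (hist V Inv σ k)) (hist V Inv σ k).B⟩

variable (V : Finset ℕ) (Inv : Finset ℕ → Finset ℕ → Prop) (σ : List ℕ → ℕ)

/-- the sequence of moves -/
noncomputable def mov (k : ℕ) : ℕ := mv V Inv σ k (hist V Inv σ k)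

theorem hist_l (k : ℕ) :
    (hist V Inv σ k).l = List.ofFn (fun i : Fin k => mov V Inv σ i.val) := by
  induction k with
  | zero => simp [hist]
  | succ k ih =>
    rw [List.ofFn_succ', List.concat_eq_append]
    simp only [hist, ih]
    rfl

theorem mem_M (k : ℕ) (x : ℕ) :
    x ∈ (hist V Inv σ k).M ↔ ∃ i < k, i % 2 = 0 ∧ mov V Inv σ i = x := by
  induction k with
  | zero => simp [hist]
  | succ k ih =>
    simp only [hist]
    split_ifs with hk
    · rw [Finset.mem_insert, ih]
      constructor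
      · rintro (h | ⟨i, hi, h2, h3⟩)
        · exact ⟨k, by omega, hk, h.symm⟩
        · exact ⟨i, by omega, h2, h3⟩
      · rintro ⟨i, hi, h2, h3⟩
        rcases Nat.lt_succ_iff_lt_or_eq.1 hi with h4 | h4
        · exact Or.inr ⟨i, h4, h2, h3⟩
        · subst h4
          exact Or.inl h3.symm
    · rw [ih]
      constructor
      · rintro ⟨i, hi, h2, h3⟩
        exact ⟨i, by omega, h2, h3⟩
      · rintro ⟨i, hi, h2, h3⟩
        rcases Nat.lt_succ_iff_lt_or_eq.1 hi with h4 | h4
        · exact ⟨i, h4, h2, h3⟩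
        · subst h4
          exact absurd h2 hk

theorem mem_B (k : ℕ) (x : ℕ) :
    x ∈ (hist V Inv σ k).B ↔ ∃ i < k, ¬ i % 2 = 0 ∧ mov V Inv σ i = x := by
  induction k with
  | zero => simp [hist]
  | succ k ih =>
    simp only [hist]
    split_ifs with hk
    · rw [ih]
      constructor
      · rintro ⟨i, hi, h2, h3⟩
        exact ⟨i, by omega, h2, h3⟩
      · rintro ⟨i, hi, h2, h3⟩
        rcases Nat.lt_succ_iff_lt_or_eq.1 hi with h4 | h4
        · exact ⟨i, h4, h2, h3⟩
        · subst h4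
          exact absurd hk h2
    · rw [Finset.mem_insert, ih]
      constructor
      · rintro (h | ⟨i, hi, h2, h3⟩)
        · exact ⟨k, by omega, hk, h.symm⟩
        · exact ⟨i, by omega, h2, h3⟩
      · rintro ⟨i, hi, h2, h3⟩
        rcases Nat.lt_succ_iff_lt_or_eq.1 hi with h4 | h4
        · exact Or.inr ⟨i, h4, h2, h3⟩
        · subst h4
          exact Or.inl h3.symm

theorem mem_MB (k : ℕ) (x : ℕ) :
    x ∈ (hist V Inv σ k).M ∪ (hist V Inv σ k).B ↔ ∃ i < k, mov V Inv σ i = x := by
  rw [Finset.mem_union, mem_M, mem_B]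
  constructor
  · rintro (⟨i, hi, _, h⟩ | ⟨i, hi, _, h⟩)
    · exact ⟨i, hi, h⟩
    · exact ⟨i, hi, h⟩
  · rintro ⟨i, hi, h⟩
    by_cases h2 : i % 2 = 0
    · exact Or.inl ⟨i, hi, h2, h⟩
    · exact Or.inr ⟨i, hi, h2, h⟩

theorem card_MB (k : ℕ) : ((hist V Inv σ k).M ∪ (hist V Inv σ k).B).card ≤ k := by
  have h : (hist V Inv σ k).M ∪ (hist V Inv σ k).B ⊆ (Finset.range k).image (mov V Inv σ) := by
    intro x hx
    rw [mem_MB] at hx
    obtain ⟨i, hi, h⟩ := hx
    exact Finset.mem_image.2 ⟨i, Finset.mem_range.2 hi, h⟩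
  exact (Finset.card_le_card h).trans (Finset.card_image_le.trans (by simp))

theorem exists_free {N k : ℕ} (hk : k < N) :
    ∃ y ∈ Finset.Icc 1 N, y ∉ (hist V Inv σ k).M ∧ y ∉ (hist V Inv σ k).B := by
  by_contra hcon
  push Not at hcon
  have hsub : Finset.Icc 1 N ⊆ (hist V Inv σ k).M ∪ (hist V Inv σ k).B := by
    intro y hy
    rw [Finset.mem_union]
    by_cases h1 : y ∈ (hist V Inv σ k).M
    · exact Or.inl h1
    · exact Or.inr (hcon y hy h1)
  have h1 := Finset.card_le_card hsub
  have h2 := card_MB V Inv σ k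
  simp only [Nat.card_Icc, Nat.add_sub_cancel] at h1
  omega

end Model

open Pool.Agent.Helper38.VdW in
/-- If Breaker has an invariant against `n`-term progressions on `{1, .., N}` then the first player
does not win.  Given Maker's strategy `σ` define the history recursively: `hist 0 = []`,
`hist (k+1) = hist k ++ [c]` with `c = σ (hist k)` for even `k`, and for odd `k` the point `y` supplied by
`step` (when the invariant holds before Maker's last, legal, move), otherwise any element of
`{1, .., N}` not in `hist k` (there is one for `k < N`).  Put `m k = (hist (k+1)).getD k 0`; then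
`List.ofFn (fun i : Fin k => m i) = hist k`. -/
theorem not_firstPlayerWins (N n : ℕ) (hn : 1 ≤ n) (Inv : Finset ℕ → Finset ℕ → Prop)
    (h : BInv (Finset.Icc 1 N) (fun M => ∃ a d : ℕ, 0 < d ∧ ∀ i < n, a + i * d ∈ M) Inv) :
    ¬ FirstPlayerWins N n := by
  rintro ⟨σ, hσ⟩
  set V := Finset.Icc 1 N with hV
  set m := Model.mov V Inv σ with hm
  have heven : ∀ k < N, Even k → m k = σ (List.ofFn (fun i : Fin k => m i.val)) := by
    intro k _ hk
    have h1 : k % 2 = 0 := Nat.even_iff.1 hk
    have h2 := Model.hist_l V Inv σ k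
    rw [hm, ← h2]
    unfold Model.mov Model.mv
    rw [if_pos h1]
  have hodd : ∀ k < N, Odd k → m k ∈ Finset.Icc 1 N ∧ ∀ i < k, m i ≠ m k := by
    intro k hkN hk
    have h1 : ¬ k % 2 = 0 := by
      rw [Nat.odd_iff] at hk
      omega
    have h2 : m k = Model.pick V Inv (Model.hist V Inv σ k).M (Model.hist V Inv σ k).B := by
      rw [hm]
      unfold Model.mov Model.mv
      rw [if_neg h1]
    have h3 := Model.exists_free V Inv σ hkN
    have h4 := Model.pick_mem (Inv := Inv) h3
    rw [← hV, ← h2] at h4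
    refine ⟨h4.1, fun i hi h5 => ?_⟩
    have h6 : m k ∈ (Model.hist V Inv σ k).M ∪ (Model.hist V Inv σ k).B := by
      rw [Model.mem_MB]
      exact ⟨i, hi, h5⟩
    rw [Finset.mem_union] at h6
    rcases h6 with h6 | h6
    · exact h4.2.1 h6
    · exact h4.2.2 h6
  obtain ⟨hleg, a, d, hd, hap⟩ := hσ m heven hodd
  -- the invariant
  have hmov : ∀ k < N, k % 2 = 0 → m k ∈ V ∧ m k ∉ (Model.hist V Inv σ k).M ∧
      m k ∉ (Model.hist V Inv σ k).B := by
    intro k hk h2
    obtain ⟨h3, h4⟩ := hleg k hk (Nat.even_iff.2 h2)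
    have h5 : m k ∉ (Model.hist V Inv σ k).M ∪ (Model.hist V Inv σ k).B := by
      rw [Model.mem_MB]
      rintro ⟨i, hi, h6⟩
      exact h4 i hi h6
    rw [Finset.mem_union, not_or] at h5
    exact ⟨h3, h5.1, h5.2⟩
  have hInv : ∀ j, 2 * j ≤ N →
      Inv (Model.hist V Inv σ (2 * j)).M (Model.hist V Inv σ (2 * j)).B := by
    intro j
    induction j with
    | zero => intro _; exact h.start
    | succ j ih =>
      intro hj
      have h0 := ih (by omega)
      have h1 := hmov (2 * j) (by omega) (by omega)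
      have hodd' : ¬ (2 * j + 1) % 2 = 0 := by omega
      have hev' : (2 * j) % 2 = 0 := by omega
      have hM1 : (Model.hist V Inv σ (2 * j + 1)).M =
          insert (m (2 * j)) (Model.hist V Inv σ (2 * j)).M := by
        simp only [Model.hist, if_pos hev']
        rfl
      have hB1 : (Model.hist V Inv σ (2 * j + 1)).B = (Model.hist V Inv σ (2 * j)).B := by
        simp only [Model.hist, if_pos hev']
      have hM2 : (Model.hist V Inv σ (2 * j + 1 + 1)).M =
          (Model.hist V Inv σ (2 * j + 1)).M := by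
        rw [Model.hist]
        simp only [if_neg hodd']
      have hB2 : (Model.hist V Inv σ (2 * j + 1 + 1)).B =
          insert (m (2 * j + 1)) (Model.hist V Inv σ (2 * j + 1)).B := by
        rw [Model.hist]
        simp only [if_neg hodd']
        rfl
      have hfree := Model.exists_free V Inv σ (k := 2 * j + 1) (N := N) (by omega)
      rw [hM1, hB1] at hfree
      obtain ⟨y, hy1, hy2, hy3, hy4⟩ := h.step _ _ _ h0 h1.1 h1.2.1 h1.2.2 hfree
      have hpick := Model.pick_inv (V := V) (Inv := Inv) ⟨y, hy1, hy2, hy3, hy4⟩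
      have hmk : m (2 * j + 1) = Model.pick V Inv (insert (m (2 * j)) (Model.hist V Inv σ (2 * j)).M)
          (Model.hist V Inv σ (2 * j)).B := by
        rw [← hM1, ← hB1, hm]
        unfold Model.mov Model.mv
        rw [if_neg hodd']
      rw [← hmk] at hpick
      have e : 2 * (j + 1) = 2 * j + 1 + 1 := by ring
      rw [e, hM2, hB2, hM1, hB1]
      exact hpick
  -- the end
  have hN : 0 < N := by
    obtain ⟨k, hk, _⟩ := hap 0 (by omega)
    omega
  set j := (N - 1) / 2 with hj
  have hj1 : 2 * j < N := by omega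
  have h1 := hmov (2 * j) hj1 (by omega)
  have h2 := hInv j (by omega)
  refine h.good _ _ _ h2 h1.1 h1.2.1 h1.2.2 ⟨a, d, hd, fun i hi => ?_⟩
  obtain ⟨k, hk, hke, hkv⟩ := hap i hi
  rw [Nat.even_iff] at hke
  rw [← hkv, Finset.mem_insert]
  rcases Nat.lt_or_ge k (2 * j) with h3 | h3
  · right
    rw [Model.mem_M]
    exact ⟨k, h3, hke, rfl⟩
  · left
    have : k = 2 * j := by omega
    rw [this]

end Pool.Agent.Helper49.VW
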