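import Pool.Agent.Helper49.VW.Defs

set_option autoImplicit false

/-! VW-10: windows. -/

namespace Pool.Agent.Helper49.VW

open Finset

theorem card_win (m : ℕ) (a : ℕ × ℕ) (ha : 1 ≤ a.2) : (win m a).card = m := by
  unfold win
  rw [Finset.card_image_of_injective, Finset.card_range]
  intro i j hij
  have h : a.1 + i * a.2 = a.1 + j * a.2 := hij
  exact Nat.eq_of_mul_eq_mul_right (by omega) (Nat.add_left_cancel h)

theorem win_subset (N m l : ℕ) (a : ℕ × ℕ) (ha : a ∈ wins N m l) :
    win m a ⊆ Finset.Icc 1 N := by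
  unfold wins at ha
  rw [Finset.mem_filter, Finset.mem_product, Finset.mem_Icc, Finset.mem_Icc] at ha
  intro p hp
  unfold win at hp
  rw [Finset.mem_image] at hp
  obtain ⟨j, hj, rfl⟩ := hp
  rw [Finset.mem_range] at hj
  rw [Finset.mem_Icc]
  have h1 : j * a.2 ≤ (m - 1) * a.2 := Nat.mul_le_mul_right _ (by omega)
  omega

theorem card_wins_le (N m l : ℕ) : (wins N m l).card ≤ N ^ 2 := by
  unfold wins
  refine (Finset.card_filter_le _ _).trans ?_
  rw [Finset.card_product, Nat.card_Icc, Nat.add_sub_cancel, pow_two]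

/-- Every `(m + l)`-term progression in `{1, .., N}` contains a window: with `j = (a - 1) / d` shift the
start by `(l - j % l) % l < l` steps. -/
theorem exists_win (N m l : ℕ) (hm : 2 ≤ m) (hl : 1 ≤ l) (a d : ℕ) (hd : 0 < d) (M : Finset ℕ)
    (hM : M ⊆ Finset.Icc 1 N) (h : ∀ i < m + l, a + i * d ∈ M) :
    ∃ b ∈ wins N m l, win m b ⊆ M := by
  have hmem : ∀ i < m + l, 1 ≤ a + i * d ∧ a + i * d ≤ N := fun i hi =>
    Finset.mem_Icc.mp (hM (h i hi))
  obtain ⟨t, htl, htdvd⟩ : ∃ t < l, l ∣ (a - 1) / d + t := by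
    refine ⟨(l - (a - 1) / d % l) % l, Nat.mod_lt _ (by omega), ?_⟩
    have h1 : (a - 1) / d % l < l := Nat.mod_lt _ (by omega)
    rw [Nat.dvd_iff_mod_eq_zero, Nat.add_mod, Nat.mod_mod]
    by_cases h0 : (a - 1) / d % l = 0
    · rw [h0]
      simp
    · have h2 : (l - (a - 1) / d % l) % l = l - (a - 1) / d % l := Nat.mod_eq_of_lt (by omega)
      rw [h2]
      have h3 : (a - 1) / d % l + (l - (a - 1) / d % l) = l := by omega
      rw [h3, Nat.mod_self]
  have ha1 : 1 ≤ a := by
    have := (hmem 0 (by omega)).1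
    omega
  refine ⟨(a + t * d, d), ?_, ?_⟩
  · unfold wins
    rw [Finset.mem_filter, Finset.mem_product, Finset.mem_Icc, Finset.mem_Icc]
    have h1 := hmem t (by omega)
    have h2 := hmem 1 (by omega)
    have h3 := hmem (t + (m - 1)) (by omega)
    refine ⟨⟨h1, by omega, ?_⟩, ?_, ?_⟩
    · show d ≤ N
      omega
    · show a + t * d + (m - 1) * d ≤ N
      have h4 : a + (t + (m - 1)) * d = a + t * d + (m - 1) * d := by ring
      rw [← h4]
      exact h3.2
    · show l ∣ (a + t * d - 1) / d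
      have h4 : a + t * d - 1 = (a - 1) + t * d := by omega
      rw [h4, Nat.add_mul_div_right _ _ hd]
      exact htdvd
  · intro p hp
    unfold win at hp
    rw [Finset.mem_image] at hp
    obtain ⟨j, hj, rfl⟩ := hp
    rw [Finset.mem_range] at hj
    show a + t * d + j * d ∈ M
    have h4 : a + t * d + j * d = a + (t + j) * d := by ring
    rw [h4]
    exact h (t + j) (by omega)

end Pool.Agent.Helper49.VW
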