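import Pool.Agent.Helper49.VW.SegDefs

set_option autoImplicit false

/-! VW-21b: number of points of a family. -/

namespace Pool.Agent.Helper49.VW

open Finset

private theorem pre_card_eq (a d L : ℕ → ℕ) (h : ℕ) :
    (pre a d L h).card = ∑ i ∈ Finset.range h, (seg a d L i \ pre a d L i).card := by
  induction h with
  | zero => simp [pre]
  | succ k ih =>
    have h1 : pre a d L (k + 1) = pre a d L k ∪ (seg a d L k \ pre a d L k) := by
      unfold pre
      rw [Finset.range_add_one, Finset.biUnion_insert, Finset.union_sdiff_self_eq_union,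
        Finset.union_comm]
    rw [h1, Finset.card_union_of_disjoint Finset.disjoint_sdiff, ih, Finset.sum_range_succ]

private theorem seg_card (a d L : ℕ → ℕ) (i : ℕ) (hd : 1 ≤ d i) : (seg a d L i).card = L i := by
  unfold seg
  rw [Finset.card_image_of_injective, Finset.card_range]
  intro x y hxy
  have h : x * d i = y * d i := by
    have : a i + x * d i = a i + y * d i := hxy
    omega
  exact Nat.eq_of_mul_eq_mul_right (by omega) h

/-- VW-21b. `|⋃ F| = ∑ |seg i \ pre i|`, and a free segment has at least `L i - 1 = (m - 1) + (L i - m)`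
new points. -/
theorem card_upts_ge (m l h Q : ℕ) (hm : 1 ≤ m) (a d L w : ℕ → ℕ) (Fr : Finset ℕ)
    (hs : SegData m l h Q a d L w Fr) :
    Fr.card * (m - 1) + vext m h a d L Fr ≤ (pre a d L h).card := by
  rw [pre_card_eq, ← Finset.sum_sdiff hs.Frh, vext, ← add_assoc, add_comm]
  refine Nat.add_le_add_left ?_ _
  have h1 : Fr.card * (m - 1) + ∑ i ∈ Fr, (L i - m) = ∑ i ∈ Fr, ((m - 1) + (L i - m)) := by
    rw [Finset.sum_add_distrib, Finset.sum_const, smul_eq_mul]
  rw [h1]
  refine Finset.sum_le_sum fun i hi => ?_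
  have hih : i < h := Finset.mem_range.1 (hs.Frh hi)
  have h2 := Finset.card_sdiff_add_card_inter (seg a d L i) (pre a d L i)
  rw [seg_card a d L i (hs.d1 i hih)] at h2
  have h3 := hs.fr1 i hi
  have h4 := hs.Lm i hih
  omega

end Pool.Agent.Helper49.VW
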