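import Pool.Agent.Helper49.VW.CodeList

set_option autoImplicit false

/-! VW-20b: the code weight of a segment order. -/

namespace Pool.Agent.Helper49.VW

open Finset

private theorem flat_succ (k : ℕ) (hd : ℕ → ℕ × ℕ) (tl : ℕ → List (ℕ × ℕ)) :
    flat (k + 1) hd tl = flat k hd tl ++ (hd k :: tl k) := by
  unfold flat
  rw [List.range_succ, List.flatMap_append]
  simp

private theorem flat_ppre (k : ℕ) (hd : ℕ → ℕ × ℕ) (tl : ℕ → List (ℕ × ℕ)) :
    (flat k hd tl).toFinset = Ppre hd tl k := by
  induction k with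
  | zero => simp [flat, Ppre]
  | succ k ih =>
    rw [flat_succ, List.toFinset_append, ih]
    unfold Ppre
    rw [Finset.range_add_one, Finset.biUnion_insert, Finset.union_comm]

private theorem flat_upre (m k : ℕ) (W : Finset ℕ) (hd : ℕ → ℕ × ℕ) (tl : ℕ → List (ℕ × ℕ)) :
    W ∪ upts m (flat k hd tl).toFinset = Upre m W hd tl k := by
  rw [flat_ppre]
  unfold Upre Ppre upts
  rw [Finset.biUnion_biUnion]

open Classical in
private theorem code_flat_aux (J Q m : ℕ) (hQ : 1 ≤ Q) (X K0 : ℝ)
    (F : Finset (ℕ × ℕ)) (W : Finset ℕ)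
    (h : ℕ) (hd : ℕ → ℕ × ℕ) (tl : ℕ → List (ℕ × ℕ)) (hs : SegOrder m F W h hd tl) (k : ℕ)
    (hk : k ≤ h) :
    code J Q m X K0 W ∅ (flat k hd tl) = ∏ i ∈ Finset.range k,
      ((if Det J Q m (Upre m W hd tl i) (Ppre hd tl i) (hd i) then 1 / K0 else 1 / X) *
        (1 / K0) ^ (tl i).length) := by
  induction k with
  | zero => simp [flat, code]
  | succ k ih =>
    rw [flat_succ, code_append, ih (by omega), Finset.prod_range_succ]
    congr 1
    rw [flat_upre, Finset.empty_union, flat_ppre, code,
      code_tail J Q m hQ X K0 (hd k) (tl k) (hs.chain k (by omega)) _ _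
        Finset.subset_union_right (Finset.mem_insert_self _ _)]
    congr 1
    unfold stepw
    by_cases hD : Det J Q m (Upre m W hd tl k) (Ppre hd tl k) (hd k)
    · rw [if_pos hD, if_pos hD]
    · rw [if_neg hD, if_neg hD, if_pos]
      exact hs.head k (by omega)

/-- Product over the segments: a factor `1 / X` for every free segment, all other windows contribute
`1 / K0`. -/
theorem code_flat (J Q m : ℕ) (hQ : 1 ≤ Q) (X K0 : ℝ) (hX : 0 < X) (hK : 0 < K0)
    (F : Finset (ℕ × ℕ)) (W : Finset ℕ)
    (h : ℕ) (hd : ℕ → ℕ × ℕ) (tl : ℕ → List (ℕ × ℕ)) (hs : SegOrder m F W h hd tl) :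
    code J Q m X K0 W ∅ (flat h hd tl) =
      (1 / X) ^ (Free J Q m W h hd tl).card *
      (1 / K0) ^ (F.card - (Free J Q m W h hd tl).card) := by
  classical
  have _ := hX
  have _ := hK
  obtain ⟨-, hF⟩ := flat_length m F W h hd tl hs
  rw [code_flat_aux J Q m hQ X K0 F W h hd tl hs h le_rfl, Finset.prod_mul_distrib,
    Finset.prod_pow_eq_pow_sum, Finset.prod_ite, Finset.prod_const, Finset.prod_const]
  have hfree : (Finset.range h).filter
      (fun i => ¬ Det J Q m (Upre m W hd tl i) (Ppre hd tl i) (hd i)) = Free J Q m W h hd tl := by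
    unfold Free
    congr
  have hcard := Finset.card_filter_add_card_filter_not (s := Finset.range h)
    (fun i => Det J Q m (Upre m W hd tl i) (Ppre hd tl i) (hd i))
  rw [hfree, Finset.card_range] at hcard
  rw [hfree]
  have hsum : ∑ i ∈ Finset.range h, ((tl i).length + 1) =
      (∑ i ∈ Finset.range h, (tl i).length) + h := by
    rw [Finset.sum_add_distrib, Finset.sum_const, Finset.card_range, smul_eq_mul, mul_one]
  have he : F.card - (Free J Q m W h hd tl).card =
      ((Finset.range h).filter
        (fun i => Det J Q m (Upre m W hd tl i) (Ppre hd tl i) (hd i))).card +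
      ∑ i ∈ Finset.range h, (tl i).length := by
    rw [hF, hsum]
    omega
  rw [he, pow_add]
  ring

end Pool.Agent.Helper49.VW
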