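import Mathlib

set_option autoImplicit false

/-! VW-22a: exponents. -/

namespace Pool.Agent.Helper49.VW

open Finset

/-- VW-22a. The numerical part.  With `f = |F|`, `g = |Fr|`, `v = vext`, `U = |⋃ F|`: the exponent
of the left side is at most `β f - g (m - 1) - v`, the right side is `2 ^ e` with
`e = -3 n - g (m - 1 - 480 lam) - 9 lam (f - g)`, and `β f + 9 lam f ≤ 12 lam f ≤ 24 lam T ≤ n`. -/
theorem code_numeric (n m lam T f g v U : ℕ) (hlam : 1 ≤ lam) (hT : 24 * lam * T ≤ n)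
    (hm : 480 * lam + 1 ≤ m) (hf : f ≤ 2 * T) (hg : g ≤ f) (hU : g * (m - 1) + v ≤ U)
    (hv : 4 * n ≤ v + 480 * lam * g) :
    (2 : ℝ) ^ ((((lam + 2) * f : ℕ) : ℤ) - (U : ℤ)) ≤
      (1 / 2 : ℝ) ^ (3 * n) * ((1 / (2 : ℝ) ^ (m - 1 - 480 * lam)) ^ g *
        (1 / (2 : ℝ) ^ (9 * lam)) ^ (f - g)) := by
  have hR : (1 / 2 : ℝ) ^ (3 * n) * ((1 / (2 : ℝ) ^ (m - 1 - 480 * lam)) ^ g *
        (1 / (2 : ℝ) ^ (9 * lam)) ^ (f - g)) =
      (2 : ℝ) ^ (-((3 * n + (m - 1 - 480 * lam) * g + 9 * lam * (f - g) : ℕ) : ℤ)) := by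
    rw [zpow_neg, zpow_natCast]
    rw [one_div_pow, one_div_pow, one_div_pow, ← pow_mul, ← pow_mul, ← one_div, pow_add, pow_add]
    field_simp
  rw [hR]
  apply zpow_le_zpow_right₀ (by norm_num)
  have h1 : (m - 1 - 480 * lam) * g + 480 * lam * g = g * (m - 1) := by
    rw [← add_mul, Nat.sub_add_cancel (by omega), mul_comm]
  have h2 : lam * f ≤ lam * (2 * T) := Nat.mul_le_mul_left _ hf
  have h3 : 24 * lam * T = 12 * (lam * (2 * T)) := by ring
  have h4 : (lam + 2) * f ≤ 3 * (lam * f) := by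
    have : 2 * f ≤ 2 * (lam * f) := Nat.mul_le_mul_left _ (Nat.le_mul_of_pos_left f (by omega))
    calc (lam + 2) * f = lam * f + 2 * f := by ring
      _ ≤ _ := by omega
  have h5 : 9 * lam * (f - g) ≤ 9 * (lam * f) := by
    rw [mul_assoc]
    exact Nat.mul_le_mul_left _ (Nat.mul_le_mul_left _ (Nat.sub_le _ _))
  push_cast
  have h4' : ((lam + 2) * f : ℤ) ≤ 3 * (lam * f : ℕ) := by exact_mod_cast h4
  have h5' : ((9 * lam * (f - g) : ℕ) : ℤ) ≤ 9 * (lam * f : ℕ) := by exact_mod_cast h5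
  have h6 : ((m - 1 - 480 * lam : ℕ) : ℤ) * g + 480 * lam * g = g * ((m - 1 : ℕ) : ℤ) := by
    exact_mod_cast h1
  have h7 : (g : ℤ) * ((m - 1 : ℕ) : ℤ) + v ≤ U := by exact_mod_cast hU
  have h8 : (4 * n : ℤ) ≤ v + 480 * lam * g := by exact_mod_cast hv
  have h9 : (12 : ℤ) * (lam * f : ℕ) ≤ n := by
    have : 12 * (lam * f) ≤ n := by omega
    exact_mod_cast this
  have h10 : ((9 * lam * (f - g) : ℕ) : ℤ) = 9 * lam * ((f - g : ℕ) : ℤ) := by push_cast; ring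
  rw [h10] at h5'
  linarith

end Pool.Agent.Helper49.VW
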