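import Pool.Agent.Helper49.VW.BadLen

set_option autoImplicit false

/-! VW-16b: the structure inequality. -/

namespace Pool.Agent.Helper49.VW

open Finset

/-- VW-16b. **Structure inequality.**  Sum of `12 lam w_i`: free segments `≤ 12 lam (|Fr| + vext / l)
≤ n / 10 + small`; segments with at least `480 lam w_i` new points: `≤ vext / 40 ≤ n / 10`; bad segments:
`≤ 12 lam (2.1 * 80000 m / l + 80000) ≤ n / 10`. -/
theorem seg_main (m l h n lam Q : ℕ) (a d L w : ℕ → ℕ) (Fr : Finset ℕ)
    (hs : SegData m l h Q a d L w Fr) (hn : n = m + l) (hl : l = 24000000 * lam)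
    (hlam : 1 ≤ lam) (hbig : 1000000000000 * lam ≤ n) (hQ : m ^ 2 ≤ Q)
    (hv : vext m h a d L Fr ≤ 4 * n) (hFr : 120 * lam * Fr.card ≤ n) :
    24 * lam * ∑ i ∈ Finset.range h, w i ≤ n := by
  classical
  obtain ⟨hb1, hb2⟩ := bad_len m l h n lam Q a d L w Fr hs hn hl hlam hbig hQ hv hFr
  set bad := badSeg h lam a d L w Fr with hbad
  set good := (Finset.range h \ Fr).filter
    (fun i => ¬ (seg a d L i \ pre a d L i).card < 480 * lam * w i) with hgood
  -- number of windows of a segment
  have hw : ∀ i < h, l * w i ≤ (L i - m) + l := by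
    intro i hi
    have h1 := hs.w1 i hi
    have h2 := hs.wl i hi
    obtain ⟨k, hk⟩ := Nat.exists_eq_add_of_le h1
    rw [hk] at h2 ⊢
    have e : 1 + k - 1 = k := by omega
    rw [e] at h2
    nlinarith
  have hsplit : ∑ i ∈ Finset.range h, w i =
      ∑ i ∈ Fr, w i + (∑ i ∈ bad, w i + ∑ i ∈ good, w i) := by
    rw [hbad, hgood, badSeg, Finset.sum_filter_add_sum_filter_not, add_comm,
      Finset.sum_sdiff hs.Frh]
  have hv1 : vext m h a d L Fr = ∑ i ∈ Fr, (L i - m) +
      (∑ i ∈ bad, (seg a d L i \ pre a d L i).card +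
        ∑ i ∈ good, (seg a d L i \ pre a d L i).card) := by
    rw [hbad, hgood, badSeg, Finset.sum_filter_add_sum_filter_not]
    rfl
  -- free
  have h1 : l * ∑ i ∈ Fr, w i ≤ ∑ i ∈ Fr, (L i - m) + l * Fr.card := by
    rw [Finset.mul_sum, mul_comm l Fr.card, ← smul_eq_mul (a := Fr.card), ← Finset.sum_const,
      ← Finset.sum_add_distrib]
    exact Finset.sum_le_sum fun i hi => hw i (Finset.mem_range.mp (hs.Frh hi))
  -- good
  have h2 : 480 * lam * ∑ i ∈ good, w i ≤ ∑ i ∈ good, (seg a d L i \ pre a d L i).card := by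
    rw [Finset.mul_sum]
    refine Finset.sum_le_sum fun i hi => ?_
    rw [hgood, Finset.mem_filter] at hi
    exact not_lt.mp hi.2
  -- bad
  have h3 : l * ∑ i ∈ bad, w i ≤ ∑ i ∈ bad, L i + l * bad.card := by
    rw [Finset.mul_sum, mul_comm l bad.card, ← smul_eq_mul (a := bad.card), ← Finset.sum_const,
      ← Finset.sum_add_distrib]
    refine Finset.sum_le_sum fun i hi => ?_
    have hi' : i < h := by
      rw [hbad, badSeg, Finset.mem_filter, Finset.mem_sdiff, Finset.mem_range] at hi
      exact hi.1.1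
    have := hw i hi'
    omega
  have h4 : l * bad.card ≤ l * 80000 := Nat.mul_le_mul_left _ hb2
  rw [hsplit]
  set F := ∑ i ∈ Fr, w i
  set G := ∑ i ∈ good, w i
  set B := ∑ i ∈ bad, w i
  set LB := ∑ i ∈ bad, L i
  rw [hv1] at hv
  subst hl
  have e1 : 24000000 * lam * F = 24000000 * (lam * F) := by ring
  have e2 : 480 * lam * G = 480 * (lam * G) := by ring
  have e3 : 24000000 * lam * B = 24000000 * (lam * B) := by ring
  have e4 : 24000000 * lam * Fr.card = 24000000 * (lam * Fr.card) := by ring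
  have e5 : 120 * lam * Fr.card = 120 * (lam * Fr.card) := by ring
  have e6 : 24 * lam * (F + (B + G)) = 24 * (lam * F) + 24 * (lam * B) + 24 * (lam * G) := by ring
  rw [e1, e4] at h1
  rw [e2] at h2
  rw [e3] at h3
  rw [e5] at hFr
  rw [e6]
  omega

end Pool.Agent.Helper49.VW
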