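import Pool.Agent.Helper49.VW.SegGeom

set_option autoImplicit false

/-! VW-21a: a segment order gives segment data. -/

namespace Pool.Agent.Helper49.VW

open Finset

/-- VW-21a. Apply `seg_geom` to every segment.  `disj`: a common point of two segments with equal
differences lies in two windows which are then `Adj`.  `fr1`: two different points of
`seg i ∩ pre i` would lie on the line of `hd i` at distance at most `L i ≤ J`, so `hd i` would be
determined.  `frc`: `hd i` meets `Upre i` (`head`), so `Comm Q (d i) (d j)` with `hd j ∈ Ppre i` would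
make `hd i` determined. -/
theorem exists_segData (N m l J Q : ℕ) (hm : 1 ≤ m) (hl : 1 ≤ l) (F : Finset (ℕ × ℕ))
    (hF : F ⊆ wins N m l) (W : Finset ℕ) (h : ℕ) (hd : ℕ → ℕ × ℕ) (tl : ℕ → List (ℕ × ℕ))
    (hs : SegOrder m F W h hd tl) (hJ : F.card * m ≤ J) :
    ∃ a d L : ℕ → ℕ,
      SegData m l h Q a d L (fun i => (tl i).length + 1) (Free J Q m W h hd tl) ∧
      ∀ i < h, seg a d L i = upts m (hd i :: tl i).toFinset := by
  classical
  have hsubF : ∀ i < h, (hd i :: tl i).toFinset ⊆ F := by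
    intro i hi
    rw [hs.cover]
    exact Finset.subset_biUnion_of_mem (fun i => (hd i :: tl i).toFinset) (Finset.mem_range.2 hi)
  have hwin : ∀ i < h, ∀ u ∈ hd i :: tl i, u ∈ wins N m l := by
    intro i hi u hu
    exact hF (hsubF i hi (List.mem_toFinset.2 hu))
  have hd1 : ∀ i < h, 1 ≤ (hd i).2 := by
    intro i hi
    have := hwin i hi (hd i) (by simp)
    rw [wins, Finset.mem_filter, Finset.mem_product, Finset.mem_Icc, Finset.mem_Icc] at this
    exact this.1.2.1
  have key : ∀ i, i < h → ∃ a Lr : ℕ, m ≤ Lr ∧ (∀ u ∈ hd i :: tl i, u.2 = (hd i).2) ∧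
      upts m (hd i :: tl i).toFinset = (Finset.range Lr).image (fun j => a + j * (hd i).2) ∧
      (tl i).length * l ≤ Lr - m ∧
      (∀ p ∈ upts m (hd i :: tl i).toFinset, ∃ z : ℤ, |z| ≤ Lr ∧ (p : ℤ) = (hd i).1 + z * (hd i).2) :=
    fun i hi => seg_geom N m l hm hl (hd i) (tl i) (hwin i hi) (hs.nodup i hi) (hs.chain i hi)
  choose! a L hL using key
  have hseg : ∀ i < h, seg a (fun i => (hd i).2) L i = upts m (hd i :: tl i).toFinset := by
    intro i hi
    rw [(hL i hi).2.2.1, seg]
  have hLJ : ∀ i < h, L i ≤ J := by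
    intro i hi
    have e1 : (seg a (fun i => (hd i).2) L i).card = L i := by
      rw [seg, Finset.card_image_of_injective, Finset.card_range]
      intro x y hxy
      have hpos := hd1 i hi
      simp only at hxy
      exact Nat.eq_of_mul_eq_mul_right hpos (by omega)
    rw [← e1, hseg i hi]
    have e2 : (upts m (hd i :: tl i).toFinset).card ≤ (hd i :: tl i).toFinset.card * m := by
      refine Finset.card_biUnion_le_card_mul _ _ _ ?_
      intro u _
      rw [win]
      exact Finset.card_image_le.trans (by rw [Finset.card_range])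
    calc (upts m (hd i :: tl i).toFinset).card ≤ (hd i :: tl i).toFinset.card * m := e2
      _ ≤ F.card * m := Nat.mul_le_mul_right m (Finset.card_le_card (hsubF i hi))
      _ ≤ J := hJ
  refine ⟨a, fun i => (hd i).2, L, ⟨hd1, fun i hi => (hL i hi).1, fun i _ => Nat.le_add_left 1 _,
    ?_, ?_, ?_, ?_, ?_⟩, hseg⟩
  · intro i hi
    rw [Nat.add_sub_cancel]
    exact (hL i hi).2.2.2.1
  · intro i hi j hj hij hdij
    rw [hseg i hi, hseg j hj, Finset.disjoint_left]
    intro p hp hp'
    rw [upts, Finset.mem_biUnion] at hp hp'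
    obtain ⟨u, hu, hpu⟩ := hp
    obtain ⟨v, hv, hpv⟩ := hp'
    rw [List.mem_toFinset] at hu hv
    have h1 := (hL i hi).2.1 u hu
    have h2 := (hL j hj).2.1 v hv
    refine (hs.disj i hi j hj hij u hu v hv).2 ⟨?_, p, Finset.mem_inter.2 ⟨hpu, hpv⟩⟩
    rw [h1, h2]
    exact hdij
  · exact Finset.filter_subset _ _
  · intro i hi
    rw [Free, Finset.mem_filter, Finset.mem_range] at hi
    obtain ⟨hih, hdet⟩ := hi
    by_contra hcon
    rw [not_le, Finset.one_lt_card] at hcon
    obtain ⟨p, hp, p', hp', hne⟩ := hcon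
    rw [Finset.mem_inter] at hp hp'
    have hU : ∀ q ∈ pre a (fun i => (hd i).2) L i, q ∈ Upre m W hd tl i := by
      intro q hq
      rw [pre, Finset.mem_biUnion] at hq
      obtain ⟨j, hj, hqj⟩ := hq
      have hj' := Finset.mem_range.1 hj
      rw [hseg j (by omega)] at hqj
      rw [Upre, Finset.mem_union]
      right
      exact Finset.mem_biUnion.2 ⟨j, hj, hqj⟩
    rw [hseg i hih] at hp hp'
    obtain ⟨z, hz, hpz⟩ := (hL i hih).2.2.2.2 p hp.1
    obtain ⟨z', hz', hpz'⟩ := (hL i hih).2.2.2.2 p' hp'.1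
    have hLi : (L i : ℤ) ≤ J := by exact_mod_cast hLJ i hih
    exact hdet (Or.inl ⟨p, hU p hp.2, p', hU p' hp'.2, hne, z, z', hz.trans hLi, hz'.trans hLi,
      hpz, hpz'⟩)
  · intro i hi j hj hcomm
    rw [Free, Finset.mem_filter, Finset.mem_range] at hi
    obtain ⟨hih, hdet⟩ := hi
    refine hdet (Or.inr ⟨hs.head i hih, hd j, ?_, hcomm⟩)
    rw [Ppre, Finset.mem_biUnion]
    exact ⟨j, Finset.mem_range.2 hj, by simp⟩

end Pool.Agent.Helper49.VW
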