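import Pool.Agent.Helper49.VW.Order
import Pool.Agent.Helper49.VW.CodeEval
import Pool.Agent.Helper49.VW.ToSegData
import Pool.Agent.Helper49.VW.CardUpts
import Pool.Agent.Helper49.VW.SegMain
import Pool.Agent.Helper49.VW.CodeNumeric

set_option autoImplicit false

/-! VW-22b: every linked family of the right size has a good code. -/

namespace Pool.Agent.Helper49.VW

open Finset

/-- VW-22b. `exists_segOrder`, `exists_segData` (with `J = n ^ 2 ≥ |F| m`), `code_flat`,
`flat_toFinset`, `flat_length`, `card_upts_ge` (with `upts m F = pre a d L h`, from `cover` and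
`seg i = upts`).  If `vext + 480 lam |Fr| < 4 n` then `seg_main` gives `24 lam |F| ≤ n`, so `|F| ≤ T`, a
contradiction; otherwise `code_numeric`. -/
theorem exists_code (N n m l lam T : ℕ) (hn : n = m + l) (hl : l = 24000000 * lam)
    (hlam : 1 ≤ lam) (hbig : 1000000000000 * lam ≤ n) (hT : T = n / (24 * lam))
    (F : Finset (ℕ × ℕ)) (hF : F ⊆ wins N m l) (L : ℕ × ℕ)
    (hlink : Linked (win m) F L) (h1 : T < F.card) (h2 : F.card ≤ 2 * T) :
    ∃ lst : List (ℕ × ℕ), lst.length ≤ 2 * T ∧ lst.toFinset = F ∧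
      (2 : ℝ) ^ ((((lam + 2) * F.card : ℕ) : ℤ) - ((F.biUnion (win m)).card : ℤ)) ≤
        (1 / 2 : ℝ) ^ (3 * n) *
          code (n ^ 2) (n ^ 2) m ((2 : ℝ) ^ (m - 1 - 480 * lam)) ((2 : ℝ) ^ (9 * lam))
            (win m L) ∅ lst := by
  have hm1 : 480 * lam + 1 ≤ m := by omega
  have hm : 1 ≤ m := by omega
  have hl1 : 1 ≤ l := by omega
  have hmn : m ≤ n := by omega
  have h24 : 0 < 24 * lam := by omega
  have hT1 : 24 * lam * T ≤ n := by
    rw [hT]
    exact Nat.mul_div_le n (24 * lam)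
  have hT2 : n < 24 * lam * (T + 1) := by
    rw [hT]
    exact Nat.lt_mul_div_succ n h24
  have h2T : 2 * T ≤ n := by
    have h3 : 2 * T ≤ 24 * lam * T := Nat.mul_le_mul_right T (by omega)
    omega
  obtain ⟨h, hd, tl, hs⟩ := exists_segOrder m hm F L hlink
  have hJ : F.card * m ≤ n ^ 2 := by
    rw [pow_two]
    exact Nat.mul_le_mul (h2.trans h2T) hmn
  obtain ⟨a, d, Ls, hdat, hseg⟩ :=
    exists_segData N m l (n ^ 2) (n ^ 2) hm hl1 F hF (win m L) h hd tl hs hJ
  obtain ⟨hlen, hsum⟩ := flat_length m F (win m L) h hd tl hs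
  have hn1 : 1 ≤ n := by omega
  have hcode := code_flat (n ^ 2) (n ^ 2) m (Nat.one_le_pow _ _ hn1)
    ((2 : ℝ) ^ (m - 1 - 480 * lam)) ((2 : ℝ) ^ (9 * lam)) (by positivity) (by positivity)
    F (win m L) h hd tl hs
  set Fr := Free (n ^ 2) (n ^ 2) m (win m L) h hd tl with hFr
  refine ⟨flat h hd tl, by omega, flat_toFinset m F (win m L) h hd tl hs, ?_⟩
  rw [hcode]
  have hpre : pre a d Ls h = F.biUnion (win m) := by
    have h3 : pre a d Ls h = (Finset.range h).biUnion
        (fun i => upts m (hd i :: tl i).toFinset) :=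
      Finset.biUnion_congr rfl fun i hi => hseg i (Finset.mem_range.1 hi)
    rw [h3]
    conv_rhs => rw [hs.cover]
    rw [Finset.biUnion_biUnion]
    rfl
  have hU := card_upts_ge m l h (n ^ 2) hm a d Ls _ Fr hdat
  rw [hpre] at hU
  have hgh : Fr.card ≤ h := by
    have := Finset.card_le_card hdat.Frh
    rwa [Finset.card_range] at this
  have hhF : h ≤ F.card := by
    rw [hsum]
    calc h = ∑ i ∈ Finset.range h, 1 := by simp
      _ ≤ ∑ i ∈ Finset.range h, ((tl i).length + 1) :=
        Finset.sum_le_sum fun i _ => by omega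
  rcases Nat.lt_or_ge (vext m h a d Ls Fr + 480 * lam * Fr.card) (4 * n) with hlt | hge
  · exfalso
    have h3 := seg_main m l h n lam (n ^ 2) a d Ls _ Fr hdat hn hl hlam hbig
      (Nat.pow_le_pow_left hmn 2) (by omega) (by
        have h4 : 480 * lam * Fr.card = 4 * (120 * lam * Fr.card) := by ring
        omega)
    rw [← hsum] at h3
    have h4 : 24 * lam * (T + 1) ≤ 24 * lam * F.card := Nat.mul_le_mul_left _ h1
    omega
  · exact code_numeric n m lam T F.card Fr.card (vext m h a d Ls Fr) _ hlam hT1 hm1 h2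
      (hgh.trans hhF) hU hge

end Pool.Agent.Helper49.VW
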