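import Mathlib

set_option autoImplicit false

/-! VW-23a, VW-23b: parameters. -/

namespace Pool.Agent.Helper49.VW

open Finset

/-- VW-23a. `u = n ^ 2`: `n ^ 2 (2 N) ≤ 2 ^ (m - 1 - 480 lam)` since `N 2 ^ (24000500 lam) ≤ 2 ^ n`,
`n ^ 2 ≤ 2 ^ (2 lam)` and `2 + 2 lam ≤ 20 lam`. -/
theorem numeric_X (N n m l lam : ℕ) (hn : n = m + l) (hl : l = 24000000 * lam)
    (hlam : 1 ≤ lam) (hbig : 1000000000000 * lam ≤ n) (hlam2 : n < 2 ^ lam)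
    (hN : N * 2 ^ (24000500 * lam) ≤ 2 ^ n) :
    (((n ^ 2) * (2 * N) : ℕ) : ℝ) ≤ (2 : ℝ) ^ (m - 1 - 480 * lam) := by
  have key : n ^ 2 * (2 * N) ≤ 2 ^ (m - 1 - 480 * lam) := by
    have h1 : n ^ 2 ≤ 2 ^ (2 * lam) := by
      calc n ^ 2 ≤ (2 ^ lam) ^ 2 := Nat.pow_le_pow_left hlam2.le 2
        _ = 2 ^ (2 * lam) := by rw [← pow_mul, mul_comm lam 2]
    have h2 : n ^ 2 * (2 * N) * 2 ^ (24000500 * lam) ≤
        2 ^ (m - 1 - 480 * lam) * 2 ^ (24000500 * lam) := by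
      calc n ^ 2 * (2 * N) * 2 ^ (24000500 * lam)
          = n ^ 2 * 2 * (N * 2 ^ (24000500 * lam)) := by ring
        _ ≤ 2 ^ (2 * lam) * 2 * 2 ^ n := by gcongr
        _ = 2 ^ (2 * lam + 1 + n) := by rw [pow_add, pow_add, pow_one]
        _ ≤ 2 ^ (m - 1 - 480 * lam + 24000500 * lam) :=
            Nat.pow_le_pow_right (by norm_num) (by omega)
        _ = 2 ^ (m - 1 - 480 * lam) * 2 ^ (24000500 * lam) := by rw [pow_add]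
    exact Nat.le_of_mul_le_mul_right h2 (by positivity)
  exact_mod_cast key

/-- VW-23b. `(n^2 (2 n^2 + 1))^2 + t n^4 n^2 m ≤ 10 n^8 ≤ n^9 ≤ 2 ^ (9 lam)` for `t ≤ n`. -/
theorem numeric_K (n m t lam : ℕ) (hm : m ≤ n) (ht : t ≤ n) (h10 : 10 ≤ n) (hlam2 : n < 2 ^ lam) :
    ((((n ^ 2) * (2 * n ^ 2 + 1)) ^ 2 + t * (n ^ 2) ^ 2 * ((n ^ 2) * m) : ℕ) : ℝ) ≤
      (2 : ℝ) ^ (9 * lam) := by
  have key : ((n ^ 2) * (2 * n ^ 2 + 1)) ^ 2 + t * (n ^ 2) ^ 2 * ((n ^ 2) * m) ≤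
      2 ^ (9 * lam) := by
    have h1 : 2 * n ^ 2 + 1 ≤ 3 * n ^ 2 := by nlinarith
    calc ((n ^ 2) * (2 * n ^ 2 + 1)) ^ 2 + t * (n ^ 2) ^ 2 * ((n ^ 2) * m)
        ≤ ((n ^ 2) * (3 * n ^ 2)) ^ 2 + n * (n ^ 2) ^ 2 * ((n ^ 2) * n) := by gcongr
      _ = 10 * n ^ 8 := by ring
      _ ≤ n * n ^ 8 := by gcongr
      _ = n ^ 9 := by ring
      _ ≤ (2 ^ lam) ^ 9 := Nat.pow_le_pow_left hlam2.le 9
      _ = 2 ^ (9 * lam) := by rw [← pow_mul, mul_comm lam 9]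
  exact_mod_cast key

end Pool.Agent.Helper49.VW
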