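import Pool.Agent.Helper49.VW.CodeSumFam
import Pool.Agent.Helper49.VW.ExistsCode
import Pool.Agent.Helper49.VW.SumNumeric
import Pool.Agent.Helper49.VW.Cover

set_option autoImplicit false

/-! VW-23c: the sum over all families. -/

namespace Pool.Agent.Helper49.VW

open Finset

/-- VW-23c. `sum_le_of_codes` with `J = Q = u = n ^ 2`, `t = r = 2 T`, `c = (1/2) ^ (3 n)`, and
`card_wins_le`. -/
theorem sum_bound (N n m l lam T : ℕ) (hn : n = m + l) (hl : l = 24000000 * lam)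
    (hlam : 1 ≤ lam) (hbig : 1000000000000 * lam ≤ n) (hlam2 : n < 2 ^ lam)
    (hT : T = n / (24 * lam)) (hN : N * 2 ^ (24000500 * lam) ≤ 2 ^ n)
    (S : Finset (Finset (ℕ × ℕ)))
    (hS : ∀ F ∈ S, F ⊆ wins N m l ∧ T < F.card ∧ F.card ≤ 2 * T ∧
      ∃ L ∈ wins N m l, Linked (win m) F L) :
    2 * ∑ F ∈ S, (2 : ℝ) ^ ((((lam + 2) * F.card : ℕ) : ℤ) - ((F.biUnion (win m)).card : ℤ)) < 1 := by
  have hTn : 24 * T ≤ n := by
    have h1 : T * (24 * lam) ≤ n := by rw [hT]; exact Nat.div_mul_le_self _ _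
    have h2 : T * 24 ≤ T * (24 * lam) := Nat.mul_le_mul_left _ (by omega)
    omega
  have hm2 : 2 ≤ m := by omega
  have hX0 : (0 : ℝ) < (2 : ℝ) ^ (m - 1 - 480 * lam) := by positivity
  have hK0 : (0 : ℝ) < (2 : ℝ) ^ (9 * lam) := by positivity
  have hXu := numeric_X N n m l lam hn hl hlam hbig hlam2 hN
  have hKu := numeric_K n m (2 * T) lam (by omega) (by omega) (by omega) hlam2
  have hu : m + 2 * T * m ≤ n ^ 2 := by
    have h1 : m + 2 * T * m = (1 + 2 * T) * m := by ring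
    rw [h1, sq]
    exact Nat.mul_le_mul (by omega) (by omega)
  have key := sum_le_of_codes N m l (n ^ 2) (n ^ 2) (n ^ 2) (2 * T) (2 * T)
    ((2 : ℝ) ^ (m - 1 - 480 * lam)) ((2 : ℝ) ^ (9 * lam)) hm2 hX0 hK0 hXu hKu hu le_rfl S
    (fun F hF => (hS F hF).1)
    (fun F => (2 : ℝ) ^ ((((lam + 2) * F.card : ℕ) : ℤ) - ((F.biUnion (win m)).card : ℤ)))
    ((1 / 2 : ℝ) ^ (3 * n)) (by positivity)
    (fun F hF => by
      obtain ⟨h1, h2, h3, L, hL, hlink⟩ := hS F hF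
      obtain ⟨lst, e1, e2, e3⟩ := exists_code N n m l lam T hn hl hlam hbig hT F h1 L hlink h2 h3
      exact ⟨L, hL, lst, e1, e2, e3⟩)
  have hNn : (N : ℝ) ≤ (2 : ℝ) ^ n := by
    have h1 : N ≤ 2 ^ n := (Nat.le_mul_of_pos_right N (by positivity)).trans hN
    exact_mod_cast h1
  have hcard : ((wins N m l).card : ℝ) ≤ (2 : ℝ) ^ (2 * n) := by
    have h1 : ((wins N m l).card : ℝ) ≤ (N : ℝ) ^ 2 := by exact_mod_cast card_wins_le N m l
    refine h1.trans ?_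
    rw [mul_comm 2 n, pow_mul]
    exact pow_le_pow_left₀ (Nat.cast_nonneg _) hNn 2
  have h3 : (1 / 2 : ℝ) ^ (3 * n) * ((wins N m l).card : ℝ) * 2 ^ (2 * T + 1) ≤
      (1 / 2 : ℝ) ^ (3 * n) * (2 : ℝ) ^ (2 * n) * 2 ^ (2 * T + 1) := by
    refine mul_le_mul_of_nonneg_right (mul_le_mul_of_nonneg_left hcard (by positivity))
      (by positivity)
  have h4 : 2 * ((1 / 2 : ℝ) ^ (3 * n) * (2 : ℝ) ^ (2 * n) * 2 ^ (2 * T + 1)) < 1 := by
    have e : (2 : ℝ) ^ (3 * n) = (2 : ℝ) ^ (2 * n) * (2 : ℝ) ^ n := by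
      rw [← pow_add]; congr 1; ring
    have e2 : (2 : ℝ) ^ (2 * T + 2) = 2 * (2 : ℝ) ^ (2 * T + 1) := by
      rw [pow_succ]; ring
    have h5 : (2 : ℝ) ^ (2 * T + 2) < (2 : ℝ) ^ n :=
      pow_lt_pow_right₀ (by norm_num) (by omega)
    rw [one_div, inv_pow, e]
    have hp : (0 : ℝ) < (2 : ℝ) ^ (2 * n) := by positivity
    have hq : (0 : ℝ) < (2 : ℝ) ^ n := by positivity
    have h6 : 2 * (((2 : ℝ) ^ (2 * n) * (2 : ℝ) ^ n)⁻¹ * (2 : ℝ) ^ (2 * n) * 2 ^ (2 * T + 1)) =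
        (2 : ℝ) ^ (2 * T + 2) / (2 : ℝ) ^ n := by
      rw [e2]
      field_simp
    rw [h6, div_lt_one hq]
    exact h5
  calc 2 * ∑ F ∈ S, (2 : ℝ) ^ ((((lam + 2) * F.card : ℕ) : ℤ) - ((F.biUnion (win m)).card : ℤ))
      ≤ 2 * ((1 / 2 : ℝ) ^ (3 * n) * ((wins N m l).card : ℝ) * 2 ^ (2 * T + 1)) :=
        mul_le_mul_of_nonneg_left key (by norm_num)
    _ ≤ 2 * ((1 / 2 : ℝ) ^ (3 * n) * (2 : ℝ) ^ (2 * n) * 2 ^ (2 * T + 1)) :=
        mul_le_mul_of_nonneg_left h3 (by norm_num)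
    _ < 1 := h4

end Pool.Agent.Helper49.VW
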