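import Pool.Agent.Helper49.VW.Abstract
import Pool.Agent.Helper49.VW.Model
import Pool.Agent.Helper49.VW.SumBound

set_option autoImplicit false

/-! VW-24a: Breaker wins. -/

namespace Pool.Agent.Helper49.VW

open Finset

open Pool.Agent.Helper38.VdW in
/-- VW-24a. `breaker_abstract` with `pts = win m`, `H = wins N m l`, `V = Icc 1 N`, `β = lam + 2`,
`T = n / (24 lam)`, `sum_bound`; then `exists_win` (applied to `insert x M ⊆ Icc 1 N`) turns the
invariant against windows into one against `n`-term progressions; `not_firstPlayerWins`. -/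
theorem breaker_wins (N n lam : ℕ) (hlam : 1 ≤ lam) (hbig : 1000000000000 * lam ≤ n)
    (hlam2 : n < 2 ^ lam) (hN : N * 2 ^ (24000500 * lam) ≤ 2 ^ n) : ¬ FirstPlayerWins N n := by
  classical
  obtain ⟨l, hl⟩ : ∃ l, l = 24000000 * lam := ⟨_, rfl⟩
  obtain ⟨m, hm⟩ : ∃ m, n = m + l := ⟨n - l, by omega⟩
  obtain ⟨T, hT⟩ : ∃ T, T = n / (24 * lam) := ⟨_, rfl⟩
  have hT1 : 1 ≤ T := by
    rw [hT, Nat.one_le_div_iff (by omega)]
    omega
  have hTn : T ≤ n := by
    rw [hT]
    exact Nat.div_le_self _ _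
  have hw : ∀ A ∈ wins N m l, 1 ≤ A.2 := by
    intro A hA
    unfold wins at hA
    rw [Finset.mem_filter, Finset.mem_product, Finset.mem_Icc, Finset.mem_Icc] at hA
    exact hA.1.2.1
  obtain ⟨Inv, hInv⟩ := breaker_abstract (win m) (wins N m l) (Finset.Icc 1 N) (lam + 2) T
    (fun A hA => win_subset N m l A hA)
    (fun A hA => by rw [card_win m A (hw A hA)]; omega)
    hT1
    (by
      have h1 : 2 ^ (lam + 2) = 4 * 2 ^ lam := by rw [pow_add]; ring
      omega)
    (by
      refine sum_bound N n m l lam T hm hl hlam hbig hlam2 hT hN _ ?_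
      intro F hF
      rw [Finset.mem_filter, Finset.mem_powerset] at hF
      exact hF)
  refine not_firstPlayerWins N n (by omega) Inv ⟨hInv.start, hInv.sub, ?_, hInv.step⟩
  rintro M B x hi hxV hxM hxB ⟨a, d, hd, h⟩
  refine hInv.good M B x hi hxV hxM hxB ?_
  refine exists_win N m l (by omega) (by omega) a d hd (insert x M)
    (Finset.insert_subset hxV (hInv.sub M B hi)) ?_
  intro i hi'
  exact h i (by omega)

end Pool.Agent.Helper49.VW
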