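import Pool.Agent.Helper49.VW.APInter

set_option autoImplicit false

/-! VW-13: few windows can be covered by a small set (Cauchy-Schwarz). -/

namespace Pool.Agent.Helper49.VW

open Finset

private theorem card_win_le (m : ℕ) (a : ℕ × ℕ) : (win m a).card ≤ m := by
  unfold win
  exact Finset.card_image_le.trans (by simp)

/-- For a window `b`: windows of `Bl` whose difference is commensurable (with bound `Q`) to `b.2`
have at most `Q ^ 2` different differences, and those of equal difference are disjoint, so they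
contribute at most `Q ^ 2 * m`; the others contribute at most `(m - 1) / (Q + 1) + 1` each. -/
theorem sum_inter_le (m Q : ℕ) (hm : 1 ≤ m) (Bl : Finset (ℕ × ℕ)) (hd : ∀ b ∈ Bl, 1 ≤ b.2)
    (hdis : ∀ b ∈ Bl, ∀ c ∈ Bl, b ≠ c → b.2 = c.2 → Disjoint (win m b) (win m c))
    (b : ℕ × ℕ) (hb : b ∈ Bl) :
    ∑ c ∈ Bl, (win m b ∩ win m c).card ≤ Q ^ 2 * m + Bl.card * ((m - 1) / (Q + 1) + 1) := by
  classical
  rw [← Finset.sum_filter_add_sum_filter_not Bl (fun c => Comm Q c.2 b.2)]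
  refine add_le_add ?_ ?_
  · set A := Bl.filter (fun c => Comm Q c.2 b.2) with hA
    set D := A.image Prod.snd with hD
    have h1 : D.card ≤ Q ^ 2 := by
      refine card_comm_le Q b.2 D fun x hx => ?_
      obtain ⟨c, hc, rfl⟩ := Finset.mem_image.1 hx
      exact (Finset.mem_filter.1 hc).2
    have h2 : ∑ c ∈ A, (win m b ∩ win m c).card =
        ∑ d ∈ D, ∑ c ∈ A.filter (fun c => c.2 = d), (win m b ∩ win m c).card := by
      rw [Finset.sum_fiberwise_of_maps_to]
      intro c hc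
      exact Finset.mem_image_of_mem _ hc
    rw [h2]
    calc ∑ d ∈ D, ∑ c ∈ A.filter (fun c => c.2 = d), (win m b ∩ win m c).card
        ≤ ∑ _d ∈ D, m := by
          refine Finset.sum_le_sum fun d _ => ?_
          have h3 : ∑ c ∈ A.filter (fun c => c.2 = d), (win m b ∩ win m c).card =
              ((A.filter (fun c => c.2 = d)).biUnion (fun c => win m b ∩ win m c)).card := by
            rw [Finset.card_biUnion]
            intro c hc e he hce
            obtain ⟨hc1, hc2⟩ := Finset.mem_filter.1 hc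
            obtain ⟨he1, he2⟩ := Finset.mem_filter.1 he
            have h4 := hdis c (Finset.mem_filter.1 hc1).1 e (Finset.mem_filter.1 he1).1 hce
              (hc2.trans he2.symm)
            exact h4.mono Finset.inter_subset_right Finset.inter_subset_right
          rw [h3]
          refine le_trans (Finset.card_le_card ?_) (card_win_le m b)
          intro x hx
          obtain ⟨c, _, hx'⟩ := Finset.mem_biUnion.1 hx
          exact (Finset.mem_inter.1 hx').1
      _ = D.card * m := by rw [Finset.sum_const, smul_eq_mul]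
      _ ≤ Q ^ 2 * m := Nat.mul_le_mul_right m h1
  · calc ∑ c ∈ Bl.filter (fun c => ¬ Comm Q c.2 b.2), (win m b ∩ win m c).card
        ≤ ∑ _c ∈ Bl.filter (fun c => ¬ Comm Q c.2 b.2), ((m - 1) / (Q + 1) + 1) := by
          refine Finset.sum_le_sum fun c hc => ?_
          obtain ⟨hc1, hc2⟩ := Finset.mem_filter.1 hc
          rw [Finset.inter_comm]
          exact card_inter_le m Q c b hm (hd c hc1) (hd b hb) hc2
      _ = (Bl.filter (fun c => ¬ Comm Q c.2 b.2)).card * ((m - 1) / (Q + 1) + 1) := by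
          rw [Finset.sum_const, smul_eq_mul]
      _ ≤ Bl.card * ((m - 1) / (Q + 1) + 1) :=
          Nat.mul_le_mul_right _ (Finset.card_filter_le _ _)

/-- Cauchy-Schwarz: `(∑ |b ∩ X|)^2 ≤ |X| ∑_{b,c} |b ∩ c|` with `Q = 43`:
`(0.44 m k)^2 ≤ 4.1 m k (1849 m + k (m / 44 + 1))`. -/
theorem cs_bound (m : ℕ) (hm : 1000000 ≤ m) (Bl : Finset (ℕ × ℕ)) (hd : ∀ b ∈ Bl, 1 ≤ b.2)
    (hdis : ∀ b ∈ Bl, ∀ c ∈ Bl, b ≠ c → b.2 = c.2 → Disjoint (win m b) (win m c))
    (X : Finset ℕ) (hX : 10 * X.card ≤ 41 * m)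
    (hcov : ∀ b ∈ Bl, 44 * m ≤ 100 * (win m b ∩ X).card) : Bl.card ≤ 80000 := by
  classical
  set k : ℕ := Bl.card with hk
  set T : ℕ := ∑ b ∈ Bl, (win m b ∩ X).card with hT
  have h1 : 44 * m * k ≤ 100 * T := by
    rw [hT, Finset.mul_sum]
    calc 44 * m * k = ∑ _b ∈ Bl, 44 * m := by rw [Finset.sum_const, smul_eq_mul, mul_comm]
      _ ≤ ∑ b ∈ Bl, 100 * (win m b ∩ X).card := Finset.sum_le_sum hcov
  have hcard : ∀ S : Finset ℕ, (S ∩ X).card = ∑ x ∈ X, if x ∈ S then 1 else 0 := by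
    intro S
    rw [← Finset.card_filter, Finset.inter_comm, ← Finset.filter_mem_eq_inter]
  have h2 : T = ∑ x ∈ X, ∑ b ∈ Bl, if x ∈ win m b then 1 else 0 := by
    rw [hT, Finset.sum_comm]
    exact Finset.sum_congr rfl fun b _ => hcard _
  have h3 : T ^ 2 ≤ X.card * ∑ x ∈ X, (∑ b ∈ Bl, if x ∈ win m b then 1 else 0) ^ 2 := by
    rw [h2]
    exact sq_sum_le_card_mul_sum_sq
  have h4 : ∑ x ∈ X, (∑ b ∈ Bl, if x ∈ win m b then 1 else 0) ^ 2 ≤
      ∑ b ∈ Bl, ∑ c ∈ Bl, (win m b ∩ win m c).card := by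
    have e1 : ∀ x ∈ X, (∑ b ∈ Bl, if x ∈ win m b then 1 else 0) ^ 2 =
        ∑ b ∈ Bl, ∑ c ∈ Bl, if x ∈ win m b ∩ win m c then 1 else 0 := by
      intro x _
      rw [sq, Finset.sum_mul_sum]
      refine Finset.sum_congr rfl fun b _ => Finset.sum_congr rfl fun c _ => ?_
      by_cases h5 : x ∈ win m b <;> by_cases h6 : x ∈ win m c <;> simp [h5, h6]
    rw [Finset.sum_congr rfl e1, Finset.sum_comm]
    refine Finset.sum_le_sum fun b _ => ?_
    rw [Finset.sum_comm]
    refine Finset.sum_le_sum fun c _ => ?_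
    rw [← hcard]
    exact Finset.card_le_card Finset.inter_subset_left
  have h5 : ∑ b ∈ Bl, ∑ c ∈ Bl, (win m b ∩ win m c).card ≤
      k * (43 ^ 2 * m + k * ((m - 1) / (43 + 1) + 1)) := by
    calc ∑ b ∈ Bl, ∑ c ∈ Bl, (win m b ∩ win m c).card
        ≤ ∑ _b ∈ Bl, (43 ^ 2 * m + k * ((m - 1) / (43 + 1) + 1)) :=
          Finset.sum_le_sum fun b hb => sum_inter_le m 43 (by omega) Bl hd hdis b hb
      _ = _ := by rw [Finset.sum_const, smul_eq_mul]
  have h6 : T ^ 2 ≤ X.card * (k * (43 ^ 2 * m + k * ((m - 1) / (43 + 1) + 1))) :=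
    h3.trans (Nat.mul_le_mul_left _ (h4.trans h5))
  -- pass to the reals
  have r1 : (44 : ℝ) * m * k ≤ 100 * T := by exact_mod_cast h1
  have r2 : (T : ℝ) ^ 2 ≤ X.card * (k * (43 ^ 2 * m + k * (((m - 1) / (43 + 1) : ℕ) + 1))) := by
    exact_mod_cast h6
  have r3 : (10 : ℝ) * X.card ≤ 41 * m := by exact_mod_cast hX
  have r4 : (((m - 1) / (43 + 1) : ℕ) : ℝ) ≤ m / 44 := by
    have e1 : (m - 1) / (43 + 1) ≤ m / 44 := Nat.div_le_div_right (Nat.sub_le _ _)
    have e2 : ((m / 44 : ℕ) : ℝ) ≤ m / 44 := by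
      have := @Nat.cast_div_le ℝ _ _ _ m 44
      exact_mod_cast this
    calc (((m - 1) / (43 + 1) : ℕ) : ℝ) ≤ ((m / 44 : ℕ) : ℝ) := by exact_mod_cast e1
      _ ≤ m / 44 := e2
  have hm' : (1000000 : ℝ) ≤ m := by exact_mod_cast hm
  have hm0 : (0 : ℝ) < m := by linarith
  have hk0 : (0 : ℝ) ≤ k := Nat.cast_nonneg k
  by_contra hcon
  push Not at hcon
  have hk1 : (80000 : ℝ) < k := by exact_mod_cast hcon
  have r5 : (44 * m * k : ℝ) ^ 2 ≤ (100 * T) ^ 2 := pow_le_pow_left₀ (by positivity) r1 2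
  have r6 : (T : ℝ) ^ 2 ≤ (41 / 10 * m) * (k * (1849 * m + k * (m / 44 + m / 1000000))) := by
    refine r2.trans ?_
    have e1 : (X.card : ℝ) ≤ 41 / 10 * m := by linarith
    have e2 : (k : ℝ) * (43 ^ 2 * m + k * (((m - 1) / (43 + 1) : ℕ) + 1)) ≤
        k * (1849 * m + k * (m / 44 + m / 1000000)) := by
      refine mul_le_mul_of_nonneg_left ?_ hk0
      have e3 : (k : ℝ) * ((((m - 1) / (43 + 1) : ℕ) : ℝ) + 1) ≤ k * (m / 44 + m / 1000000) := by
        refine mul_le_mul_of_nonneg_left ?_ hk0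
        have : (1 : ℝ) ≤ m / 1000000 := by
          rw [le_div_iff₀ (by norm_num)]
          linarith
        linarith
      have e4 : (43 : ℝ) ^ 2 * m = 1849 * m := by norm_num
      linarith
    exact mul_le_mul e1 e2 (by positivity) (by positivity)
  have r7 : (1936 : ℝ) * m ^ 2 * k ^ 2 ≤
      10000 * ((41 / 10 * m) * (k * (1849 * m + k * (m / 44 + m / 1000000)))) := by
    nlinarith
  have r8 : (1936 : ℝ) * k ≤ 41000 * (1849 + k * (1 / 44 + 1 / 1000000)) := by
    have hmk : (0 : ℝ) < m ^ 2 * k := by positivity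
    have e1 : (1936 : ℝ) * k * (m ^ 2 * k) ≤
        41000 * (1849 + k * (1 / 44 + 1 / 1000000)) * (m ^ 2 * k) := by
      calc (1936 : ℝ) * k * (m ^ 2 * k) = 1936 * m ^ 2 * k ^ 2 := by ring
        _ ≤ _ := r7
        _ = 41000 * (1849 + k * (1 / 44 + 1 / 1000000)) * (m ^ 2 * k) := by ring
    exact le_of_mul_le_mul_right e1 hmk
  linarith

end Pool.Agent.Helper49.VW
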