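import Pool.Agent.Helper49.VW.CascStep

set_option autoImplicit false

/-! VW-5: the cascade ends in a closed state. -/

namespace Pool.Agent.Helper49.VW

open Finset

variable {ι : Type} [DecidableEq ι]

/-- Strong induction on `(H \ s.D).card`: if the state is not closed, declare a set and go on. -/
theorem casc_all (pts : ι → Finset ℕ) (H : Finset ι) (V : Finset ℕ) (β T : ℕ)
    (Fam : Finset (Finset ι)) (x : ℕ) (s0 : St ι) (hV : ∀ A ∈ H, pts A ⊆ V)
    (hFam : FamT pts H T Fam) (hT : 1 ≤ T) (hne : ∀ A ∈ H, (pts A).Nonempty)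
    (hpre : PreClosed pts H β x s0) (s : St ι) (h : Casc pts H V β T Fam x s0 s) :
    ∃ s', Casc pts H V β T Fam x s0 s' ∧ Closed pts H β s' := by
  obtain ⟨n, hn⟩ : ∃ n, (H \ s.D).card = n := ⟨_, rfl⟩
  induction n using Nat.strong_induction_on generalizing s with
  | _ n ih =>
    by_cases hcl : Closed pts H β s
    · exact ⟨s, h, hcl⟩
    · unfold Closed at hcl
      push Not at hcl
      obtain ⟨A, hAH, hAD, hB, hc⟩ := hcl
      have hstep := casc_step pts H V β T Fam x s0 s hV hFam hT hpre h A hAH hAD hB hc
        (hne A hAH)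
      have hlt : (H \ (declare pts s0 s A).D).card < n := by
        rw [← hn]
        apply card_lt_card
        rw [ssubset_iff_of_subset]
        · refine ⟨A, mem_sdiff.mpr ⟨hAH, hAD⟩, ?_⟩
          intro hA
          exact (mem_sdiff.mp hA).2 (mem_insert_self A s.D)
        · intro B hB'
          rw [mem_sdiff] at hB' ⊢
          exact ⟨hB'.1, fun h' => hB'.2 (mem_insert_of_mem h')⟩
      exact ih _ hlt (declare pts s0 s A) hstep rfl

end Pool.Agent.Helper49.VW
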