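import Pool.Agent.Helper49.VW.Defs

set_option autoImplicit false

/-! VW-2: how the big potential changes. -/

namespace Pool.Agent.Helper49.VW

open Finset

variable {ι : Type} [DecidableEq ι]

theorem wt_nonneg (pts : ι → Finset ℕ) (β : ℕ) (s : St ι) (F : Finset ι) : 0 ≤ wt pts β s F := by
  unfold wt
  split_ifs
  · positivity
  · exact le_rfl

theorem PhiAt_nonneg (pts : ι → Finset ℕ) (β : ℕ) (Fam : Finset (Finset ι)) (s : St ι) (z : ℕ) :
    0 ≤ PhiAt pts β Fam s z := by
  unfold PhiAt
  refine Finset.sum_nonneg fun F _ => ?_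
  split_ifs
  · exact wt_nonneg pts β s F
  · exact le_rfl

theorem PhiAt_le_Phi (pts : ι → Finset ℕ) (β : ℕ) (Fam : Finset (Finset ι)) (s : St ι) (z : ℕ) :
    PhiAt pts β Fam s z ≤ Phi pts β Fam s := by
  unfold PhiAt Phi
  refine Finset.sum_le_sum fun F _ => ?_
  split_ifs
  · exact le_rfl
  · exact wt_nonneg pts β s F

private theorem weights_unc_maker (pts : ι → Finset ℕ) (s : St ι) (x : ℕ) (F : Finset ι) :
    unc pts { s with M := insert x s.M } F = (unc pts s F).erase x := by
  ext z
  simp only [unc, Finset.mem_sdiff, Finset.mem_union, Finset.mem_insert, Finset.mem_erase, not_or]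
  tauto

private theorem weights_wt_maker (pts : ι → Finset ℕ) (β : ℕ) (s : St ι) (x : ℕ) (F : Finset ι) :
    wt pts β { s with M := insert x s.M } F =
      wt pts β s F + if x ∈ unc pts s F then wt pts β s F else 0 := by
  have hok : Ok pts { s with M := insert x s.M } F ↔ Ok pts s F := Iff.rfl
  unfold wt
  rw [weights_unc_maker]
  by_cases h : Ok pts s F
  · rw [if_pos (hok.2 h), if_pos h]
    by_cases hx : x ∈ unc pts s F
    · rw [if_pos hx, Finset.card_erase_of_mem hx]
      have hc : 0 < (unc pts s F).card := Finset.card_pos.2 ⟨x, hx⟩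
      have e : ((β * (F \ s.D).card : ℕ) : ℤ) - (((unc pts s F).card - 1 : ℕ) : ℤ) =
          (((β * (F \ s.D).card : ℕ) : ℤ) - ((unc pts s F).card : ℤ)) + 1 := by
        rw [Nat.cast_sub (by omega)]
        push_cast
        ring
      rw [e, zpow_add₀ (by norm_num), zpow_one]
      ring
    · rw [if_neg hx, Finset.erase_eq_of_notMem hx, add_zero]
  · rw [if_neg (fun h' => h (hok.1 h')), if_neg h]
    simp

/-- Maker takes a point outside the emergency room. -/
theorem Phi_maker_le (pts : ι → Finset ℕ) (β : ℕ) (Fam : Finset (Finset ι)) (s : St ι) (x : ℕ) :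
    Phi pts β Fam { s with M := insert x s.M } ≤ Phi pts β Fam s + PhiAt pts β Fam s x := by
  unfold Phi PhiAt
  rw [← Finset.sum_add_distrib]
  refine Finset.sum_le_sum fun F _ => ?_
  exact (weights_wt_maker pts β s x F).le

/-- Maker takes a point of the emergency room. -/
theorem Phi_makerE (pts : ι → Finset ℕ) (β : ℕ) (Fam : Finset (Finset ι)) (s : St ι) (x : ℕ)
    (hx : x ∈ s.E) :
    Phi pts β Fam { s with M := insert x s.M } = Phi pts β Fam s ∧
    ∀ z, PhiAt pts β Fam { s with M := insert x s.M } z = PhiAt pts β Fam s z := by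
  have hu : ∀ F, unc pts { s with M := insert x s.M } F = unc pts s F := by
    intro F
    rw [weights_unc_maker]
    refine Finset.erase_eq_of_notMem fun h => ?_
    simp only [unc, Finset.mem_sdiff, Finset.mem_union, not_or] at h
    exact h.2.2 hx
  have hw : ∀ F, wt pts β { s with M := insert x s.M } F = wt pts β s F := by
    intro F
    rw [weights_wt_maker, if_neg, add_zero]
    intro h
    simp only [unc, Finset.mem_sdiff, Finset.mem_union, not_or] at h
    exact h.2.2 hx
  constructor
  · exact Finset.sum_congr rfl fun F _ => hw F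
  · intro z
    unfold PhiAt
    refine Finset.sum_congr rfl fun F _ => ?_
    rw [hu, hw]

private theorem weights_ok_breaker (pts : ι → Finset ℕ) (s : St ι) (y : ℕ) (F : Finset ι)
    (h : Ok pts { s with B := insert y s.B } F) : Ok pts s F :=
  ⟨h.1, fun A hA hAD => ⟨(h.2 A hA hAD).1, fun p hp hpB =>
    (h.2 A hA hAD).2 p hp (Finset.mem_insert_of_mem hpB)⟩⟩

private theorem weights_wt_breaker (pts : ι → Finset ℕ) (β : ℕ) (s : St ι) (y : ℕ) (F : Finset ι) :
    wt pts β { s with B := insert y s.B } F ≤ wt pts β s F := by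
  by_cases h : Ok pts { s with B := insert y s.B } F
  · have h' := weights_ok_breaker pts s y F h
    unfold wt
    rw [if_pos h, if_pos h']
    exact le_rfl
  · have : wt pts β { s with B := insert y s.B } F = 0 := by
      unfold wt
      rw [if_neg h]
    rw [this]
    exact wt_nonneg pts β s F

/-- Breaker takes a point. -/
theorem Phi_breaker_le (pts : ι → Finset ℕ) (β : ℕ) (Fam : Finset (Finset ι)) (s : St ι) (y : ℕ) :
    Phi pts β Fam { s with B := insert y s.B } ≤ Phi pts β Fam s ∧
    ∀ z, PhiAt pts β Fam { s with B := insert y s.B } z ≤ PhiAt pts β Fam s z := by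
  constructor
  · exact Finset.sum_le_sum fun F _ => weights_wt_breaker pts β s y F
  · intro z
    unfold PhiAt
    refine Finset.sum_le_sum fun F _ => ?_
    have hu : unc pts { s with B := insert y s.B } F = unc pts s F := rfl
    rw [hu]
    split_ifs
    · exact weights_wt_breaker pts β s y F
    · exact le_rfl

/-- Breaker takes an unclaimed point of the big board: all families with this point in their
unclaimed part are out. -/
theorem Phi_breaker_big (pts : ι → Finset ℕ) (β : ℕ) (Fam : Finset (Finset ι)) (s : St ι) (y : ℕ)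
    (hy : y ∉ s.E) :
    Phi pts β Fam { s with B := insert y s.B } + PhiAt pts β Fam s y ≤ Phi pts β Fam s := by
  unfold Phi PhiAt
  rw [← Finset.sum_add_distrib]
  refine Finset.sum_le_sum fun F _ => ?_
  by_cases hx : y ∈ unc pts s F
  · rw [if_pos hx]
    have h0 : wt pts β { s with B := insert y s.B } F = 0 := by
      unfold wt
      rw [if_neg]
      intro h
      have h1 := hx
      simp only [unc, Finset.mem_sdiff, Finset.mem_biUnion] at h1
      obtain ⟨⟨A, ⟨hA, hAD⟩, hyA⟩, -⟩ := h1
      exact hy ((h.2 A hA hAD).2 y hyA (Finset.mem_insert_self y s.B))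
    rw [h0, zero_add]
  · rw [if_neg hx, add_zero]
    exact weights_wt_breaker pts β s y F

/-- A completely declared, ancestor closed family has weight one. -/
theorem wt_complete (pts : ι → Finset ℕ) (β : ℕ) (s : St ι) (F : Finset ι) (hF : F ⊆ s.D)
    (hanc : ∀ A ∈ F, s.anc A ⊆ F) : wt pts β s F = 1 := by
  have hok : Ok pts s F :=
    ⟨fun A hA _ => hanc A hA, fun A hA hAD => absurd (hF hA) hAD⟩
  unfold wt
  rw [if_pos hok]
  have h1 : F \ s.D = ∅ := Finset.sdiff_eq_empty_iff_subset.2 hF
  have h2 : unc pts s F = ∅ := by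
    unfold unc
    rw [h1, Finset.biUnion_empty, Finset.empty_sdiff]
  rw [h1, h2]
  simp

theorem not_mem_of_Phi_lt (pts : ι → Finset ℕ) (β : ℕ) (Fam : Finset (Finset ι)) (s : St ι)
    (F : Finset ι) (hF : F ⊆ s.D) (hanc : ∀ A ∈ F, s.anc A ⊆ F)
    (hPhi : Phi pts β Fam s < 1) : F ∉ Fam := by
  intro hmem
  have h1 := wt_complete pts β s F hF hanc
  have h2 : wt pts β s F ≤ Phi pts β Fam s :=
    Finset.single_le_sum (f := fun F => wt pts β s F) (fun G _ => wt_nonneg pts β s G) hmem
  rw [h1] at h2
  exact absurd hPhi (not_lt.2 h2)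

end Pool.Agent.Helper49.VW
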