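import Pool.Agent.Helper49.VW.Link
import Pool.Agent.Helper49.VW.Weights

set_option autoImplicit false

/-! VW-4a: the ancestor family of the next declared set. -/

namespace Pool.Agent.Helper49.VW

open Finset

variable {ι : Type} [DecidableEq ι]

/-- VW-4a. The new ancestor family stays small.  Let `G = (D \ D0).biUnion anc` be the present family and
`A` the set to be declared.  Put `G_S = G ∪ S.biUnion (fun p => anc (ab p))` for `S ⊆ pts A ∩ E`; by
induction on `S` show: `G_S.card ≤ T`.  `G_S ⊆ D` is ancestor closed (`ancTrans`, `ancD`), and linked to `A`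
(`linked_union`, `linked_biUnion`, and `G` is linked to `A`: either `G = ∅` or `A` meets a member of `G`, since
`x ∈ pts A` and `root`, or `pts A` contains a point `p ∈ E \ E0` and then `ab p ∈ D \ D0`).  Adding one more
`anc (ab p)` gives at most `2 T` members, `Phi < 1` and `wt_complete` give `G_S ∉ Fam`, so by `FamT` it has
at most `T` members. -/
theorem casc_parents (pts : ι → Finset ℕ) (H : Finset ι) (V : Finset ℕ) (β T : ℕ)
    (Fam : Finset (Finset ι)) (x : ℕ) (s0 s : St ι) (hFam : FamT pts H T Fam) (hT : 1 ≤ T)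
    (hpre : PreClosed pts H β x s0) (h : Casc pts H V β T Fam x s0 s)
    (A : ι) (hAH : A ∈ H) (hAD : A ∉ s.D) (hB : ∀ p ∈ pts A, p ∈ s.B → p ∈ s.E)
    (hc : (pts A \ (s.M ∪ s.E)).card ≤ β) :
    ((s.D \ s0.D).biUnion s.anc ∪ (pts A ∩ s.E).biUnion (fun p => s.anc (s.ab p))).card ≤ T ∧
    Linked pts ((s.D \ s0.D).biUnion s.anc ∪ (pts A ∩ s.E).biUnion (fun p => s.anc (s.ab p))) A := by
  have hcore := h.core
  set G : Finset ι := (s.D \ s0.D).biUnion s.anc with hG
  -- the present family is linked to `A`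
  have hGA : Linked pts G A := by
    by_cases hx : x ∈ pts A
    · by_cases hne : (s.D \ s0.D).Nonempty
      · obtain ⟨C, hC, hxC⟩ := h.root hne
        exact linked_of_meets pts G C A hC (h.famConn C hC)
          ⟨x, Finset.mem_inter.mpr ⟨hx, hxC⟩⟩
      · rw [Finset.not_nonempty_iff_eq_empty] at hne
        intro C hC
        rw [hG, hne, Finset.biUnion_empty] at hC
        exact absurd hC (Finset.notMem_empty C)
    · have hA0 : A ∉ s0.D := fun h1 => hAD (h.Dsub h1)
      have hB0 : ∀ p ∈ pts A, p ∈ s0.B → p ∈ s0.E := by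
        intro p hp hpB
        have hpB' : p ∈ s.B := by rw [h.Beq]; exact hpB
        by_contra hp0
        exact (h.newE p (hB p hp hpB') hp0).2.1 hpB'
      have h1 := hpre.lt A hAH hA0 hB0 hx
      have h2 : ∃ p ∈ pts A, p ∈ s.E ∧ p ∉ s0.E := by
        by_contra hcon
        push Not at hcon
        have h3 : pts A \ (s0.M ∪ s0.E) ⊆ pts A \ (s.M ∪ s.E) := by
          intro p hp
          rw [Finset.mem_sdiff, Finset.mem_union, not_or] at hp ⊢
          refine ⟨hp.1, ?_, ?_⟩
          · rw [h.Meq]; exact hp.2.1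
          · intro h4
            exact hp.2.2 (hcon p hp.1 h4)
        have h4 := Finset.card_le_card h3
        omega
      obtain ⟨p, hpA, hpE, hp0⟩ := h2
      have h5 := (h.newE p hpE hp0).2.2
      have h6 := hcore.abD p hpE
      have h7 : s.ab p ∈ G := Finset.mem_biUnion.mpr
        ⟨s.ab p, Finset.mem_sdiff.mpr ⟨h6, h5⟩, hcore.ancSelf _ h6⟩
      exact linked_of_meets pts G (s.ab p) A h7 (h.famConn _ h7)
        ⟨p, Finset.mem_inter.mpr ⟨hpA, hcore.abp p hpE⟩⟩
  -- linked for all subsets
  have hlink : ∀ S ⊆ pts A ∩ s.E, Linked pts (G ∪ S.biUnion (fun p => s.anc (s.ab p))) A := by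
    intro S hS
    apply linked_union pts G _ A hGA
    apply linked_biUnion pts S (fun p => s.anc (s.ab p)) s.ab A
    intro p hp
    have h1 := Finset.mem_inter.mp (hS hp)
    have h2 := hcore.abD p h1.2
    exact ⟨hcore.ancSelf _ h2, hcore.ancLinked _ h2,
      ⟨p, Finset.mem_inter.mpr ⟨h1.1, hcore.abp p h1.2⟩⟩⟩
  have hsubD : ∀ S ⊆ pts A ∩ s.E, G ∪ S.biUnion (fun p => s.anc (s.ab p)) ⊆ s.D := by
    intro S hS C hC
    rcases Finset.mem_union.mp hC with hC | hC
    · obtain ⟨C', hC', hm⟩ := Finset.mem_biUnion.mp hC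
      exact hcore.ancD C' (Finset.mem_sdiff.mp hC').1 hm
    · obtain ⟨p, hp, hm⟩ := Finset.mem_biUnion.mp hC
      exact hcore.ancD _ (hcore.abD p (Finset.mem_inter.mp (hS hp)).2) hm
  have hclosed : ∀ S ⊆ pts A ∩ s.E, ∀ C ∈ G ∪ S.biUnion (fun p => s.anc (s.ab p)),
      s.anc C ⊆ G ∪ S.biUnion (fun p => s.anc (s.ab p)) := by
    intro S hS C hC K hK
    rcases Finset.mem_union.mp hC with hC | hC
    · obtain ⟨C', hC', hm⟩ := Finset.mem_biUnion.mp hC
      exact Finset.mem_union_left _ (Finset.mem_biUnion.mpr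
        ⟨C', hC', hcore.ancTrans C' (Finset.mem_sdiff.mp hC').1 C hm hK⟩)
    · obtain ⟨p, hp, hm⟩ := Finset.mem_biUnion.mp hC
      exact Finset.mem_union_right _ (Finset.mem_biUnion.mpr
        ⟨p, hp, hcore.ancTrans _ (hcore.abD p (Finset.mem_inter.mp (hS hp)).2) C hm hK⟩)
  have hcard : ∀ S : Finset ℕ, S ⊆ pts A ∩ s.E →
      (G ∪ S.biUnion (fun p => s.anc (s.ab p))).card ≤ T := by
    intro S
    induction S using Finset.induction_on with
    | empty =>
      intro _
      rw [Finset.biUnion_empty, Finset.union_empty]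
      exact h.famCard
    | insert p S _ ih =>
      intro hS
      have hS' : S ⊆ pts A ∩ s.E := (Finset.subset_insert p S).trans hS
      have hp := Finset.mem_inter.mp (hS (Finset.mem_insert_self p S))
      have h1 := ih hS'
      have h2 : (G ∪ (insert p S).biUnion (fun p => s.anc (s.ab p))).card ≤ 2 * T := by
        have e : G ∪ (insert p S).biUnion (fun p => s.anc (s.ab p)) =
            (G ∪ S.biUnion (fun p => s.anc (s.ab p))) ∪ s.anc (s.ab p) := by
          rw [Finset.biUnion_insert]
          ext C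
          simp only [Finset.mem_union]
          tauto
        rw [e]
        have h3 := Finset.card_union_le (G ∪ S.biUnion (fun p => s.anc (s.ab p)))
          (s.anc (s.ab p))
        have h4 := hcore.ancCard _ (hcore.abD p hp.2)
        omega
      by_contra hcon
      push Not at hcon
      have h5 := hFam _ ((hsubD _ hS).trans hcore.DH) hcon h2 ⟨A, hAH, hlink _ hS⟩
      exact not_mem_of_Phi_lt pts β Fam s _ (hsubD _ hS) (hclosed _ hS) h.phi h5
  exact ⟨hcard _ subset_rfl, hlink _ subset_rfl⟩

end Pool.Agent.Helper49.VW
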