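import Pool.Agent.Helper49.VW.Weights

set_option autoImplicit false

/-! VW-2b: declaring a set does not increase the big potential. -/

namespace Pool.Agent.Helper49.VW

open Finset

variable {ι : Type} [DecidableEq ι]

/-- Declaring a set `A` which is free of Breaker's big board points and has at most `β` unclaimed
big board points does not increase the weight of any family.  Proof: if `F` is `Ok` after the
declaration, then it was `Ok` before (for `A` itself: `anc' A ⊆ F` contains `ab p` for all
`p ∈ pts A ∩ E`, as `ab p ∈ anc (ab p)`; a point of Breaker in `E' \ E ⊆ pts A \ M` would be in `E`).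
Case `A ∈ F`: `F \ D` loses one member and `unc` loses at most the points of
`pts A \ (M ∪ E)`, so the exponent does not grow.  Case `A ∉ F`: a point of `unc s F` in `E' \ E` would
have `ab' p = A ∉ F`, so `unc` and `F \ D` do not change. -/
theorem wt_declare_le (pts : ι → Finset ℕ) (H : Finset ι) (V : Finset ℕ) (β T : ℕ) (s0 s : St ι)
    (hcore : Core pts H V T s) (A : ι) (hA : A ∉ s.D)
    (hB : ∀ p ∈ pts A, p ∈ s.B → p ∈ s.E) (hc : (pts A \ (s.M ∪ s.E)).card ≤ β) (F : Finset ι) :
    wt pts β (declare pts s0 s A) F ≤ wt pts β s F := by
  classical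
  by_cases hok' : Ok pts (declare pts s0 s A) F
  swap
  · have h0 : wt pts β (declare pts s0 s A) F = 0 := by
      unfold wt
      rw [if_neg hok']
    rw [h0]
    exact wt_nonneg pts β s F
  have hD' : (declare pts s0 s A).D = insert A s.D := rfl
  have hE' : (declare pts s0 s A).E = s.E ∪ (pts A \ s.M) := rfl
  have hM' : (declare pts s0 s A).M = s.M := rfl
  have hB' : (declare pts s0 s A).B = s.B := rfl
  have hanc' : (declare pts s0 s A).anc = Function.update s.anc A
      (insert A ((pts A ∩ s.E).biUnion (fun p => s.anc (s.ab p)))) := rfl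
  have hab' : ∀ p, (declare pts s0 s A).ab p = if p ∈ s.E then s.ab p else A := fun _ => rfl
  obtain ⟨h1, h2⟩ := hok'
  have hok : Ok pts s F := by
    refine ⟨?_, ?_⟩
    · intro X hX hXD
      have hne : X ≠ A := fun h => hA (h ▸ hXD)
      have h := h1 X hX (by rw [hD']; exact Finset.mem_insert_of_mem hXD)
      rw [hanc', Function.update_of_ne hne] at h
      exact h
    · intro X hX hXD
      by_cases hXA : X = A
      · subst hXA
        refine ⟨?_, hB⟩
        intro p hp hpE
        have h := h1 X hX (by rw [hD']; exact Finset.mem_insert_self _ _)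
        rw [hanc', Function.update_self] at h
        apply h
        apply Finset.mem_insert_of_mem
        rw [Finset.mem_biUnion]
        exact ⟨p, Finset.mem_inter.mpr ⟨hp, hpE⟩, hcore.ancSelf _ (hcore.abD p hpE)⟩
      · have hXD' : X ∉ (declare pts s0 s A).D := by
          rw [hD', Finset.mem_insert, not_or]
          exact ⟨hXA, hXD⟩
        obtain ⟨h3, h4⟩ := h2 X hX hXD'
        refine ⟨?_, ?_⟩
        · intro p hp hpE
          have h := h3 p hp (by rw [hE']; exact Finset.mem_union_left _ hpE)
          rw [hab', if_pos hpE] at h
          exact h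
        · intro p hp hpB
          have h := h4 p hp (by rw [hB']; exact hpB)
          rw [hE', Finset.mem_union] at h
          rcases h with h | h
          · exact h
          · exact hB p (Finset.mem_sdiff.mp h).1 hpB
  have hexp : (((β * (F \ (declare pts s0 s A).D).card : ℕ) : ℤ) -
      ((unc pts (declare pts s0 s A) F).card : ℤ)) ≤
      (((β * (F \ s.D).card : ℕ) : ℤ) - ((unc pts s F).card : ℤ)) := by
    by_cases hAF : A ∈ F
    · have hcard : (F \ s.D).card = (F \ (declare pts s0 s A).D).card + 1 := by
        have hins : F \ s.D = insert A (F \ (declare pts s0 s A).D) := by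
          ext X
          simp only [hD', Finset.mem_sdiff, Finset.mem_insert, not_or]
          constructor
          · rintro ⟨hX, hXD⟩
            by_cases hXA : X = A
            · exact Or.inl hXA
            · exact Or.inr ⟨hX, hXA, hXD⟩
          · rintro (rfl | ⟨hX, _, hXD⟩)
            · exact ⟨hAF, hA⟩
            · exact ⟨hX, hXD⟩
        rw [hins, Finset.card_insert_of_notMem]
        rw [hD']
        simp
      have hsub : unc pts s F ⊆ unc pts (declare pts s0 s A) F ∪ (pts A \ (s.M ∪ s.E)) := by
        intro p hp
        unfold unc at hp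
        rw [Finset.mem_sdiff, Finset.mem_biUnion] at hp
        obtain ⟨⟨X, hX, hpX⟩, hpME⟩ := hp
        rw [Finset.mem_sdiff] at hX
        rw [Finset.mem_union]
        by_cases hpA : p ∈ pts A
        · right
          exact Finset.mem_sdiff.mpr ⟨hpA, hpME⟩
        · left
          have hXA : X ≠ A := fun h => hpA (h ▸ hpX)
          unfold unc
          rw [Finset.mem_sdiff, Finset.mem_biUnion]
          refine ⟨⟨X, ?_, hpX⟩, ?_⟩
          · rw [Finset.mem_sdiff, hD', Finset.mem_insert, not_or]
            exact ⟨hX.1, hXA, hX.2⟩
          · rw [hM', hE']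
            simp only [Finset.mem_union, Finset.mem_sdiff, not_or, not_and] at hpME ⊢
            exact ⟨hpME.1, hpME.2, fun h => absurd h hpA⟩
      have hle := (Finset.card_le_card hsub).trans (Finset.card_union_le _ _)
      rw [hcard]
      have hle' : (unc pts s F).card ≤ (unc pts (declare pts s0 s A) F).card + β := by omega
      have hmul : β * ((F \ (declare pts s0 s A).D).card + 1) =
          β * (F \ (declare pts s0 s A).D).card + β := by ring
      rw [hmul]
      omega
    · have heq : F \ (declare pts s0 s A).D = F \ s.D := by
        ext X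
        simp only [hD', Finset.mem_sdiff, Finset.mem_insert, not_or]
        constructor
        · rintro ⟨hX, _, hXD⟩
          exact ⟨hX, hXD⟩
        · rintro ⟨hX, hXD⟩
          exact ⟨hX, fun h => hAF (h ▸ hX), hXD⟩
      have hsub : unc pts s F ⊆ unc pts (declare pts s0 s A) F := by
        intro p hp
        unfold unc at hp ⊢
        rw [Finset.mem_sdiff, Finset.mem_biUnion] at hp
        obtain ⟨⟨X, hX, hpX⟩, hpME⟩ := hp
        rw [heq, Finset.mem_sdiff, Finset.mem_biUnion]
        refine ⟨⟨X, hX, hpX⟩, ?_⟩
        intro hcon
        rw [hM', hE'] at hcon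
        rw [Finset.mem_sdiff] at hX
        have hXA : X ≠ A := fun h => hAF (h ▸ hX.1)
        have hXD' : X ∉ (declare pts s0 s A).D := by
          rw [hD', Finset.mem_insert, not_or]
          exact ⟨hXA, hX.2⟩
        have hpM : p ∉ s.M := fun h => hpME (Finset.mem_union_left _ h)
        have hpE : p ∉ s.E := fun h => hpME (Finset.mem_union_right _ h)
        have hpE' : p ∈ (declare pts s0 s A).E := by
          rw [hE']
          rcases Finset.mem_union.mp hcon with h | h
          · exact absurd h hpM
          · exact h
        have h := (h2 X hX.1 hXD').1 p hpX hpE'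
        rw [hab', if_neg hpE] at h
        exact hAF h
      have hle := Finset.card_le_card hsub
      rw [heq]
      omega
  unfold wt
  rw [if_pos ⟨h1, h2⟩, if_pos hok]
  exact zpow_le_zpow_right₀ (by norm_num) hexp

theorem Phi_declare_le (pts : ι → Finset ℕ) (H : Finset ι) (V : Finset ℕ) (β T : ℕ)
    (Fam : Finset (Finset ι)) (s0 s : St ι)
    (hcore : Core pts H V T s) (A : ι) (hA : A ∉ s.D)
    (hB : ∀ p ∈ pts A, p ∈ s.B → p ∈ s.E) (hc : (pts A \ (s.M ∪ s.E)).card ≤ β) :
    Phi pts β Fam (declare pts s0 s A) ≤ Phi pts β Fam s := by
  unfold Phi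
  exact Finset.sum_le_sum (fun F _ => wt_declare_le pts H V β T s0 s hcore A hA hB hc F)

end Pool.Agent.Helper49.VW
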