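import Pool.Agent.Helper49.VW.CascParents
import Pool.Agent.Helper49.VW.WtDeclare

set_option autoImplicit false

/-! VW-4b: one step of the cascade. -/

namespace Pool.Agent.Helper49.VW

open Finset

variable {ι : Type} [DecidableEq ι]

private theorem dec_ancA (pts : ι → Finset ℕ) (s0 s : St ι) (A : ι) :
    (declare pts s0 s A).anc A = insert A ((pts A ∩ s.E).biUnion (fun p => s.anc (s.ab p))) := by
  simp [declare]

private theorem dec_anc (pts : ι → Finset ℕ) (s0 s : St ι) (A C : ι) (hC : C ≠ A) :
    (declare pts s0 s A).anc C = s.anc C := by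
  simp [declare, Function.update_of_ne hC]

private theorem dec_RA (pts : ι → Finset ℕ) (s0 s : St ι) (A : ι) :
    (declare pts s0 s A).R A = pts A \ (s0.M ∪ s0.E) := by
  simp [declare]

private theorem dec_R (pts : ι → Finset ℕ) (s0 s : St ι) (A C : ι) (hC : C ≠ A) :
    (declare pts s0 s A).R C = s.R C := by
  simp [declare, Function.update_of_ne hC]

private theorem dec_grpA (pts : ι → Finset ℕ) (s0 s : St ι) (A : ι) :
    (declare pts s0 s A).grp A = s0.M.card := by
  simp [declare]

private theorem dec_grp (pts : ι → Finset ℕ) (s0 s : St ι) (A C : ι) (hC : C ≠ A) :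
    (declare pts s0 s A).grp C = s.grp C := by
  simp [declare, Function.update_of_ne hC]

private theorem dec_abE (pts : ι → Finset ℕ) (s0 s : St ι) (A : ι) (p : ℕ) (hp : p ∈ s.E) :
    (declare pts s0 s A).ab p = s.ab p := by
  simp [declare, hp]

private theorem dec_abN (pts : ι → Finset ℕ) (s0 s : St ι) (A : ι) (p : ℕ) (hp : p ∉ s.E) :
    (declare pts s0 s A).ab p = A := by
  simp [declare, hp]

private theorem dec_M (pts : ι → Finset ℕ) (s0 s : St ι) (A : ι) :
    (declare pts s0 s A).M = s.M := rfl

private theorem dec_B (pts : ι → Finset ℕ) (s0 s : St ι) (A : ι) :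
    (declare pts s0 s A).B = s.B := rfl

private theorem dec_E (pts : ι → Finset ℕ) (s0 s : St ι) (A : ι) :
    (declare pts s0 s A).E = s.E ∪ (pts A \ s.M) := rfl

private theorem dec_D (pts : ι → Finset ℕ) (s0 s : St ι) (A : ι) :
    (declare pts s0 s A).D = insert A s.D := rfl

/-- VW-4b. The cascade step.  All fields of `Core` and `Casc` for `declare pts s0 s A`; the new family is
`insert A (G ∪ parents)`, of size at most `T + 1 ≤ 2 T`, contained in the new `D`, ancestor closed,
linked to `A`; `Phi` does not grow (`Phi_declare_le`), so by `not_mem_of_Phi_lt` and `FamT` its size is at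
most `T`. -/
theorem casc_step (pts : ι → Finset ℕ) (H : Finset ι) (V : Finset ℕ) (β T : ℕ)
    (Fam : Finset (Finset ι)) (x : ℕ) (s0 s : St ι) (hV : ∀ A ∈ H, pts A ⊆ V)
    (hFam : FamT pts H T Fam) (hT : 1 ≤ T)
    (hpre : PreClosed pts H β x s0) (h : Casc pts H V β T Fam x s0 s)
    (A : ι) (hAH : A ∈ H) (hAD : A ∉ s.D) (hB : ∀ p ∈ pts A, p ∈ s.B → p ∈ s.E)
    (hc : (pts A \ (s.M ∪ s.E)).card ≤ β) (hne : (pts A).Nonempty) :
    Casc pts H V β T Fam x s0 (declare pts s0 s A) := by
  classical
  have hcore := h.core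
  have hD0 : s0.D ⊆ s.D := h.Dsub
  have hAD0 : A ∉ s0.D := fun hh => hAD (hD0 hh)
  have neA : ∀ C ∈ s.D, C ≠ A := fun C hC hh => hAD (hh ▸ hC)
  have hB0 : ∀ p ∈ pts A, p ∈ s0.B → p ∈ s0.E := by
    intro p hp hpB
    have hpB' : p ∈ s.B := by rw [h.Beq]; exact hpB
    have hpE := hB p hp hpB'
    by_contra hne
    exact (h.newE p hpE hne).2.1 hpB'
  have hroot : x ∉ pts A → ∃ p ∈ pts A, p ∈ s.E ∧ p ∉ s0.E := by
    intro hx
    by_contra hcon
    push Not at hcon
    have hlt := hpre.lt A hAH hAD0 hB0 hx
    have : (pts A \ (s0.M ∪ s0.E)).card ≤ (pts A \ (s.M ∪ s.E)).card := by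
      apply Finset.card_le_card
      intro p hp
      rw [mem_sdiff, mem_union] at hp ⊢
      refine ⟨hp.1, ?_⟩
      rintro (h1 | h1)
      · exact hp.2 (Or.inl (h.Meq ▸ h1))
      · exact hp.2 (Or.inr (hcon p hp.1 h1))
    omega
  obtain ⟨hcard, hlink⟩ := casc_parents pts H V β T Fam x s0 s hFam hT hpre h A hAH hAD hB hc
  set Par := (pts A ∩ s.E).biUnion (fun p => s.anc (s.ab p)) with hPar
  set G := (s.D \ s0.D).biUnion s.anc with hG
  -- members of the parents
  have hParD : Par ⊆ s.D := by
    intro C hC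
    rw [hPar, mem_biUnion] at hC
    obtain ⟨p, hp, hC⟩ := hC
    exact hcore.ancD _ (hcore.abD p (mem_inter.mp hp).2) hC
  have hGD : G ⊆ s.D := by
    intro C hC
    rw [hG, mem_biUnion] at hC
    obtain ⟨B, hB', hC⟩ := hC
    exact hcore.ancD _ (mem_sdiff.mp hB').1 hC
  have hParLinked : Linked pts Par A := by
    rw [hPar]
    apply linked_biUnion pts (pts A ∩ s.E) (fun p => s.anc (s.ab p)) (fun p => s.ab p) A
    intro p hp
    have hpE := (mem_inter.mp hp).2
    refine ⟨hcore.ancSelf _ (hcore.abD p hpE), hcore.ancLinked _ (hcore.abD p hpE), p, ?_⟩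
    exact mem_inter.mpr ⟨(mem_inter.mp hp).1, hcore.abp p hpE⟩
  -- the new family
  have hnew : ((declare pts s0 s A).D \ s0.D).biUnion (declare pts s0 s A).anc =
      insert A (G ∪ Par) := by
    rw [dec_D]
    ext C
    rw [mem_biUnion, mem_insert, mem_union]
    constructor
    · rintro ⟨K, hK, hC⟩
      rw [mem_sdiff, mem_insert] at hK
      rcases hK.1 with rfl | hK1
      · rw [dec_ancA, mem_insert] at hC
        rcases hC with h1 | h1
        · exact Or.inl h1
        · exact Or.inr (Or.inr h1)
      · rw [dec_anc _ _ _ _ _ (neA K hK1)] at hC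
        refine Or.inr (Or.inl ?_)
        rw [hG, mem_biUnion]
        exact ⟨K, mem_sdiff.mpr ⟨hK1, hK.2⟩, hC⟩
    · rintro (rfl | hC | hC)
      · exact ⟨C, mem_sdiff.mpr ⟨mem_insert_self _ _, hAD0⟩, by rw [dec_ancA]; exact mem_insert_self _ _⟩
      · rw [hG, mem_biUnion] at hC
        obtain ⟨K, hK, hC⟩ := hC
        rw [mem_sdiff] at hK
        refine ⟨K, mem_sdiff.mpr ⟨mem_insert_of_mem hK.1, hK.2⟩, ?_⟩
        rw [dec_anc _ _ _ _ _ (neA K hK.1)]
        exact hC
      · exact ⟨A, mem_sdiff.mpr ⟨mem_insert_self _ _, hAD0⟩, by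
          rw [dec_ancA]; exact mem_insert_of_mem hC⟩
  have hnewD : insert A (G ∪ Par) ⊆ (declare pts s0 s A).D := by
    rw [dec_D]
    apply insert_subset_insert
    exact union_subset hGD hParD
  have hnewanc : ∀ C ∈ insert A (G ∪ Par), (declare pts s0 s A).anc C ⊆ insert A (G ∪ Par) := by
    intro C hC
    rw [mem_insert, mem_union] at hC
    rcases hC with rfl | hC | hC
    · rw [dec_ancA]
      apply insert_subset_insert
      exact subset_union_right
    · rw [dec_anc _ _ _ _ _ (neA C (hGD hC))]
      rw [hG, mem_biUnion] at hC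
      obtain ⟨K, hK, hC⟩ := hC
      intro K' hK'
      apply mem_insert_of_mem
      apply mem_union_left
      rw [hG, mem_biUnion]
      exact ⟨K, hK, hcore.ancTrans K (mem_sdiff.mp hK).1 C hC hK'⟩
    · rw [dec_anc _ _ _ _ _ (neA C (hParD hC))]
      rw [hPar, mem_biUnion] at hC
      obtain ⟨p, hp, hC⟩ := hC
      intro K' hK'
      apply mem_insert_of_mem
      apply mem_union_right
      rw [hPar, mem_biUnion]
      exact ⟨p, hp, hcore.ancTrans _ (hcore.abD p (mem_inter.mp hp).2) C hC hK'⟩
  have hphi : Phi pts β Fam (declare pts s0 s A) < 1 :=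
    lt_of_le_of_lt (Phi_declare_le pts H V β T Fam s0 s hcore A hAD hB hc) h.phi
  have hlinkA : Linked pts (insert A (G ∪ Par)) A := linked_insert pts _ A hlink
  have hDH : (declare pts s0 s A).D ⊆ H := by
    rw [dec_D]
    exact insert_subset hAH hcore.DH
  have hcardnew : (insert A (G ∪ Par)).card ≤ T := by
    by_contra hgt
    push Not at hgt
    have hle : (insert A (G ∪ Par)).card ≤ 2 * T :=
      le_trans (card_insert_le _ _) (by omega)
    exact not_mem_of_Phi_lt pts β Fam _ _ hnewD hnewanc hphi
      (hFam _ (hnewD.trans hDH) hgt hle ⟨A, hAH, hlinkA⟩)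
  have hParcard : (insert A Par).card ≤ T :=
    le_trans (card_le_card (insert_subset_insert _ subset_union_right)) hcardnew
  have hgrpnew : ∀ p ∈ s.E, p ∉ s0.E → s.grp (s.ab p) = s0.M.card := by
    intro p hp hp0
    exact (h.newR (s.ab p) (hcore.abD p hp) (h.newE p hp hp0).2.2).2.2.2.2
  refine
    { core := ?_
      Meq := h.Meq
      Beq := h.Beq
      Esub := ?_
      Dsub := ?_
      ancEq := ?_
      abEq := ?_
      REq := ?_
      grpEq := ?_
      newE := ?_
      newR := ?_
      famCard := ?_
      famConn := ?_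
      root := ?_
      phi := hphi }
  · refine
      { MV := hcore.MV
        BV := hcore.BV
        MB := hcore.MB
        EV := ?_
        DH := hDH
        abD := ?_
        abp := ?_
        ancD := ?_
        ancSelf := ?_
        ancTrans := ?_
        ancLinked := ?_
        ancCard := ?_
        RE := ?_
        Rp := ?_
        Rg := ?_
        grpM := ?_ }
    · rw [dec_E]
      exact union_subset hcore.EV (sdiff_subset.trans (hV A hAH))
    · intro p hp
      rw [dec_D]
      by_cases hpE : p ∈ s.E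
      · rw [dec_abE _ _ _ _ _ hpE]
        exact mem_insert_of_mem (hcore.abD p hpE)
      · rw [dec_abN _ _ _ _ _ hpE]
        exact mem_insert_self _ _
    · intro p hp
      by_cases hpE : p ∈ s.E
      · rw [dec_abE _ _ _ _ _ hpE]
        exact hcore.abp p hpE
      · rw [dec_abN _ _ _ _ _ hpE]
        rw [dec_E, mem_union] at hp
        rcases hp with hp | hp
        · exact absurd hp hpE
        · exact (mem_sdiff.mp hp).1
    · intro C hC
      rw [dec_D] at hC ⊢
      rw [mem_insert] at hC
      rcases hC with rfl | hC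
      · rw [dec_ancA]
        exact insert_subset_insert _ hParD
      · rw [dec_anc _ _ _ _ _ (neA C hC)]
        exact (hcore.ancD C hC).trans (subset_insert _ _)
    · intro C hC
      rw [dec_D, mem_insert] at hC
      rcases hC with rfl | hC
      · rw [dec_ancA]
        exact mem_insert_self _ _
      · rw [dec_anc _ _ _ _ _ (neA C hC)]
        exact hcore.ancSelf C hC
    · intro C hC K hK
      rw [dec_D, mem_insert] at hC
      rcases hC with rfl | hC
      · rw [dec_ancA, mem_insert] at hK
        rcases hK with rfl | hK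
        · exact Subset.rfl
        · rw [dec_anc _ _ _ _ _ (neA K (hParD hK)), dec_ancA]
          rw [mem_biUnion] at hK
          obtain ⟨p, hp, hK⟩ := hK
          intro K' hK'
          apply mem_insert_of_mem
          rw [mem_biUnion]
          exact ⟨p, hp, hcore.ancTrans _ (hcore.abD p (mem_inter.mp hp).2) K hK hK'⟩
      · rw [dec_anc _ _ _ _ _ (neA C hC)] at hK ⊢
        rw [dec_anc _ _ _ _ _ (neA K (hcore.ancD C hC hK))]
        exact hcore.ancTrans C hC K hK
    · intro C hC
      rw [dec_D, mem_insert] at hC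
      rcases hC with rfl | hC
      · rw [dec_ancA]
        exact linked_insert pts _ _ hParLinked
      · rw [dec_anc _ _ _ _ _ (neA C hC)]
        exact hcore.ancLinked C hC
    · intro C hC
      rw [dec_D, mem_insert] at hC
      rcases hC with rfl | hC
      · rw [dec_ancA]
        exact hParcard
      · rw [dec_anc _ _ _ _ _ (neA C hC)]
        exact hcore.ancCard C hC
    · intro C hC
      rw [dec_D, mem_insert] at hC
      rcases hC with rfl | hC
      · rw [dec_RA, dec_E]
        intro p hp
        rw [mem_sdiff, mem_union] at hp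
        apply mem_union_right
        rw [mem_sdiff]
        refine ⟨hp.1, fun hpM => hp.2 (Or.inl ?_)⟩
        rw [← h.Meq]
        exact hpM
      · rw [dec_R _ _ _ _ _ (neA C hC), dec_E]
        exact (hcore.RE C hC).trans subset_union_left
    · intro C hC
      rw [dec_D, mem_insert] at hC
      rcases hC with rfl | hC
      · rw [dec_RA]
        exact sdiff_subset
      · rw [dec_R _ _ _ _ _ (neA C hC)]
        exact hcore.Rp C hC
    · intro C hC p hp
      rw [dec_D, mem_insert] at hC
      rcases hC with rfl | hC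
      · rw [dec_RA, mem_sdiff, mem_union] at hp
        rw [dec_grpA]
        by_cases hpE : p ∈ s.E
        · rw [dec_abE _ _ _ _ _ hpE, dec_grp _ _ _ _ _ (neA _ (hcore.abD p hpE))]
          exact hgrpnew p hpE (fun hh => hp.2 (Or.inr hh))
        · rw [dec_abN _ _ _ _ _ hpE, dec_grpA]
      · rw [dec_R _ _ _ _ _ (neA C hC)] at hp
        have hpE := hcore.RE C hC hp
        rw [dec_abE _ _ _ _ _ hpE, dec_grp _ _ _ _ _ (neA _ (hcore.abD p hpE)),
          dec_grp _ _ _ _ _ (neA C hC)]
        exact hcore.Rg C hC p hp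
    · intro C hC
      rw [dec_D, mem_insert] at hC
      rw [dec_M]
      rcases hC with rfl | hC
      · rw [dec_grpA, h.Meq]
      · rw [dec_grp _ _ _ _ _ (neA C hC)]
        exact hcore.grpM C hC
  · rw [dec_E]
    exact h.Esub.trans subset_union_left
  · rw [dec_D]
    exact h.Dsub.trans (subset_insert _ _)
  · intro C hC
    rw [dec_anc _ _ _ _ _ (neA C (hD0 hC))]
    exact h.ancEq C hC
  · intro p hp
    rw [dec_abE _ _ _ _ _ (h.Esub hp)]
    exact h.abEq p hp
  · intro C hC
    rw [dec_R _ _ _ _ _ (neA C (hD0 hC))]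
    exact h.REq C hC
  · intro C hC
    rw [dec_grp _ _ _ _ _ (neA C (hD0 hC))]
    exact h.grpEq C hC
  · intro p hp hp0
    rw [dec_M, dec_B]
    by_cases hpE : p ∈ s.E
    · rw [dec_abE _ _ _ _ _ hpE]
      exact h.newE p hpE hp0
    · rw [dec_abN _ _ _ _ _ hpE]
      rw [dec_E, mem_union] at hp
      rcases hp with hp | hp
      · exact absurd hp hpE
      · rw [mem_sdiff] at hp
        exact ⟨hp.2, fun hpB => hpE (hB p hp.1 hpB), hAD0⟩
  · intro C hC hC0
    rw [dec_D, mem_insert] at hC
    rw [dec_M, dec_B]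
    rcases hC with rfl | hC
    · rw [dec_RA, dec_grpA]
      refine ⟨rfl, hpre.le C hAH hAD0 hB0, ?_, ?_, rfl⟩
      · rw [Finset.disjoint_left]
        intro p hp hpM
        rw [mem_sdiff, mem_union] at hp
        apply hp.2
        left
        rw [← h.Meq]
        exact hpM
      · rw [Finset.disjoint_left]
        intro p hp hpB
        rw [mem_sdiff, mem_union] at hp
        apply hp.2
        right
        apply hB0 p hp.1
        rw [← h.Beq]
        exact hpB
    · rw [dec_R _ _ _ _ _ (neA C hC), dec_grp _ _ _ _ _ (neA C hC)]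
      exact h.newR C hC hC0
  · rw [hnew]
    exact hcardnew
  · rw [hnew]
    exact linked_conn pts _ A (mem_insert_self _ _) hlinkA
  · intro _
    rw [hnew]
    by_cases hx : x ∈ pts A
    · exact ⟨A, mem_insert_self _ _, hx⟩
    · obtain ⟨p, hp, hpE, hpE0⟩ := hroot hx
      have hne' : (s.D \ s0.D).Nonempty :=
        ⟨s.ab p, mem_sdiff.mpr ⟨hcore.abD p hpE, (h.newE p hpE hpE0).2.2⟩⟩
      obtain ⟨C, hC, hxC⟩ := h.root hne'
      exact ⟨C, mem_insert_of_mem (mem_union_left _ hC), hxC⟩

end Pool.Agent.Helper49.VW
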