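import Pool.Agent.Helper49.VW.SegDefs

set_option autoImplicit false

/-! VW-20a: code weights of lists. (helper87) -/

namespace Pool.Agent.Helper49.VW

open Finset

theorem code_append (J Q m : ℕ) (X K0 : ℝ) (l1 l2 : List (ℕ × ℕ)) :
    ∀ (U : Finset ℕ) (P : Finset (ℕ × ℕ)), code J Q m X K0 U P (l1 ++ l2) =
      code J Q m X K0 U P l1 * code J Q m X K0 (U ∪ upts m l1.toFinset) (P ∪ l1.toFinset) l2 := by
  induction l1 with
  | nil =>
    intro U P
    simp [code, upts]
  | cons a l ih =>
    intro U P
    rw [List.cons_append, code, code, ih, mul_assoc]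
    have h1 : U ∪ win m a ∪ upts m l.toFinset = U ∪ upts m (a :: l).toFinset := by
      rw [upts, upts, List.toFinset_cons, biUnion_insert, union_assoc]
    have h2 : insert a P ∪ l.toFinset = P ∪ (a :: l).toFinset := by
      ext x
      simp only [List.toFinset_cons, mem_union, mem_insert]
      tauto
    rw [h1, h2]

/-- All windows of a segment after the first are determined (second alternative of `Det`, equal
differences). -/
theorem code_tail (J Q m : ℕ) (hQ : 1 ≤ Q) (X K0 : ℝ) (a : ℕ × ℕ) (tl : List (ℕ × ℕ))
    (hch : ∀ k, ∀ hk : k < tl.length, ∃ b ∈ a :: tl.take k, Adj m b tl[k])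
    (U : Finset ℕ) (P : Finset (ℕ × ℕ)) (hU : win m a ⊆ U) (hP : a ∈ P) :
    code J Q m X K0 U P tl = (1 / K0) ^ tl.length := by
  induction tl using List.reverseRecOn with
  | nil => simp [code]
  | append_singleton l c ih =>
    rw [code_append, ih, List.length_append, List.length_singleton, pow_succ]
    · congr 1
      obtain ⟨b, hb, hadj⟩ := hch l.length (by simp)
      have e1 : (l ++ [c])[l.length]'(by simp) = c := by simp
      have e2 : (l ++ [c]).take l.length = l := by simp
      rw [e1] at hadj
      rw [e2] at hb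
      rw [code, code, mul_one, stepw, if_pos]
      right
      have hbU : win m b ⊆ U ∪ upts m l.toFinset := by
        rcases List.mem_cons.1 hb with rfl | hb
        · exact hU.trans subset_union_left
        · refine Subset.trans ?_ subset_union_right
          exact subset_biUnion_of_mem (win m) (List.mem_toFinset.2 hb)
      have hbP : b ∈ P ∪ l.toFinset := by
        rcases List.mem_cons.1 hb with rfl | hb
        · exact mem_union_left _ hP
        · exact mem_union_right _ (List.mem_toFinset.2 hb)
      refine ⟨?_, b, hbP, 1, 1, le_rfl, hQ, le_rfl, hQ, by rw [hadj.1]⟩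
      obtain ⟨x, hx⟩ := hadj.2
      rw [mem_inter] at hx
      exact ⟨x, mem_inter.2 ⟨hx.2, hbU hx.1⟩⟩
    · intro k hk
      obtain ⟨b, hb, hadj⟩ := hch k (by rw [List.length_append]; omega)
      have e1 : (l ++ [c])[k]'(by rw [List.length_append]; omega) = l[k] :=
        List.getElem_append_left hk
      have e2 : (l ++ [c]).take k = l.take k := by
        rw [List.take_append_of_le_length hk.le]
      rw [e1] at hadj
      rw [e2] at hb
      exact ⟨b, hb, hadj⟩

theorem flat_toFinset (m : ℕ) (F : Finset (ℕ × ℕ)) (W : Finset ℕ) (h : ℕ) (hd : ℕ → ℕ × ℕ)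
    (tl : ℕ → List (ℕ × ℕ)) (hs : SegOrder m F W h hd tl) : (flat h hd tl).toFinset = F := by
  rw [hs.cover]
  ext x
  simp [flat]

theorem flat_length (m : ℕ) (F : Finset (ℕ × ℕ)) (W : Finset ℕ) (h : ℕ) (hd : ℕ → ℕ × ℕ)
    (tl : ℕ → List (ℕ × ℕ)) (hs : SegOrder m F W h hd tl) :
    (flat h hd tl).length = F.card ∧ F.card = ∑ i ∈ Finset.range h, ((tl i).length + 1) := by
  have h1 : F.card = ∑ i ∈ Finset.range h, ((tl i).length + 1) := by
    rw [hs.cover, card_biUnion]
    · refine sum_congr rfl fun i hi => ?_
      rw [List.toFinset_card_of_nodup (hs.nodup i (mem_range.1 hi)), List.length_cons]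
    · intro i hi j hj hij
      rw [Function.onFun, disjoint_left]
      intro x hx hx'
      exact (hs.disj i (mem_range.1 hi) j (mem_range.1 hj) hij x (List.mem_toFinset.1 hx) x
        (List.mem_toFinset.1 hx')).1 rfl
  refine ⟨?_, h1⟩
  rw [h1, flat, List.length_flatMap]
  simp only [List.length_cons]
  clear h1 hs
  induction h with
  | zero => simp
  | succ n ih =>
    rw [List.range_succ, List.map_append, List.sum_append, ih, Finset.sum_range_succ]
    simp

end Pool.Agent.Helper49.VW
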