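import Pool.Agent.Helper49.VW.Cover

set_option autoImplicit false

/-! VW-10c: number of determined windows. -/

namespace Pool.Agent.Helper49.VW

open Finset

open Classical in
/-- Number of determined windows: two points of `U` and their (signed) positions, or a member of
`P`, the two integers of the quotient, a point of `U` and its position. -/
theorem card_det_le (N m l J Q : ℕ) (U : Finset ℕ) (P : Finset (ℕ × ℕ)) :
    ((wins N m l).filter (Det J Q m U P)).card ≤
      (U.card * (2 * J + 1)) ^ 2 + P.card * Q ^ 2 * (U.card * m) := by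
  set D1 : Finset (ℕ × ℤ) := U ×ˢ Finset.Icc (-(J : ℤ)) J with hD1
  set D2 : Finset (((ℕ × ℕ) × (ℕ × ℕ)) × (ℕ × ℕ)) :=
    (P ×ˢ (Finset.Icc 1 Q ×ˢ Finset.Icc 1 Q)) ×ˢ (U ×ˢ Finset.range m) with hD2
  set f1 : (ℕ × ℤ) × (ℕ × ℤ) → ℕ × ℕ := fun x =>
    (((x.1.1 : ℤ) - x.1.2 * (((x.1.1 : ℤ) - x.2.1) / (x.1.2 - x.2.2))).toNat,
      (((x.1.1 : ℤ) - x.2.1) / (x.1.2 - x.2.2)).toNat) with hf1
  set f2 : ((ℕ × ℕ) × (ℕ × ℕ)) × (ℕ × ℕ) → ℕ × ℕ := fun x =>
    (x.2.1 - x.2.2 * (x.1.1.2 * x.1.2.1 / x.1.2.2), x.1.1.2 * x.1.2.1 / x.1.2.2) with hf2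
  have hsub : (wins N m l).filter (Det J Q m U P) ⊆ (D1 ×ˢ D1).image f1 ∪ D2.image f2 := by
    intro a ha
    rw [Finset.mem_filter] at ha
    rw [Finset.mem_union, Finset.mem_image, Finset.mem_image]
    rcases ha.2 with ⟨p, hp, p', hp', hne, j, j', hj, hj', e1, e2⟩ | ⟨⟨u, hu⟩, b, hb, p, r, h1, h2,
      h3, h4, h5⟩
    · left
      refine ⟨((p, j), (p', j')), ?_, ?_⟩
      · rw [hD1, Finset.mem_product, Finset.mem_product, Finset.mem_product, Finset.mem_Icc,
          Finset.mem_Icc]
        exact ⟨⟨hp, abs_le.mp hj⟩, ⟨hp', abs_le.mp hj'⟩⟩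
      · have hjj : j - j' ≠ 0 := by
          intro h
          have h6 : j = j' := by omega
          rw [h6, ← e2] at e1
          exact hne (by exact_mod_cast e1)
        have h7 : (p : ℤ) - p' = (j - j') * a.2 := by
          rw [e1, e2]; ring
        have h8 : ((p : ℤ) - p') / (j - j') = a.2 := by
          rw [h7, Int.mul_ediv_cancel_left _ hjj]
        simp only [hf1]
        rw [h8]
        have h9 : (p : ℤ) - j * a.2 = a.1 := by rw [e1]; ring
        rw [h9]
        simp
    · right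
      rw [Finset.mem_inter] at hu
      obtain ⟨hu1, hu2⟩ := hu
      unfold win at hu1
      rw [Finset.mem_image] at hu1
      obtain ⟨i, hi, hiu⟩ := hu1
      refine ⟨((b, (p, r)), (u, i)), ?_, ?_⟩
      · rw [hD2, Finset.mem_product, Finset.mem_product, Finset.mem_product, Finset.mem_product,
          Finset.mem_Icc, Finset.mem_Icc]
        exact ⟨⟨hb, ⟨⟨h1, h2⟩, ⟨h3, h4⟩⟩⟩, ⟨hu2, hi⟩⟩
      · have h6 : b.2 * p / r = a.2 := by
          rw [← h5]
          exact Nat.mul_div_cancel _ (by omega)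
        simp only [hf2]
        rw [h6, ← hiu]
        have h7 : a.1 + i * a.2 - i * a.2 = a.1 := by omega
        rw [h7]
  refine (Finset.card_le_card hsub).trans ((Finset.card_union_le _ _).trans ?_)
  refine Nat.add_le_add ?_ ?_
  · refine Finset.card_image_le.trans (le_of_eq ?_)
    rw [Finset.card_product, hD1, Finset.card_product, Int.card_Icc, pow_two]
    have : ((J : ℤ) + 1 - -(J : ℤ)).toNat = 2 * J + 1 := by omega
    rw [this]
  · refine Finset.card_image_le.trans (le_of_eq ?_)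
    rw [hD2, Finset.card_product, Finset.card_product, Finset.card_product, Finset.card_product,
      Nat.card_Icc, Finset.card_range, Nat.add_sub_cancel, pow_two]

end Pool.Agent.Helper49.VW
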