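import Pool.Agent.Helper49.VW.CountMeets
import Pool.Agent.Helper49.VW.CountDet

set_option autoImplicit false

/-! VW-11: the sum of the code weights. -/

namespace Pool.Agent.Helper49.VW

open Finset

theorem stepw_nonneg (J Q m : ℕ) (X K0 : ℝ) (hX : 0 < X) (hK : 0 < K0) (U : Finset ℕ)
    (P : Finset (ℕ × ℕ)) (a : ℕ × ℕ) : 0 ≤ stepw J Q m X K0 U P a := by
  unfold stepw
  split_ifs <;> positivity

theorem code_nonneg (J Q m : ℕ) (X K0 : ℝ) (hX : 0 < X) (hK : 0 < K0) (U : Finset ℕ)
    (P : Finset (ℕ × ℕ)) (l : List (ℕ × ℕ)) : 0 ≤ code J Q m X K0 U P l := by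
  induction l generalizing U P with
  | nil => simp [code]
  | cons a l ih =>
    rw [code]
    exact mul_nonneg (stepw_nonneg J Q m X K0 hX hK U P a) (ih _ _)

/-- One step: `#meets / X + #det / K0 ≤ 2`. -/
theorem stepw_sum_le (N m l J Q u t : ℕ) (X K0 : ℝ) (hm : 2 ≤ m) (hX : 0 < X) (hK : 0 < K0)
    (hXu : ((u * (2 * N) : ℕ) : ℝ) ≤ X)
    (hKu : (((u * (2 * J + 1)) ^ 2 + t * Q ^ 2 * (u * m) : ℕ) : ℝ) ≤ K0)
    (U : Finset ℕ) (P : Finset (ℕ × ℕ)) (hU : U.card ≤ u) (hP : P.card ≤ t) :
    ∑ a ∈ wins N m l, stepw J Q m X K0 U P a ≤ 2 := by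
  classical
  have h1 : ∀ a ∈ wins N m l, stepw J Q m X K0 U P a ≤
      (if Det J Q m U P a then 1 / K0 else 0) + (if (win m a ∩ U).Nonempty then 1 / X else 0) := by
    intro a _
    unfold stepw
    split_ifs
    · have : 0 ≤ 1 / X := by positivity
      linarith
    · linarith
    · linarith
    · linarith
  refine (Finset.sum_le_sum h1).trans ?_
  rw [Finset.sum_add_distrib, ← Finset.sum_filter, ← Finset.sum_filter, Finset.sum_const,
    Finset.sum_const, nsmul_eq_mul, nsmul_eq_mul]
  have h2 : (((wins N m l).filter (Det J Q m U P)).card : ℝ) ≤ K0 := by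
    refine le_trans ?_ hKu
    have h3 := card_det_le N m l J Q U P
    have h4 : (U.card * (2 * J + 1)) ^ 2 + P.card * Q ^ 2 * (U.card * m) ≤
        (u * (2 * J + 1)) ^ 2 + t * Q ^ 2 * (u * m) := by gcongr
    exact_mod_cast h3.trans h4
  have h5 : (((wins N m l).filter (fun a => (win m a ∩ U).Nonempty)).card : ℝ) ≤ X := by
    refine le_trans ?_ hXu
    have h6 := card_meets_le N m l hm U
    have h7 : U.card * (2 * N) ≤ u * (2 * N) := by gcongr
    exact_mod_cast h6.trans h7
  have h8 : (((wins N m l).filter (Det J Q m U P)).card : ℝ) * (1 / K0) ≤ 1 := by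
    rw [mul_one_div, div_le_one hK]
    exact h2
  have h9 : (((wins N m l).filter (fun a => (win m a ∩ U).Nonempty)).card : ℝ) * (1 / X) ≤ 1 := by
    rw [mul_one_div, div_le_one hX]
    exact h5
  linarith

/-- Induction on `k` (lists of length `k`): split off the first window. -/
theorem code_sum_le (N m l J Q u t : ℕ) (X K0 : ℝ) (hm : 2 ≤ m) (hX : 0 < X) (hK : 0 < K0)
    (hXu : ((u * (2 * N) : ℕ) : ℝ) ≤ X)
    (hKu : (((u * (2 * J + 1)) ^ 2 + t * Q ^ 2 * (u * m) : ℕ) : ℝ) ≤ K0) (k : ℕ) :
    ∀ (U : Finset ℕ) (P : Finset (ℕ × ℕ)), U.card + k * m ≤ u → P.card + k ≤ t →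
    ∀ S : Finset (List (ℕ × ℕ)), (∀ c ∈ S, c.length = k ∧ ∀ a ∈ c, a ∈ wins N m l) →
    ∑ c ∈ S, code J Q m X K0 U P c ≤ 2 ^ k := by
  classical
  induction k with
  | zero =>
    intro U P _ _ S hS
    have hsub : S ⊆ {[]} := by
      intro c hc
      rw [Finset.mem_singleton]
      exact List.eq_nil_of_length_eq_zero (hS c hc).1
    calc ∑ c ∈ S, code J Q m X K0 U P c ≤ ∑ c ∈ {[]}, code J Q m X K0 U P c :=
          Finset.sum_le_sum_of_subset_of_nonneg hsub
            fun c _ _ => code_nonneg J Q m X K0 hX hK U P c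
      _ = 1 := by simp [code]
      _ ≤ 2 ^ 0 := by norm_num
  | succ k ih =>
    intro U P hU hP S hS
    set S' : Finset (List (ℕ × ℕ)) := S.image List.tail with hS'
    have hS'1 : ∀ c ∈ S', c.length = k ∧ ∀ a ∈ c, a ∈ wins N m l := by
      intro c hc
      obtain ⟨d, hd, rfl⟩ := Finset.mem_image.1 hc
      obtain ⟨h1, h2⟩ := hS d hd
      exact ⟨by rw [List.length_tail, h1]; rfl, fun a ha => h2 a (List.mem_of_mem_tail ha)⟩
    have hsub : S ⊆ (wins N m l ×ˢ S').image (fun p => p.1 :: p.2) := by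
      intro c hc
      obtain ⟨h1, h2⟩ := hS c hc
      cases c with
      | nil => simp at h1
      | cons a d =>
        rw [Finset.mem_image]
        refine ⟨(a, d), Finset.mem_product.2 ⟨h2 a (by simp), ?_⟩, rfl⟩
        exact Finset.mem_image.2 ⟨a :: d, hc, rfl⟩
    have hwin : ∀ a : ℕ × ℕ, (win m a).card ≤ m := fun a => by
      unfold win
      exact Finset.card_image_le.trans (by simp)
    calc ∑ c ∈ S, code J Q m X K0 U P c
        ≤ ∑ c ∈ (wins N m l ×ˢ S').image (fun p => p.1 :: p.2), code J Q m X K0 U P c :=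
          Finset.sum_le_sum_of_subset_of_nonneg hsub
            fun c _ _ => code_nonneg J Q m X K0 hX hK U P c
      _ = ∑ p ∈ wins N m l ×ˢ S', code J Q m X K0 U P (p.1 :: p.2) := by
          rw [Finset.sum_image]
          intro p _ q _ hpq
          simp only [List.cons.injEq] at hpq
          exact Prod.ext hpq.1 hpq.2
      _ = ∑ a ∈ wins N m l, stepw J Q m X K0 U P a *
            ∑ d ∈ S', code J Q m X K0 (U ∪ win m a) (insert a P) d := by
          rw [Finset.sum_product]
          refine Finset.sum_congr rfl fun a _ => ?_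
          rw [Finset.mul_sum]
          exact Finset.sum_congr rfl fun d _ => rfl
      _ ≤ ∑ a ∈ wins N m l, stepw J Q m X K0 U P a * 2 ^ k := by
          refine Finset.sum_le_sum fun a _ => ?_
          refine mul_le_mul_of_nonneg_left ?_ (stepw_nonneg J Q m X K0 hX hK U P a)
          refine ih _ _ ?_ ?_ S' hS'1
          · have h1 := Finset.card_union_le U (win m a)
            have h2 := hwin a
            have h3 : (k + 1) * m = k * m + m := by ring
            omega
          · have h1 := Finset.card_insert_le a P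
            omega
      _ = (∑ a ∈ wins N m l, stepw J Q m X K0 U P a) * 2 ^ k := by rw [Finset.sum_mul]
      _ ≤ 2 * 2 ^ k := by
          refine mul_le_mul_of_nonneg_right ?_ (by positivity)
          refine stepw_sum_le N m l J Q u t X K0 hm hX hK hXu hKu U P ?_ ?_
          · exact (Nat.le_add_right _ _).trans hU
          · exact (Nat.le_add_right _ _).trans hP
      _ = 2 ^ (k + 1) := by ring

end Pool.Agent.Helper49.VW
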