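import Pool.Agent.Helper49.VW.CodeSum

set_option autoImplicit false

/-! VW-11b: the sum over the families. -/

namespace Pool.Agent.Helper49.VW

open Finset

/-- Sum over a collection of families each of which has a good code.  Choose for every `F` a pair
`(L, c)`; `F ↦ (L, c)` is injective as `F = c.toFinset`; sum over `L`, over the length and over the
lists. -/
theorem sum_le_of_codes (N m l J Q u t r : ℕ) (X K0 : ℝ) (hm : 2 ≤ m) (hX : 0 < X) (hK : 0 < K0)
    (hXu : ((u * (2 * N) : ℕ) : ℝ) ≤ X)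
    (hKu : (((u * (2 * J + 1)) ^ 2 + t * Q ^ 2 * (u * m) : ℕ) : ℝ) ≤ K0)
    (hu : m + r * m ≤ u) (ht : r ≤ t)
    (Fam : Finset (Finset (ℕ × ℕ))) (hFam : ∀ F ∈ Fam, F ⊆ wins N m l)
    (w : Finset (ℕ × ℕ) → ℝ) (c : ℝ) (hc : 0 ≤ c)
    (h : ∀ F ∈ Fam, ∃ L ∈ wins N m l, ∃ lst : List (ℕ × ℕ), lst.length ≤ r ∧
      lst.toFinset = F ∧ w F ≤ c * code J Q m X K0 (win m L) ∅ lst) :
    ∑ F ∈ Fam, w F ≤ c * (wins N m l).card * 2 ^ (r + 1) := by
  classical
  have h' : ∀ F : Finset (ℕ × ℕ), ∃ p : (ℕ × ℕ) × List (ℕ × ℕ), F ∈ Fam →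
      p.1 ∈ wins N m l ∧ p.2.length ≤ r ∧ p.2.toFinset = F ∧
        w F ≤ c * code J Q m X K0 (win m p.1) ∅ p.2 := by
    intro F
    by_cases hF : F ∈ Fam
    · obtain ⟨L, hL, lst, h1, h2, h3⟩ := h F hF
      exact ⟨(L, lst), fun _ => ⟨hL, h1, h2, h3⟩⟩
    · exact ⟨((0, 0), []), fun hF' => absurd hF' hF⟩
  choose φ hφ using h'
  set T : Finset (List (ℕ × ℕ)) := Fam.image (fun F => (φ F).2) with hT
  have hT1 : ∀ d ∈ T, d.length ≤ r ∧ ∀ a ∈ d, a ∈ wins N m l := by
    intro d hd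
    obtain ⟨F, hF, rfl⟩ := Finset.mem_image.1 hd
    obtain ⟨h1, h2, h3, h4⟩ := hφ F hF
    refine ⟨h2, fun a ha => hFam F hF ?_⟩
    rw [← h3]
    exact List.mem_toFinset.2 ha
  have hnn : ∀ (U : Finset ℕ) (P : Finset (ℕ × ℕ)) (d : List (ℕ × ℕ)),
      0 ≤ code J Q m X K0 U P d := code_nonneg J Q m X K0 hX hK
  have hwin : ∀ a : ℕ × ℕ, (win m a).card ≤ m := fun a => by
    unfold win
    exact Finset.card_image_le.trans (by simp)
  have hL : ∀ L ∈ wins N m l, ∑ d ∈ T, code J Q m X K0 (win m L) ∅ d ≤ 2 ^ (r + 1) := by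
    intro L _
    have h1 : ∑ d ∈ T, code J Q m X K0 (win m L) ∅ d =
        ∑ k ∈ Finset.range (r + 1), ∑ d ∈ T.filter (fun d => d.length = k),
          code J Q m X K0 (win m L) ∅ d := by
      rw [Finset.sum_fiberwise_of_maps_to]
      intro d hd
      exact Finset.mem_range.2 (Nat.lt_succ_of_le (hT1 d hd).1)
    rw [h1]
    calc ∑ k ∈ Finset.range (r + 1), ∑ d ∈ T.filter (fun d => d.length = k),
          code J Q m X K0 (win m L) ∅ d ≤ ∑ k ∈ Finset.range (r + 1), (2 : ℝ) ^ k := by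
          refine Finset.sum_le_sum fun k hk => ?_
          have hk' : k ≤ r := Nat.lt_succ_iff.1 (Finset.mem_range.1 hk)
          refine code_sum_le N m l J Q u t X K0 hm hX hK hXu hKu k (win m L) ∅ ?_ ?_ _ ?_
          · have h2 := hwin L
            have h3 : k * m ≤ r * m := Nat.mul_le_mul_right m hk'
            omega
          · rw [Finset.card_empty]
            omega
          · intro d hd
            obtain ⟨h4, h5⟩ := Finset.mem_filter.1 hd
            exact ⟨h5, (hT1 d h4).2⟩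
      _ ≤ 2 ^ (r + 1) := by
          have h2 := geom_sum_eq (show (2 : ℝ) ≠ 1 by norm_num) (r + 1)
          rw [h2]
          have : (0 : ℝ) < 2 ^ (r + 1) := by positivity
          linarith
  calc ∑ F ∈ Fam, w F ≤ ∑ F ∈ Fam, c * code J Q m X K0 (win m (φ F).1) ∅ (φ F).2 :=
        Finset.sum_le_sum fun F hF => (hφ F hF).2.2.2
    _ = ∑ p ∈ Fam.image φ, c * code J Q m X K0 (win m p.1) ∅ p.2 := by
        rw [Finset.sum_image]
        intro F hF G hG hFG
        rw [← (hφ F hF).2.2.1, ← (hφ G hG).2.2.1, hFG]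
    _ ≤ ∑ p ∈ wins N m l ×ˢ T, c * code J Q m X K0 (win m p.1) ∅ p.2 := by
        refine Finset.sum_le_sum_of_subset_of_nonneg ?_ fun p _ _ => mul_nonneg hc (hnn _ _ _)
        intro p hp
        obtain ⟨F, hF, rfl⟩ := Finset.mem_image.1 hp
        exact Finset.mem_product.2 ⟨(hφ F hF).1, Finset.mem_image_of_mem _ hF⟩
    _ = ∑ L ∈ wins N m l, c * ∑ d ∈ T, code J Q m X K0 (win m L) ∅ d := by
        rw [Finset.sum_product]
        exact Finset.sum_congr rfl fun L _ => by rw [Finset.mul_sum]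
    _ ≤ ∑ L ∈ wins N m l, c * 2 ^ (r + 1) :=
        Finset.sum_le_sum fun L hL' => mul_le_mul_of_nonneg_left (hL L hL') hc
    _ = c * (wins N m l).card * 2 ^ (r + 1) := by
        rw [Finset.sum_const, nsmul_eq_mul]
        ring

end Pool.Agent.Helper49.VW
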