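import Pool.Agent.Helper49.VW.Cover

set_option autoImplicit false

/-! VW-10b: number of windows which meet a set. (helper87) -/

namespace Pool.Agent.Helper49.VW

open Finset

/-- Number of windows which meet `U`: choose the point, its position, and the difference
`d ≤ N / (m - 1)`; `m * (N / (m - 1)) ≤ 2 * N`. -/
theorem card_meets_le (N m l : ℕ) (hm : 2 ≤ m) (U : Finset ℕ) :
    ((wins N m l).filter (fun a => (win m a ∩ U).Nonempty)).card ≤ U.card * (2 * N) := by
  have hsub : (wins N m l).filter (fun a => (win m a ∩ U).Nonempty) ⊆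
      (U ×ˢ (Finset.range m ×ˢ Finset.Icc 1 (N / (m - 1)))).image
        (fun t => (t.1 - t.2.1 * t.2.2, t.2.2)) := by
    intro a ha
    rw [mem_filter, wins, mem_filter, mem_product, mem_Icc, mem_Icc] at ha
    obtain ⟨⟨⟨ha1, ha2⟩, ha3, -⟩, p, hp⟩ := ha
    rw [mem_inter, win, mem_image] at hp
    obtain ⟨⟨j, hj, rfl⟩, hpU⟩ := hp
    rw [mem_image]
    refine ⟨(a.1 + j * a.2, j, a.2), ?_, ?_⟩
    · rw [mem_product, mem_product, mem_Icc]
      refine ⟨hpU, hj, ha2.1, ?_⟩
      rw [Nat.le_div_iff_mul_le (by omega)]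
      rw [mul_comm]
      show (m - 1) * a.2 ≤ N
      omega
    · apply Prod.ext
      · simp only
        omega
      · rfl
  refine (card_le_card hsub).trans (card_image_le.trans ?_)
  rw [card_product, card_product, card_range, Nat.card_Icc, Nat.add_sub_cancel]
  apply Nat.mul_le_mul_left
  have h1 : (m - 1) * (N / (m - 1)) ≤ N := Nat.mul_div_le N (m - 1)
  have h2 : m * (N / (m - 1)) ≤ (2 * (m - 1)) * (N / (m - 1)) :=
    Nat.mul_le_mul_right _ (by omega)
  calc m * (N / (m - 1)) ≤ (2 * (m - 1)) * (N / (m - 1)) := h2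
    _ = 2 * ((m - 1) * (N / (m - 1))) := by ring
    _ ≤ 2 * N := Nat.mul_le_mul_left _ h1

end Pool.Agent.Helper49.VW
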