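import Mathlib

set_option autoImplicit false

/-!
# Van der Waerden game, upper half: definitions

Breaker (second player) against `n`-term arithmetic progressions in `{1, .., N}`, `N ≤ 2^n / n^C`.
-/

namespace Pool.Agent.Helper49.VW

open Finset

/-! ## abstract part -/

/-- Every member of `F` can be reached from `L` by a chain whose members (after `L`) lie in `F` and
in which consecutive members have a common point. -/
def Linked {ι : Type} (pts : ι → Finset ℕ) (F : Finset ι) (L : ι) : Prop :=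
  ∀ A ∈ F, Relation.ReflTransGen (fun X Y => Y ∈ F ∧ (pts X ∩ pts Y).Nonempty) L A

/-- An invariant with which Breaker (moving second) avoids the bad sets of Maker's points. -/
structure BInv (V : Finset ℕ) (bad : Finset ℕ → Prop) (Inv : Finset ℕ → Finset ℕ → Prop) :
    Prop where
  start : Inv ∅ ∅
  sub : ∀ M B, Inv M B → M ⊆ V
  good : ∀ M B x, Inv M B → x ∈ V → x ∉ M → x ∉ B → ¬ bad (insert x M)
  step : ∀ M B x, Inv M B → x ∈ V → x ∉ M → x ∉ B →
    (∃ y ∈ V, y ∉ insert x M ∧ y ∉ B) →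
    ∃ y ∈ V, y ∉ insert x M ∧ y ∉ B ∧ Inv (insert x M) (insert y B)

/-- State of Breaker's bookkeeping: `M`, `B` points of Maker and Breaker, `E` emergency room
(absorbed points), `D` declared sets, `anc A` ancestor closure of a declared set `A` (contains `A`),
`ab p` the declared set which absorbed the point `p ∈ E`, `R A` the protective set of `A`, `grp A`
the time group of `A`. -/
structure St (ι : Type) where
  M : Finset ℕ
  B : Finset ℕ
  E : Finset ℕ
  D : Finset ι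
  anc : ι → Finset ι
  ab : ℕ → ι
  R : ι → Finset ℕ
  grp : ι → ℕ

section

variable {ι : Type} [DecidableEq ι]

/-- unclaimed big board points of the undeclared members of `F` -/
def unc (pts : ι → Finset ℕ) (s : St ι) (F : Finset ι) : Finset ℕ :=
  (F \ s.D).biUnion pts \ (s.M ∪ s.E)

/-- `F` is still in the race: its declared members are ancestor closed, the absorbed points of its
undeclared members were absorbed by members of `F`, and Breaker has no big board point in an undeclared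
member. -/
def Ok (pts : ι → Finset ℕ) (s : St ι) (F : Finset ι) : Prop :=
  (∀ A ∈ F, A ∈ s.D → s.anc A ⊆ F) ∧
  (∀ A ∈ F, A ∉ s.D → (∀ p ∈ pts A, p ∈ s.E → s.ab p ∈ F) ∧ (∀ p ∈ pts A, p ∈ s.B → p ∈ s.E))

open Classical in
/-- weight of a family -/
noncomputable def wt (pts : ι → Finset ℕ) (β : ℕ) (s : St ι) (F : Finset ι) : ℝ :=
  if Ok pts s F then
    (2 : ℝ) ^ (((β * (F \ s.D).card : ℕ) : ℤ) - ((unc pts s F).card : ℤ)) else 0

/-- big potential -/
noncomputable def Phi (pts : ι → Finset ℕ) (β : ℕ) (Fam : Finset (Finset ι)) (s : St ι) : ℝ :=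
  ∑ F ∈ Fam, wt pts β s F

/-- big potential at a point -/
noncomputable def PhiAt (pts : ι → Finset ℕ) (β : ℕ) (Fam : Finset (Finset ι)) (s : St ι)
    (z : ℕ) : ℝ :=
  ∑ F ∈ Fam, if z ∈ unc pts s F then wt pts β s F else 0

/-- small potential of the group `g` -/
noncomputable def q (s : St ι) (g : ℕ) : ℝ :=
  ∑ A ∈ s.D, if s.grp A = g ∧ Disjoint (s.R A) s.B then (1 / 2 : ℝ) ^ (s.R A \ s.M).card else 0

/-- small potential of the group `g` at a point -/
noncomputable def qAt (s : St ι) (g : ℕ) (z : ℕ) : ℝ :=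
  ∑ A ∈ s.D, if (s.grp A = g ∧ Disjoint (s.R A) s.B) ∧ z ∈ s.R A then
    (1 / 2 : ℝ) ^ (s.R A \ s.M).card else 0

/-- structural facts about a state -/
structure Core (pts : ι → Finset ℕ) (H : Finset ι) (V : Finset ℕ) (T : ℕ) (s : St ι) : Prop where
  MV : s.M ⊆ V
  BV : s.B ⊆ V
  MB : Disjoint s.M s.B
  EV : s.E ⊆ V
  DH : s.D ⊆ H
  abD : ∀ p ∈ s.E, s.ab p ∈ s.D
  abp : ∀ p ∈ s.E, p ∈ pts (s.ab p)
  ancD : ∀ A ∈ s.D, s.anc A ⊆ s.D
  ancSelf : ∀ A ∈ s.D, A ∈ s.anc A
  ancTrans : ∀ A ∈ s.D, ∀ C ∈ s.anc A, s.anc C ⊆ s.anc A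
  ancLinked : ∀ A ∈ s.D, Linked pts (s.anc A) A
  ancCard : ∀ A ∈ s.D, (s.anc A).card ≤ T
  RE : ∀ A ∈ s.D, s.R A ⊆ s.E
  Rp : ∀ A ∈ s.D, s.R A ⊆ pts A
  Rg : ∀ A ∈ s.D, ∀ p ∈ s.R A, s.grp (s.ab p) = s.grp A
  grpM : ∀ A ∈ s.D, s.grp A ≤ s.M.card

/-- no undeclared set which is free of Breaker's big board points has at most `β` unclaimed big board
points -/
def Closed (pts : ι → Finset ℕ) (H : Finset ι) (β : ℕ) (s : St ι) : Prop :=
  ∀ A ∈ H, A ∉ s.D → (∀ p ∈ pts A, p ∈ s.B → p ∈ s.E) → β < (pts A \ (s.M ∪ s.E)).card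

/-- Breaker's invariant when it is Maker's turn -/
structure Good (pts : ι → Finset ℕ) (H : Finset ι) (V : Finset ℕ) (β T : ℕ)
    (Fam : Finset (Finset ι)) (s : St ι) : Prop where
  core : Core pts H V T s
  closed : Closed pts H β s
  big1 : Phi pts β Fam s < 1
  big2 : ∀ z ∈ V, z ∉ s.M → z ∉ s.B → z ∉ s.E → Phi pts β Fam s + PhiAt pts β Fam s z < 1
  small1 : ∀ g, q s g < 1
  small2 : ∀ z ∈ s.E, z ∉ s.M → z ∉ s.B →
    q s (s.grp (s.ab z)) + qAt s (s.grp (s.ab z)) z < 1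

/-- the families used in the big potential -/
def FamT (pts : ι → Finset ℕ) (H : Finset ι) (T : ℕ) (Fam : Finset (Finset ι)) : Prop :=
  ∀ F ⊆ H, T < F.card → F.card ≤ 2 * T → (∃ L ∈ H, Linked pts F L) → F ∈ Fam

/-- a state reached from `s0` during the cascade after Maker's move `x` -/
structure Casc (pts : ι → Finset ℕ) (H : Finset ι) (V : Finset ℕ) (β T : ℕ)
    (Fam : Finset (Finset ι)) (x : ℕ) (s0 s : St ι) : Prop where
  core : Core pts H V T s
  Meq : s.M = s0.M
  Beq : s.B = s0.B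
  Esub : s0.E ⊆ s.E
  Dsub : s0.D ⊆ s.D
  ancEq : ∀ A ∈ s0.D, s.anc A = s0.anc A
  abEq : ∀ p ∈ s0.E, s.ab p = s0.ab p
  REq : ∀ A ∈ s0.D, s.R A = s0.R A
  grpEq : ∀ A ∈ s0.D, s.grp A = s0.grp A
  newE : ∀ p ∈ s.E, p ∉ s0.E → p ∉ s.M ∧ p ∉ s.B ∧ s.ab p ∉ s0.D
  newR : ∀ A ∈ s.D, A ∉ s0.D → s.R A = pts A \ (s0.M ∪ s0.E) ∧ β ≤ (s.R A).card ∧
    Disjoint (s.R A) s.M ∧ Disjoint (s.R A) s.B ∧ s.grp A = s0.M.card
  famCard : ((s.D \ s0.D).biUnion s.anc).card ≤ T
  famConn : ∀ C ∈ (s.D \ s0.D).biUnion s.anc, Linked pts ((s.D \ s0.D).biUnion s.anc) C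
  root : (s.D \ s0.D).Nonempty → ∃ C ∈ (s.D \ s0.D).biUnion s.anc, x ∈ pts C
  phi : Phi pts β Fam s < 1

/-- what is known about the state `s0` directly after Maker's move `x` outside the emergency room -/
structure PreClosed (pts : ι → Finset ℕ) (H : Finset ι) (β : ℕ) (x : ℕ) (s0 : St ι) : Prop where
  le : ∀ A ∈ H, A ∉ s0.D → (∀ p ∈ pts A, p ∈ s0.B → p ∈ s0.E) →
    β ≤ (pts A \ (s0.M ∪ s0.E)).card
  lt : ∀ A ∈ H, A ∉ s0.D → (∀ p ∈ pts A, p ∈ s0.B → p ∈ s0.E) → x ∉ pts A →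
    β < (pts A \ (s0.M ∪ s0.E)).card

open Classical in
/-- declare the set `A` in the group `g` (with `s0` the state at the beginning of the cascade) -/
noncomputable def declare (pts : ι → Finset ℕ) (s0 s : St ι) (A : ι) : St ι where
  M := s.M
  B := s.B
  E := s.E ∪ (pts A \ s.M)
  D := insert A s.D
  anc := Function.update s.anc A (insert A ((pts A ∩ s.E).biUnion (fun p => s.anc (s.ab p))))
  ab := fun p => if p ∈ s.E then s.ab p else A
  R := Function.update s.R A (pts A \ (s0.M ∪ s0.E))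
  grp := Function.update s.grp A s0.M.card

end

/-! ## arithmetic progressions -/

/-- the `m`-term progression with first term `a.1` and difference `a.2` -/
def win (m : ℕ) (a : ℕ × ℕ) : Finset ℕ := (Finset.range m).image (fun j => a.1 + j * a.2)

/-- the windows: `m`-term progressions in `{1, .., N}` whose position on their line is a multiple
of `l` -/
def wins (N m l : ℕ) : Finset (ℕ × ℕ) :=
  ((Finset.Icc 1 N) ×ˢ (Finset.Icc 1 N)).filter
    (fun a => a.1 + (m - 1) * a.2 ≤ N ∧ l ∣ (a.1 - 1) / a.2)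

/-- `a / b` is a quotient of two positive integers which are at most `Q` -/
def Comm (Q a b : ℕ) : Prop :=
  ∃ p r : ℕ, 1 ≤ p ∧ p ≤ Q ∧ 1 ≤ r ∧ r ≤ Q ∧ a * r = b * p

/-- The window `a` is determined by few data: two points of `U` lie on its line at distance at most
`J` from its start, or it meets `U` and its difference is commensurable to the difference of a member
of `P`. -/
def Det (J Q m : ℕ) (U : Finset ℕ) (P : Finset (ℕ × ℕ)) (a : ℕ × ℕ) : Prop :=
  (∃ p ∈ U, ∃ p' ∈ U, p ≠ p' ∧ ∃ j j' : ℤ, |j| ≤ J ∧ |j'| ≤ J ∧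
    (p : ℤ) = a.1 + j * a.2 ∧ (p' : ℤ) = a.1 + j' * a.2) ∨
  ((win m a ∩ U).Nonempty ∧ ∃ b ∈ P, Comm Q a.2 b.2)

open Classical in
/-- weight of the next window in a code -/
noncomputable def stepw (J Q m : ℕ) (X K0 : ℝ) (U : Finset ℕ) (P : Finset (ℕ × ℕ))
    (a : ℕ × ℕ) : ℝ :=
  if Det J Q m U P a then 1 / K0 else if (win m a ∩ U).Nonempty then 1 / X else 0

/-- weight of a list of windows -/
noncomputable def code (J Q m : ℕ) (X K0 : ℝ) :
    Finset ℕ → Finset (ℕ × ℕ) → List (ℕ × ℕ) → ℝ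
  | _, _, [] => 1
  | U, P, a :: l => stepw J Q m X K0 U P a * code J Q m X K0 (U ∪ win m a) (insert a P) l

/-- union of the windows of a family -/
def upts (m : ℕ) (F : Finset (ℕ × ℕ)) : Finset ℕ := F.biUnion (win m)

/-- windows with the same difference and a common point -/
def Adj (m : ℕ) (a b : ℕ × ℕ) : Prop := a.2 = b.2 ∧ (win m a ∩ win m b).Nonempty

end Pool.Agent.Helper49.VW
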