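import Pool.Agent.Helper49.VW.SegDefs

set_option autoImplicit false

/-! VW-17: enumerations of connected finite sets. -/

namespace Pool.Agent.Helper49.VW

open Finset

private theorem enum_exit {α : Type} {R : α → α → Prop} {y x : α} (A : α → Prop)
    (h : Relation.ReflTransGen R y x) (hy : A y) (hx : ¬ A x) :
    ∃ u v, A u ∧ ¬ A v ∧ R u v := by
  induction h with
  | refl => exact absurd hy hx
  | @tail b c hbc hc ih =>
    by_cases hb : A b
    · exact ⟨b, c, hb, hx, hc⟩
    · exact ih hb

private theorem enum_key {α : Type} [DecidableEq α] (S : Finset α) (r : α → α → Prop)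
    (root : α → Prop)
    (h : ∀ x ∈ S, ∃ y ∈ S, root y ∧ Relation.ReflTransGen (fun u v => v ∈ S ∧ r u v) y x) :
    ∀ n : ℕ, ∀ l : List α, l.Nodup → l.toFinset ⊆ S →
      (∀ i, ∀ hi : i < l.length, root l[i] ∨ ∃ b ∈ l.take i, r b l[i]) →
      (S \ l.toFinset).card = n →
      ∃ l : List α, l.Nodup ∧ l.toFinset = S ∧
        ∀ i, ∀ hi : i < l.length, root l[i] ∨ ∃ b ∈ l.take i, r b l[i] := by
  intro n
  induction n with
  | zero =>
    intro l h1 h2 h3 h4
    refine ⟨l, h1, ?_, h3⟩
    apply Finset.Subset.antisymm h2
    rw [Finset.card_eq_zero, Finset.sdiff_eq_empty_iff_subset] at h4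
    exact h4
  | succ n ih =>
    intro l h1 h2 h3 h4
    -- the next element
    have hx : ∃ x ∈ S, x ∉ l ∧ (root x ∨ ∃ b ∈ l, r b x) := by
      have hne : (S \ l.toFinset).Nonempty := by
        rw [← Finset.card_pos]
        omega
      obtain ⟨x0, hx0⟩ := hne
      rw [Finset.mem_sdiff, List.mem_toFinset] at hx0
      obtain ⟨y, hyS, hyr, hch⟩ := h x0 hx0.1
      by_cases hy : y ∈ l
      · obtain ⟨u, v, hu, hv, huv⟩ := enum_exit (fun z => z ∈ l) hch hy hx0.2
        exact ⟨v, huv.1, hv, Or.inr ⟨u, hu, huv.2⟩⟩
      · exact ⟨y, hyS, hy, Or.inl hyr⟩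
    obtain ⟨x, hxS, hxl, hxr⟩ := hx
    refine ih (l ++ [x]) ?_ ?_ ?_ ?_
    · rw [List.nodup_append]
      refine ⟨h1, List.nodup_singleton x, ?_⟩
      intro a ha b hb
      rw [List.mem_singleton] at hb
      rintro rfl
      rw [hb] at ha
      exact hxl ha
    · intro z hz
      rw [List.mem_toFinset, List.mem_append, List.mem_singleton] at hz
      rcases hz with hz | hz
      · exact h2 (List.mem_toFinset.2 hz)
      · rw [hz]; exact hxS
    · intro i hi
      rw [List.length_append, List.length_singleton] at hi
      rcases Nat.lt_or_ge i l.length with hlt | hge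
      · rw [List.getElem_append_left hlt, List.take_append_of_le_length hlt.le]
        exact h3 i hlt
      · have he : i = l.length := by omega
        subst he
        rw [List.getElem_append_right (le_refl _), List.take_left']
        · simpa using hxr
        · rfl
    · have e : S \ (l ++ [x]).toFinset = (S \ l.toFinset).erase x := by
        ext z
        simp only [Finset.mem_sdiff, List.mem_toFinset, List.mem_append, List.mem_singleton,
          Finset.mem_erase]
        tauto
      rw [e, Finset.card_erase_of_mem, h4]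
      · rfl
      · rw [Finset.mem_sdiff, List.mem_toFinset]
        exact ⟨hxS, hxl⟩

/-- Enumerate `S` such that every element is a root or related to an earlier element.  Extend a
maximal such list: if `x ∈ S` is missing, the first missing element of a chain from a root to
`x` can be appended. -/
theorem exists_enum {α : Type} [DecidableEq α] (S : Finset α) (r : α → α → Prop) (root : α → Prop)
    (h : ∀ x ∈ S, ∃ y ∈ S, root y ∧ Relation.ReflTransGen (fun u v => v ∈ S ∧ r u v) y x) :
    ∃ l : List α, l.Nodup ∧ l.toFinset = S ∧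
      ∀ i, ∀ hi : i < l.length, root l[i] ∨ ∃ b ∈ l.take i, r b l[i] :=
  enum_key S r root h _ [] List.nodup_nil (by simp) (by simp) rfl

/-- the same with a prescribed first element -/
theorem exists_enum_from {α : Type} [DecidableEq α] (S : Finset α) (r : α → α → Prop) (a : α)
    (ha : a ∈ S) (h : ∀ x ∈ S, Relation.ReflTransGen (fun u v => v ∈ S ∧ r u v) a x) :
    ∃ l : List α, (a :: l).Nodup ∧ (a :: l).toFinset = S ∧
      ∀ i, ∀ hi : i < l.length, ∃ b ∈ a :: l.take i, r b l[i] := by
  obtain ⟨l, h1, h2, h3⟩ := exists_enum S r (fun y => y = a)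
    (fun x hx => ⟨a, ha, rfl, h x hx⟩)
  cases l with
  | nil =>
    rw [List.toFinset_nil] at h2
    rw [← h2] at ha
    exact absurd ha (Finset.notMem_empty a)
  | cons c l =>
    have hc : c = a := by
      rcases h3 0 (by simp) with h0 | ⟨b, hb, -⟩
      · simpa using h0
      · simp at hb
    subst hc
    refine ⟨l, h1, h2, ?_⟩
    intro i hi
    rcases h3 (i + 1) (by simpa using hi) with h0 | ⟨b, hb, hr⟩
    · exfalso
      rw [List.getElem_cons_succ] at h0
      rw [List.nodup_cons] at h1
      exact h1.1 (h0 ▸ List.getElem_mem hi)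
    · rw [List.getElem_cons_succ] at hr
      rw [List.take_succ_cons] at hb
      exact ⟨b, hb, hr⟩

end Pool.Agent.Helper49.VW
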