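import Pool.Agent.Helper49.VW.BreakerWins

set_option autoImplicit false

/-! VW-24b, VW-24c: the theorem. -/

namespace Pool.Agent.Helper49.VW

open Finset

namespace Final

theorem pow_ge (k : ℕ) (hk : 46 ≤ k) : 1000000000000 * (k + 1) ≤ 2 ^ k := by
  induction k, hk using Nat.le_induction with
  | base => norm_num
  | succ k hk ih =>
    rw [pow_succ]
    omega

theorem log_ge {n : ℕ} (hn : 100000000000000 ≤ n) : 46 ≤ Nat.log 2 n := by
  have h : (2 : ℕ) ^ 46 ≤ n := le_trans (by norm_num) hn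
  exact Nat.le_log_of_pow_le (by norm_num) h

theorem lam_le {n : ℕ} (hn : 100000000000000 ≤ n) :
    1000000000000 * (Nat.log 2 n + 1) ≤ n :=
  (pow_ge _ (log_ge hn)).trans (Nat.pow_log_le_self 2 (by omega))

end Final

open Pool.Agent.Helper38.VdW in
/-- VW-24b. `lam = Nat.log 2 n + 1`, `2 ^ lam ≤ 2 n`. -/
theorem breaker_wins_pow (n : ℕ) (hn : 100000000000000 ≤ n) (N : ℕ)
    (hN : N * (2 * n) ^ 24000500 ≤ 2 ^ n) : ¬ FirstPlayerWins N n := by
  have h1 : 2 ^ (Nat.log 2 n + 1) ≤ 2 * n := by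
    rw [pow_succ, mul_comm]
    exact Nat.mul_le_mul_left 2 (Nat.pow_log_le_self 2 (by omega))
  refine breaker_wins N n (Nat.log 2 n + 1) (by omega) (Final.lam_le hn)
    (Nat.lt_pow_succ_log_self (by norm_num) n) ?_
  refine le_trans ?_ hN
  refine Nat.mul_le_mul_left N ?_
  rw [mul_comm 24000500, pow_mul]
  exact Nat.pow_le_pow_left h1 _

open Pool.Agent.Helper38.VdW in
/-- VW-24c. For `n < 10 ^ 14` trivial since `log₂ log₂ N ≥ 1`; otherwise
`2 ^ n < N (2 n) ^ 24000500`, so `n ≤ log₂ N + 24000500 (log₂ n + 1)`, in particular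
`n ≤ 2 log₂ N` (as `24000500 (log₂ n + 1) ≤ n / 2`), hence `log₂ n ≤ 1 + log₂ log₂ N`. -/
theorem upper_bound (N : ℕ) (hN : 4 ≤ N) (n : ℕ) (h : FirstPlayerWins N n) :
    (n : ℝ) ≤ Real.logb 2 N + 100000000000000 * Real.logb 2 (Real.logb 2 N) := by
  have hNR : (4 : ℝ) ≤ N := by exact_mod_cast hN
  have hNpos : (0 : ℝ) < N := by linarith
  have hlN : 2 ≤ Real.logb 2 N := by
    rw [Real.le_logb_iff_rpow_le (by norm_num) hNpos]
    norm_num
    exact_mod_cast hN
  have hllN : 1 ≤ Real.logb 2 (Real.logb 2 N) := by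
    rw [Real.le_logb_iff_rpow_le (by norm_num) (by linarith)]
    simpa using hlN
  rcases Nat.lt_or_ge n 100000000000000 with hn | hn
  · have h1 : (n : ℝ) ≤ 100000000000000 := by exact_mod_cast hn.le
    nlinarith
  · have hnR : (100000000000000 : ℝ) ≤ n := by exact_mod_cast hn
    have hnpos : (0 : ℝ) < n := by linarith
    have h1 : 2 ^ n < N * (2 * n) ^ 24000500 := by
      by_contra hcon
      exact breaker_wins_pow n hn N (not_lt.1 hcon) h
    have h2 : ((2 : ℝ) ^ n) < N * (2 * n) ^ 24000500 := by exact_mod_cast h1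
    have h3 : (n : ℝ) < Real.logb 2 N + 24000500 * (1 + Real.logb 2 n) := by
      have h4 : Real.logb 2 ((2 : ℝ) ^ n) < Real.logb 2 (N * (2 * n) ^ 24000500) :=
        Real.logb_lt_logb (by norm_num) (by positivity) h2
      rw [Real.logb_mul hNpos.ne' (by positivity), Real.logb_pow, Real.logb_pow,
        Real.logb_mul (by norm_num) hnpos.ne', Real.logb_self_eq_one (by norm_num)] at h4
      push_cast at h4
      linarith
    set L := Real.logb 2 n with hL
    have hLk : L ≤ Nat.log 2 n + 1 := by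
      have h5 : n < 2 ^ (Nat.log 2 n + 1) := Nat.lt_pow_succ_log_self (by norm_num) n
      have h6 : (n : ℝ) ≤ (2 : ℝ) ^ (Nat.log 2 n + 1) := by exact_mod_cast h5.le
      have h7 : Real.logb 2 n ≤ Real.logb 2 ((2 : ℝ) ^ (Nat.log 2 n + 1)) :=
        Real.logb_le_logb_of_le (by norm_num) hnpos h6
      rw [Real.logb_pow, Real.logb_self_eq_one (by norm_num)] at h7
      push_cast at h7
      linarith
    have hk : (1000000000000 : ℝ) * (Nat.log 2 n + 1) ≤ n := by exact_mod_cast Final.lam_le hn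
    have hk0 : (0 : ℝ) ≤ Nat.log 2 n := Nat.cast_nonneg _
    have h5 : (n : ℝ) ≤ 2 * Real.logb 2 N := by nlinarith
    have h6 : L ≤ 1 + Real.logb 2 (Real.logb 2 N) := by
      have h7 : Real.logb 2 n ≤ Real.logb 2 (2 * Real.logb 2 N) :=
        Real.logb_le_logb_of_le (by norm_num) hnpos h5
      rw [Real.logb_mul (by norm_num) (by linarith), Real.logb_self_eq_one (by norm_num)] at h7
      exact h7
    nlinarith

end Pool.Agent.Helper49.VW
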