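import Pool.Agent.Helper49.VW.Defs

set_option autoImplicit false

/-! VW-1: elementary facts on `Linked`. -/

namespace Pool.Agent.Helper49.VW

open Finset

variable {ι : Type} [DecidableEq ι]

private theorem link_mono (pts : ι → Finset ℕ) {F G : Finset ι} (hFG : F ⊆ G) {L A : ι}
    (h : Relation.ReflTransGen (fun X Y => Y ∈ F ∧ (pts X ∩ pts Y).Nonempty) L A) :
    Relation.ReflTransGen (fun X Y => Y ∈ G ∧ (pts X ∩ pts Y).Nonempty) L A :=
  Relation.ReflTransGen.mono (fun _ _ h => ⟨hFG h.1, h.2⟩) _ _ h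

/-- the same chains work in a larger family -/
theorem linked_union (pts : ι → Finset ℕ) (F G : Finset ι) (L : ι) (hF : Linked pts F L)
    (hG : Linked pts G L) : Linked pts (F ∪ G) L := by
  intro A hA
  rcases mem_union.1 hA with h | h
  · exact link_mono pts subset_union_left (hF A h)
  · exact link_mono pts subset_union_right (hG A h)

/-- the relation is symmetric inside `F` -/
theorem linked_conn (pts : ι → Finset ℕ) (F : Finset ι) (A : ι) (hA : A ∈ F)
    (h : Linked pts F A) : ∀ C ∈ F, Linked pts F C := by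
  intro C hC D hD
  have key : ∀ X, Relation.ReflTransGen (fun X Y => Y ∈ F ∧ (pts X ∩ pts Y).Nonempty) A X →
      X ∈ F ∧ Relation.ReflTransGen (fun X Y => Y ∈ F ∧ (pts X ∩ pts Y).Nonempty) X A := by
    intro X hX
    induction hX with
    | refl => exact ⟨hA, Relation.ReflTransGen.refl⟩
    | tail _ hstep ih =>
      refine ⟨hstep.1, Relation.ReflTransGen.head ⟨ih.1, ?_⟩ ih.2⟩
      rw [inter_comm]
      exact hstep.2
  exact (key C (h C hC)).2.trans (h D hD)

theorem linked_of_meets (pts : ι → Finset ℕ) (F : Finset ι) (C L : ι) (hC : C ∈ F)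
    (h : Linked pts F C) (hm : (pts L ∩ pts C).Nonempty) : Linked pts F L := by
  intro D hD
  exact Relation.ReflTransGen.head ⟨hC, hm⟩ (h D hD)

theorem linked_insert (pts : ι → Finset ℕ) (F : Finset ι) (A : ι)
    (h : Linked pts F A) : Linked pts (insert A F) A := by
  intro D hD
  rcases mem_insert.1 hD with h1 | h1
  · rw [h1]
  · exact link_mono pts (subset_insert A F) (h D h1)

theorem linked_biUnion {κ : Type} [DecidableEq κ] (pts : ι → Finset ℕ) (S : Finset κ)
    (G : κ → Finset ι) (f : κ → ι) (A : ι)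
    (h : ∀ p ∈ S, f p ∈ G p ∧ Linked pts (G p) (f p) ∧ (pts A ∩ pts (f p)).Nonempty) :
    Linked pts (S.biUnion G) A := by
  intro D hD
  obtain ⟨p, hp, hDp⟩ := mem_biUnion.1 hD
  obtain ⟨h1, h2, h3⟩ := h p hp
  exact Relation.ReflTransGen.head ⟨mem_biUnion.2 ⟨p, hp, h1⟩, h3⟩
    (link_mono pts (subset_biUnion_of_mem G hp) (h2 D hDp))

end Pool.Agent.Helper49.VW
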