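import Pool.Agent.Helper49.VW.Enum

set_option autoImplicit false

/-! VW-18: a linked family of windows can be enumerated by segments. -/

namespace Pool.Agent.Helper49.VW

open Finset

private def RR (m : ℕ) (F : Finset (ℕ × ℕ)) (u v : ℕ × ℕ) : Prop := v ∈ F ∧ Adj m u v

private theorem adj_symm (m : ℕ) (u v : ℕ × ℕ) (h : Adj m u v) : Adj m v u := by
  refine ⟨h.1.symm, ?_⟩
  rw [Finset.inter_comm]
  exact h.2

private theorem rtg_symm (m : ℕ) (F : Finset (ℕ × ℕ)) (a b : ℕ × ℕ) (ha : a ∈ F)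
    (h : Relation.ReflTransGen (RR m F) a b) : b ∈ F ∧ Relation.ReflTransGen (RR m F) b a := by
  induction h with
  | refl => exact ⟨ha, Relation.ReflTransGen.refl⟩
  | tail _ hbc ih =>
    exact ⟨hbc.1, Relation.ReflTransGen.head ⟨ih.1, adj_symm m _ _ hbc.2⟩ ih.2⟩

private noncomputable def cls (m : ℕ) (F : Finset (ℕ × ℕ)) (a : ℕ × ℕ) : Finset (ℕ × ℕ) :=
  @Finset.filter _ (fun b => Relation.ReflTransGen (RR m F) a b)
    (fun _ => Classical.propDecidable _) F

private theorem mem_cls (m : ℕ) (F : Finset (ℕ × ℕ)) (a b : ℕ × ℕ) :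
    b ∈ cls m F a ↔ b ∈ F ∧ Relation.ReflTransGen (RR m F) a b := by
  exact @Finset.mem_filter _ _ (fun _ => Classical.propDecidable _) F b

private theorem self_cls (m : ℕ) (F : Finset (ℕ × ℕ)) (a : ℕ × ℕ) (ha : a ∈ F) :
    a ∈ cls m F a := by
  rw [mem_cls]
  exact ⟨ha, Relation.ReflTransGen.refl⟩

private theorem cls_eq (m : ℕ) (F : Finset (ℕ × ℕ)) (a b : ℕ × ℕ) (ha : a ∈ F)
    (h : b ∈ cls m F a) : cls m F a = cls m F b := by
  rw [mem_cls] at h
  have h2 := rtg_symm m F a b ha h.2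
  ext c
  rw [mem_cls, mem_cls]
  constructor
  · rintro ⟨h3, h4⟩
    exact ⟨h3, h2.2.trans h4⟩
  · rintro ⟨h3, h4⟩
    exact ⟨h3, h.2.trans h4⟩

private theorem cls_adj (m : ℕ) (F : Finset (ℕ × ℕ)) (a b : ℕ × ℕ) (ha : a ∈ F) (hb : b ∈ F)
    (h : Adj m a b) : cls m F a = cls m F b := by
  apply cls_eq m F a b ha
  rw [mem_cls]
  exact ⟨hb, Relation.ReflTransGen.single ⟨hb, h⟩⟩

private theorem chain_in (m : ℕ) (F : Finset (ℕ × ℕ)) (a x : ℕ × ℕ)
    (h : Relation.ReflTransGen (RR m F) a x) :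
    Relation.ReflTransGen (fun u v => v ∈ cls m F a ∧ Adj m u v) a x := by
  induction h with
  | refl => exact Relation.ReflTransGen.refl
  | tail hab hbc ih =>
    refine ih.tail ⟨?_, hbc.2⟩
    rw [mem_cls]
    exact ⟨hbc.1, hab.tail hbc⟩

/-- The segments are the classes `cls a = F.filter (ReflTransGen (fun u v => v ∈ F ∧ Adj m u v) a)`
(`Adj` is symmetric, and reflexive for windows with `m ≥ 1`).  Apply `exists_enum` to the set
`F.image cls` with `root C := some window of C meets W` and `r C C' := a window of C meets a window of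
C'` (a chain witnessing `Linked` gives a chain of classes; consecutive equal classes are skipped or
related), then `exists_enum_from` inside each class, starting with a window which meets `W` or an
earlier class. -/
theorem exists_segOrder (m : ℕ) (hm : 1 ≤ m) (F : Finset (ℕ × ℕ)) (L : ℕ × ℕ)
    (hF : Linked (win m) F L) :
    ∃ (h : ℕ) (hd : ℕ → ℕ × ℕ) (tl : ℕ → List (ℕ × ℕ)), SegOrder m F (win m L) h hd tl := by
  have hwne : ∀ a : ℕ × ℕ, (win m a).Nonempty := by
    intro a
    refine ⟨a.1, ?_⟩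
    unfold win
    rw [Finset.mem_image]
    exact ⟨0, Finset.mem_range.mpr hm, by simp⟩
  have key : ∀ A, Relation.ReflTransGen
      (fun X Y => Y ∈ F ∧ (win m X ∩ win m Y).Nonempty) L A →
      A = L ∨ (A ∈ F ∧ ∃ y ∈ F.image (cls m F), (∃ u ∈ y, (win m u ∩ win m L).Nonempty) ∧
        Relation.ReflTransGen (fun C C' => C' ∈ F.image (cls m F) ∧
          ∃ u ∈ C, ∃ v ∈ C', (win m u ∩ win m v).Nonempty) y (cls m F A)) := by
    intro A hA
    induction hA with
    | refl => exact Or.inl rfl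
    | @tail B C hLB hBC ih =>
      right
      refine ⟨hBC.1, ?_⟩
      rcases ih with rfl | ⟨hB, y, hy, hr, hch⟩
      · refine ⟨cls m F C, Finset.mem_image_of_mem _ hBC.1, ⟨C, self_cls m F C hBC.1, ?_⟩,
          Relation.ReflTransGen.refl⟩
        rw [Finset.inter_comm]
        exact hBC.2
      · refine ⟨y, hy, hr, hch.tail ⟨Finset.mem_image_of_mem _ hBC.1, B, self_cls m F B hB, C,
          self_cls m F C hBC.1, hBC.2⟩⟩
  obtain ⟨l, hnd, hl, hstep⟩ := exists_enum (F.image (cls m F))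
    (fun C C' => ∃ u ∈ C, ∃ v ∈ C', (win m u ∩ win m v).Nonempty)
    (fun C => ∃ u ∈ C, (win m u ∩ win m L).Nonempty) (by
      intro x hx
      rw [Finset.mem_image] at hx
      obtain ⟨A, hA, rfl⟩ := hx
      rcases key A (hF A hA) with rfl | ⟨_, h⟩
      · refine ⟨cls m F A, Finset.mem_image_of_mem _ hA, ⟨A, self_cls m F A hA, ?_⟩,
          Relation.ReflTransGen.refl⟩
        rw [Finset.inter_self]
        exact hwne A
      · exact h)
  have hcl : ∀ C ∈ l, ∃ a ∈ F, cls m F a = C := by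
    intro C hC
    have : C ∈ F.image (cls m F) := by
      rw [← hl, List.mem_toFinset]
      exact hC
    rw [Finset.mem_image] at this
    exact this
  have hcl' : ∀ C ∈ l, ∀ u ∈ C, u ∈ F ∧ cls m F u = C := by
    intro C hC u hu
    obtain ⟨a, ha, rfl⟩ := hcl C hC
    exact ⟨((mem_cls m F a u).mp hu).1, (cls_eq m F a u ha hu).symm⟩
  have hex : ∀ i : ℕ, ∃ (hd : ℕ × ℕ) (tl : List (ℕ × ℕ)), ∀ hi : i < l.length,
      (hd :: tl).Nodup ∧ (hd :: tl).toFinset = l[i] ∧
      (∀ k, ∀ hk : k < tl.length, ∃ b ∈ hd :: tl.take k, Adj m b tl[k]) ∧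
      ((win m hd ∩ win m L).Nonempty ∨ ∃ C ∈ l.take i, ∃ u ∈ C, (win m hd ∩ win m u).Nonempty) := by
    intro i
    by_cases hi : i < l.length
    · have h1 : ∃ v ∈ l[i], (win m v ∩ win m L).Nonempty ∨
          ∃ C ∈ l.take i, ∃ u ∈ C, (win m v ∩ win m u).Nonempty := by
        rcases hstep i hi with ⟨u, hu, h⟩ | ⟨C, hC, u, hu, v, hv, h⟩
        · exact ⟨u, hu, Or.inl h⟩
        · exact ⟨v, hv, Or.inr ⟨C, hC, u, hu, by rw [Finset.inter_comm]; exact h⟩⟩
      obtain ⟨v, hv, hv2⟩ := h1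
      have hvF := hcl' l[i] (List.getElem_mem hi) v hv
      obtain ⟨tl, ht1, ht2, ht3⟩ := exists_enum_from l[i] (Adj m) v hv (by
        intro x hx
        rw [← hvF.2] at hx ⊢
        exact chain_in m F v x ((mem_cls m F v x).mp hx).2)
      exact ⟨v, tl, fun _ => ⟨ht1, ht2, ht3, hv2⟩⟩
    · exact ⟨L, [], fun h => absurd h hi⟩
  choose hd tl htl using hex
  refine ⟨l.length, hd, tl, ?_⟩
  refine
    { nodup := fun i hi => (htl i hi).1
      cover := ?_
      disj := ?_
      chain := fun i hi => (htl i hi).2.2.1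
      head := ?_ }
  · ext a
    rw [Finset.mem_biUnion]
    constructor
    · intro ha
      have h1 : cls m F a ∈ l := by
        rw [← List.mem_toFinset, hl]
        exact Finset.mem_image_of_mem _ ha
      obtain ⟨i, hi, h2⟩ := List.getElem_of_mem h1
      refine ⟨i, Finset.mem_range.mpr hi, ?_⟩
      rw [(htl i hi).2.1, h2]
      exact self_cls m F a ha
    · rintro ⟨i, hi, ha⟩
      rw [Finset.mem_range] at hi
      rw [(htl i hi).2.1] at ha
      exact (hcl' l[i] (List.getElem_mem hi) a ha).1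
  · intro i hi j hj hij u hu v hv
    have hu' : u ∈ l[i] := by
      rw [← (htl i hi).2.1, List.mem_toFinset]
      exact hu
    have hv' : v ∈ l[j] := by
      rw [← (htl j hj).2.1, List.mem_toFinset]
      exact hv
    have hu2 := hcl' l[i] (List.getElem_mem hi) u hu'
    have hv2 := hcl' l[j] (List.getElem_mem hj) v hv'
    have hne : l[i] ≠ l[j] := by
      intro h
      exact hij ((List.Nodup.getElem_inj_iff hnd).mp h)
    constructor
    · rintro rfl
      exact hne (hu2.2.symm.trans hv2.2)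
    · intro hadj
      exact hne (hu2.2.symm.trans ((cls_adj m F u v hu2.1 hv2.1 hadj).trans hv2.2))
  · intro i hi
    rcases (htl i hi).2.2.2 with h | ⟨C, hC, u, hu, h⟩
    · obtain ⟨p, hp⟩ := h
      rw [Finset.mem_inter] at hp
      exact ⟨p, Finset.mem_inter.mpr ⟨hp.1, Finset.mem_union_left _ hp.2⟩⟩
    · rw [List.mem_take_iff_getElem] at hC
      obtain ⟨j, hj, rfl⟩ := hC
      have hj1 : j < i := lt_of_lt_of_le hj (min_le_left _ _)
      have hj2 : j < l.length := lt_of_lt_of_le hj (min_le_right _ _)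
      obtain ⟨p, hp⟩ := h
      rw [Finset.mem_inter] at hp
      refine ⟨p, Finset.mem_inter.mpr ⟨hp.1, Finset.mem_union_right _ ?_⟩⟩
      rw [Finset.mem_biUnion]
      refine ⟨j, Finset.mem_range.mpr hj1, ?_⟩
      unfold upts
      rw [Finset.mem_biUnion]
      refine ⟨u, ?_, hp.2⟩
      rw [(htl j hj2).2.1]
      exact hu

end Pool.Agent.Helper49.VW
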