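import Pool.Agent.Helper49.VW.SegDefs
import Pool.Agent.Helper49.VW.APInter

set_option autoImplicit false

/-! VW-15a, VW-15b: first windows and extra points. -/

namespace Pool.Agent.Helper49.VW

open Finset

private theorem segbase_card_diff (m : ℕ) (a d L : ℕ → ℕ) (i : ℕ) (hm : m ≤ L i) :
    (seg a d L i \ win m (a i, d i)).card ≤ L i - m := by
  have hsub : seg a d L i \ win m (a i, d i) ⊆
      (Finset.Ico m (L i)).image (fun j => a i + j * d i) := by
    intro x hx
    rw [Finset.mem_sdiff] at hx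
    obtain ⟨hx1, hx2⟩ := hx
    unfold seg at hx1
    obtain ⟨j, hj, rfl⟩ := Finset.mem_image.1 hx1
    rw [Finset.mem_range] at hj
    refine Finset.mem_image.2 ⟨j, ?_, rfl⟩
    rw [Finset.mem_Ico]
    refine ⟨?_, hj⟩
    by_contra hlt
    rw [not_le] at hlt
    exact hx2 (Finset.mem_image.2 ⟨j, Finset.mem_range.2 hlt, rfl⟩)
  refine (Finset.card_le_card hsub).trans (Finset.card_image_le.trans ?_)
  rw [Nat.card_Ico]

private theorem segbase_win_sub (m : ℕ) (a d L : ℕ → ℕ) (i : ℕ) (hm : m ≤ L i) :
    win m (a i, d i) ⊆ seg a d L i := by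
  intro x hx
  obtain ⟨j, hj, rfl⟩ := Finset.mem_image.1 hx
  exact Finset.mem_image.2 ⟨j, Finset.mem_range.2 (lt_of_lt_of_le (Finset.mem_range.1 hj) hm), rfl⟩

theorem card_Vext_le (m l h Q : ℕ) (a d L w : ℕ → ℕ) (Fr : Finset ℕ)
    (hs : SegData m l h Q a d L w Fr) : (Vext m h a d L Fr).card ≤ vext m h a d L Fr := by
  unfold Vext vext
  refine (Finset.card_union_le _ _).trans (add_le_add ?_ ?_)
  · refine Finset.card_biUnion_le.trans (Finset.sum_le_sum fun i hi => ?_)
    exact segbase_card_diff m a d L i (hs.Lm i (Finset.mem_range.1 (hs.Frh hi)))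
  · exact Finset.card_biUnion_le

/-- VW-15a. Sum over the first windows `A_j` of the free segments `j < i` of the intersection with
a window `B` inside the segment `i`: at most one `j` has `Comm m (d i) (d j)` (`comm_of_comm`, `frc`,
`m ^ 2 ≤ Q`), it contributes at most `(m - 1) / 2 + 1` (nothing if `d i = d j` by `disj`), all others
at most `1` (`card_inter_le` with `q = m`). -/
theorem sum_base_le (m l h Q : ℕ) (a d L w : ℕ → ℕ) (Fr : Finset ℕ) (hm : 1 ≤ m)
    (hs : SegData m l h Q a d L w Fr) (hQ : m ^ 2 ≤ Q) (i : ℕ) (hi : i < h) (b : ℕ)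
    (hB : win m (b, d i) ⊆ seg a d L i) :
    ∑ j ∈ Fr.filter (fun j => j < i), (win m (a j, d j) ∩ win m (b, d i)).card
      ≤ (m - 1) / 2 + 1 + Fr.card := by
  classical
  set F := Fr.filter (fun j => j < i) with hF
  have hbound : ∀ j ∈ F, (win m (a j, d j) ∩ win m (b, d i)).card ≤
      (if Comm m (d i) (d j) then (m - 1) / 2 + 1 else 0) + 1 := by
    intro j hj
    rw [hF, Finset.mem_filter] at hj
    have hjh : j < h := Finset.mem_range.1 (hs.Frh hj.1)
    by_cases hc : Comm m (d i) (d j)
    · rw [if_pos hc]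
      by_cases hd : d i = d j
      · have hdis := hs.disj i hi j hjh (by omega) hd
        have he : win m (a j, d j) ∩ win m (b, d i) = ∅ := by
          rw [← Finset.disjoint_iff_inter_eq_empty]
          exact (hdis.symm.mono_left (segbase_win_sub m a d L j (hs.Lm j hjh))).mono_right hB
        rw [he, Finset.card_empty]
        exact Nat.zero_le _
      · have h1 := card_inter_le m 1 (b, d i) (a j, d j) hm (hs.d1 i hi) (hs.d1 j hjh)
          (fun h => hd ((comm_one _ _).1 h))
        rw [Finset.inter_comm]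
        omega
    · rw [if_neg hc, zero_add]
      have h1 := card_inter_le m m (b, d i) (a j, d j) hm (hs.d1 i hi) (hs.d1 j hjh) hc
      rw [Finset.inter_comm]
      have h2 : (m - 1) / (m + 1) = 0 := Nat.div_eq_of_lt (by omega)
      rw [h2] at h1
      exact h1
  refine (Finset.sum_le_sum hbound).trans ?_
  rw [Finset.sum_add_distrib, ← Finset.sum_filter, Finset.sum_const, Finset.sum_const, smul_eq_mul,
    smul_eq_mul, mul_one]
  have hone : (F.filter (fun j => Comm m (d i) (d j))).card ≤ 1 := by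
    rw [Finset.card_le_one]
    have key : ∀ j ∈ F, ∀ j' ∈ F, Comm m (d i) (d j) → Comm m (d i) (d j') → ¬ j < j' := by
      intro j hj j' hj' h1 h2 hlt
      rw [hF, Finset.mem_filter] at hj hj'
      have h3 := comm_of_comm m (d j') (d j) (d i) (hs.d1 i hi) h2 h1
      exact hs.frc j' hj'.1 j hlt (comm_mono _ _ _ _ hQ h3)
    intro x hx y hy
    rw [Finset.mem_filter] at hx hy
    rcases lt_trichotomy x y with hlt | heq | hlt
    · exact absurd hlt (key x hx.1 y hy.1 hx.2 hy.2)
    · exact heq
    · exact absurd hlt (key y hy.1 x hx.1 hy.2 hx.2)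
  have hcard : F.card ≤ Fr.card := Finset.card_filter_le _ _
  have := Nat.mul_le_mul_right ((m - 1) / 2 + 1) hone
  rw [one_mul] at this
  exact add_le_add this hcard

/-- VW-15b. Every point of `pre i` lies in an extra point set or in the first window of a free
segment before `i` (take the first segment which contains the point). -/
theorem pre_subset (m l h Q : ℕ) (a d L w : ℕ → ℕ) (Fr : Finset ℕ)
    (hs : SegData m l h Q a d L w Fr) (i : ℕ) (hi : i < h) :
    pre a d L i ⊆ Vext m h a d L Fr ∪
      (Fr.filter (fun j => j < i)).biUnion (fun j => win m (a j, d j)) := by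
  classical
  intro x hx
  unfold pre at hx
  rw [Finset.mem_biUnion] at hx
  have hex : ∃ k, k < i ∧ x ∈ seg a d L k := by
    obtain ⟨k, hk, hxk⟩ := hx
    exact ⟨k, Finset.mem_range.1 hk, hxk⟩
  set k := Nat.find hex with hk
  obtain ⟨hki, hxk⟩ := Nat.find_spec hex
  rw [← hk] at hki hxk
  have hmin : ∀ j < k, x ∉ seg a d L j := by
    intro j hj hxj
    exact Nat.find_min hex hj ⟨by omega, hxj⟩
  rw [Finset.mem_union]
  by_cases hkF : k ∈ Fr
  · by_cases hw : x ∈ win m (a k, d k)
    · right
      rw [Finset.mem_biUnion]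
      exact ⟨k, Finset.mem_filter.2 ⟨hkF, hki⟩, hw⟩
    · left
      unfold Vext
      rw [Finset.mem_union]
      left
      rw [Finset.mem_biUnion]
      exact ⟨k, hkF, Finset.mem_sdiff.2 ⟨hxk, hw⟩⟩
  · left
    unfold Vext
    rw [Finset.mem_union]
    right
    rw [Finset.mem_biUnion]
    refine ⟨k, Finset.mem_sdiff.2 ⟨Finset.mem_range.2 (by omega), hkF⟩,
      Finset.mem_sdiff.2 ⟨hxk, ?_⟩⟩
    unfold pre
    rw [Finset.mem_biUnion]
    rintro ⟨j, hj, hxj⟩
    exact hmin j (Finset.mem_range.1 hj) hxj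

end Pool.Agent.Helper49.VW
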