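import Pool.Agent.Helper49.VW.Defs

set_option autoImplicit false

/-! Definitions for the structure part. -/

namespace Pool.Agent.Helper49.VW

open Finset

/-- the `i`-th segment: a progression with `L i` terms -/
def seg (a d L : ℕ → ℕ) (i : ℕ) : Finset ℕ := (Finset.range (L i)).image (fun j => a i + j * d i)

/-- union of the segments before the `i`-th -/
def pre (a d L : ℕ → ℕ) (i : ℕ) : Finset ℕ := (Finset.range i).biUnion (seg a d L)

/-- data of a family of windows grouped into segments; `w i` is the number of windows of the `i`-th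
segment, `Fr` the set of free segments -/
structure SegData (m l h Q : ℕ) (a d L w : ℕ → ℕ) (Fr : Finset ℕ) : Prop where
  d1 : ∀ i < h, 1 ≤ d i
  Lm : ∀ i < h, m ≤ L i
  w1 : ∀ i < h, 1 ≤ w i
  wl : ∀ i < h, (w i - 1) * l ≤ L i - m
  disj : ∀ i < h, ∀ j < h, i ≠ j → d i = d j → Disjoint (seg a d L i) (seg a d L j)
  Frh : Fr ⊆ Finset.range h
  fr1 : ∀ i ∈ Fr, (seg a d L i ∩ pre a d L i).card ≤ 1
  frc : ∀ i ∈ Fr, ∀ j < i, ¬ Comm Q (d i) (d j)

/-- number of extra points: beyond the first window in free segments, new points in the others -/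
def vext (m h : ℕ) (a d L : ℕ → ℕ) (Fr : Finset ℕ) : ℕ :=
  ∑ i ∈ Fr, (L i - m) + ∑ i ∈ Finset.range h \ Fr, (seg a d L i \ pre a d L i).card

/-- the set of extra points -/
def Vext (m h : ℕ) (a d L : ℕ → ℕ) (Fr : Finset ℕ) : Finset ℕ :=
  Fr.biUnion (fun i => seg a d L i \ win m (a i, d i)) ∪
  (Finset.range h \ Fr).biUnion (fun i => seg a d L i \ pre a d L i)

/-- An enumeration of the windows of `F` by segments: `hd i :: tl i` lists the windows of the `i`-th
segment (`i < h`). -/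
structure SegOrder (m : ℕ) (F : Finset (ℕ × ℕ)) (W : Finset ℕ) (h : ℕ) (hd : ℕ → ℕ × ℕ)
    (tl : ℕ → List (ℕ × ℕ)) : Prop where
  nodup : ∀ i < h, (hd i :: tl i).Nodup
  cover : F = (Finset.range h).biUnion (fun i => (hd i :: tl i).toFinset)
  disj : ∀ i < h, ∀ j < h, i ≠ j → ∀ u ∈ hd i :: tl i, ∀ v ∈ hd j :: tl j, u ≠ v ∧ ¬ Adj m u v
  chain : ∀ i < h, ∀ k, ∀ hk : k < (tl i).length, ∃ b ∈ hd i :: (tl i).take k, Adj m b (tl i)[k]
  head : ∀ i < h, (win m (hd i) ∩
    (W ∪ (Finset.range i).biUnion (fun j => upts m (hd j :: tl j).toFinset))).Nonempty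

/-- the list of all windows in the order of the segments -/
def flat (h : ℕ) (hd : ℕ → ℕ × ℕ) (tl : ℕ → List (ℕ × ℕ)) : List (ℕ × ℕ) :=
  (List.range h).flatMap (fun i => hd i :: tl i)

/-- points before the `i`-th segment, with the link -/
def Upre (m : ℕ) (W : Finset ℕ) (hd : ℕ → ℕ × ℕ) (tl : ℕ → List (ℕ × ℕ)) (i : ℕ) : Finset ℕ :=
  W ∪ (Finset.range i).biUnion (fun j => upts m (hd j :: tl j).toFinset)

/-- windows before the `i`-th segment -/
def Ppre (hd : ℕ → ℕ × ℕ) (tl : ℕ → List (ℕ × ℕ)) (i : ℕ) : Finset (ℕ × ℕ) :=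
  (Finset.range i).biUnion (fun j => (hd j :: tl j).toFinset)

open Classical in
/-- the free segments: the first window is not determined -/
noncomputable def Free (J Q m : ℕ) (W : Finset ℕ) (h : ℕ) (hd : ℕ → ℕ × ℕ)
    (tl : ℕ → List (ℕ × ℕ)) : Finset ℕ :=
  (Finset.range h).filter (fun i => ¬ Det J Q m (Upre m W hd tl i) (Ppre hd tl i) (hd i))

end Pool.Agent.Helper49.VW
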