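import Pool.Agent.Helper49.VW.SegDefs

set_option autoImplicit false

/-! VW-19: geometry of one segment. -/

namespace Pool.Agent.Helper49.VW

open Finset

namespace SegGeom

theorem mem_win {m : ℕ} {a : ℕ × ℕ} {p : ℕ} : p ∈ win m a ↔ ∃ j < m, a.1 + j * a.2 = p := by
  simp [win]

theorem upts_snoc (m : ℕ) (hd : ℕ × ℕ) (tl : List (ℕ × ℕ)) (u : ℕ × ℕ) :
    upts m (hd :: (tl ++ [u])).toFinset = upts m (hd :: tl).toFinset ∪ win m u := by
  ext p
  simp only [upts, Finset.mem_biUnion, List.mem_toFinset, Finset.mem_union, List.mem_cons,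
    List.mem_append, List.not_mem_nil, or_false]
  constructor
  · rintro ⟨a, (h | h | h), hp⟩
    · exact Or.inl ⟨a, Or.inl h, hp⟩
    · exact Or.inl ⟨a, Or.inr h, hp⟩
    · subst h; exact Or.inr hp
  · rintro (⟨a, h, hp⟩ | hp)
    · rcases h with h | h
      · exact ⟨a, Or.inl h, hp⟩
      · exact ⟨a, Or.inr (Or.inl h), hp⟩
    · exact ⟨u, Or.inr (Or.inr rfl), hp⟩

theorem aux (m : ℕ) (hm : 1 ≤ m) (hd : ℕ × ℕ) (tl : List (ℕ × ℕ))
    (hch : ∀ k, ∀ hk : k < tl.length, ∃ b ∈ hd :: tl.take k, Adj m b tl[k]) :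
    ∃ a S : ℕ, (∀ u ∈ hd :: tl, u.2 = hd.2 ∧ ∃ i ≤ S, u.1 = a + i * hd.2) ∧
      (∃ u ∈ hd :: tl, u.1 = a) ∧
      upts m (hd :: tl).toFinset = (Finset.range (S + m)).image (fun j => a + j * hd.2) := by
  induction tl using List.reverseRecOn with
  | nil =>
    refine ⟨hd.1, 0, ?_, ?_, ?_⟩
    · intro u hu
      rw [List.mem_singleton] at hu
      subst hu
      exact ⟨rfl, 0, le_rfl, by simp⟩
    · exact ⟨hd, by simp, rfl⟩
    · simp [upts, win]
  | append_singleton tl u ih =>
    obtain ⟨a, S, h1, ⟨w, hw, hwa⟩, h3⟩ := ih (by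
      intro k hk
      have hk' : k < (tl ++ [u]).length := by
        rw [List.length_append, List.length_singleton]; omega
      obtain ⟨b, hb, hadj⟩ := hch k hk'
      rw [List.take_append_of_le_length hk.le] at hb
      rw [List.getElem_append_left hk] at hadj
      exact ⟨b, hb, hadj⟩)
    have hlast : tl.length < (tl ++ [u]).length := by simp
    obtain ⟨b, hb, hadj⟩ := hch tl.length hlast
    have e1 : (tl ++ [u]).take tl.length = tl := by simp
    have e2 : (tl ++ [u])[tl.length] = u := by simp
    rw [e1] at hb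
    rw [e2] at hadj
    obtain ⟨hb2, ib, hib, hb1⟩ := h1 b hb
    obtain ⟨hsame, p, hp⟩ := hadj
    rw [Finset.mem_inter, mem_win, mem_win] at hp
    obtain ⟨⟨i, hi, hpi⟩, j, hj, hpj⟩ := hp
    have hu2 : u.2 = hd.2 := by rw [← hsame, hb2]
    rw [hb2, hb1] at hpi
    rw [hu2] at hpj
    have hkey : a + ib * hd.2 + i * hd.2 = u.1 + j * hd.2 := by rw [hpi, hpj]
    have hwin : ∀ q, q ∈ win m u ↔ ∃ j < m, u.1 + j * hd.2 = q := by
      intro q
      rw [mem_win, hu2]
    rcases Nat.lt_or_ge (ib + i) j with hlt | hge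
    · -- the new window starts to the left
      obtain ⟨t, ht⟩ := Nat.exists_eq_add_of_le hlt.le
      have hat : a = u.1 + t * hd.2 := by
        have : a + ib * hd.2 + i * hd.2 = u.1 + (ib + i + t) * hd.2 := by rw [hkey, ht]
        nlinarith
      have htm : t ≤ m := by omega
      refine ⟨u.1, S + t, ?_, ?_, ?_⟩
      · intro v hv
        rw [List.mem_cons, List.mem_append, List.mem_singleton] at hv
        have hv' : v ∈ hd :: tl ∨ v = u := by
          rcases hv with h | h | h
          · exact Or.inl (by rw [h]; simp)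
          · exact Or.inl (List.mem_cons_of_mem _ h)
          · exact Or.inr h
        rcases hv' with h | h
        · obtain ⟨g1, iv, g2, g3⟩ := h1 v h
          refine ⟨g1, iv + t, by omega, ?_⟩
          rw [g3, hat]; ring
        · rw [h]
          exact ⟨hu2, 0, by omega, by simp⟩
      · exact ⟨u, by simp, rfl⟩
      · rw [upts_snoc, h3]
        ext q
        rw [Finset.mem_union, hwin, Finset.mem_image, Finset.mem_image]
        constructor
        · rintro (⟨r, hr, hq⟩ | ⟨r, hr, hq⟩)
          · rw [Finset.mem_range] at hr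
            refine ⟨r + t, Finset.mem_range.2 (by omega), ?_⟩
            show u.1 + (r + t) * hd.2 = q
            have hq' : a + r * hd.2 = q := hq
            rw [← hq', hat]; ring
          · exact ⟨r, Finset.mem_range.2 (by omega), hq⟩
        · rintro ⟨r, hr, hq⟩
          rw [Finset.mem_range] at hr
          have hq' : u.1 + r * hd.2 = q := hq
          rcases Nat.lt_or_ge r m with g | g
          · exact Or.inr ⟨r, g, hq'⟩
          · obtain ⟨r', hr'⟩ := Nat.exists_eq_add_of_le (htm.trans g)
            left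
            refine ⟨r', Finset.mem_range.2 (by omega), ?_⟩
            show a + r' * hd.2 = q
            rw [← hq', hat, hr']; ring
    · obtain ⟨t, ht⟩ := Nat.exists_eq_add_of_le hge
      have hut : u.1 = a + t * hd.2 := by
        have : a + (j + t) * hd.2 = u.1 + j * hd.2 := by rw [← hkey, ← ht]; ring
        nlinarith
      refine ⟨a, max S t, ?_, ?_, ?_⟩
      · intro v hv
        rw [List.mem_cons, List.mem_append, List.mem_singleton] at hv
        have hv' : v ∈ hd :: tl ∨ v = u := by
          rcases hv with h | h | h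
          · exact Or.inl (by rw [h]; simp)
          · exact Or.inl (List.mem_cons_of_mem _ h)
          · exact Or.inr h
        rcases hv' with h | h
        · obtain ⟨g1, iv, g2, g3⟩ := h1 v h
          exact ⟨g1, iv, by omega, g3⟩
        · rw [h]
          exact ⟨hu2, t, by omega, hut⟩
      · refine ⟨w, ?_, hwa⟩
        rw [List.mem_cons] at hw ⊢
        rcases hw with h | h
        · exact Or.inl h
        · exact Or.inr (List.mem_append_left _ h)
      · rw [upts_snoc, h3]
        ext q
        rw [Finset.mem_union, hwin, Finset.mem_image, Finset.mem_image]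
        constructor
        · rintro (⟨r, hr, hq⟩ | ⟨r, hr, hq⟩)
          · rw [Finset.mem_range] at hr
            exact ⟨r, Finset.mem_range.2 (by omega), hq⟩
          · refine ⟨r + t, Finset.mem_range.2 (by omega), ?_⟩
            show a + (r + t) * hd.2 = q
            rw [← hq, hut]; ring
        · rintro ⟨r, hr, hq⟩
          rw [Finset.mem_range] at hr
          have hq' : a + r * hd.2 = q := hq
          rcases Nat.lt_or_ge r (S + m) with g | g
          · exact Or.inl ⟨r, Finset.mem_range.2 g, hq'⟩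
          · obtain ⟨r', hr'⟩ := Nat.exists_eq_add_of_le (show t ≤ r by omega)
            right
            refine ⟨r', by omega, ?_⟩
            rw [← hq', hut, hr']; ring

end SegGeom

/-- The windows of a chain `hd :: tl` (each one has the difference of an earlier one and a common
point with it) fill a progression with `Lr` terms.  Induction on `tl` (from the right): with
`a` the smallest and `a + (Lr - m) d` the largest start.  The starts have positions `(u.1 - 1) / d`
which are different multiples of `l` in an interval of length `Lr - m`, so there are at most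
`(Lr - m) / l + 1` of them. -/
theorem seg_geom (N m l : ℕ) (hm : 1 ≤ m) (hl : 1 ≤ l) (hd : ℕ × ℕ) (tl : List (ℕ × ℕ))
    (hw : ∀ u ∈ hd :: tl, u ∈ wins N m l) (hnd : (hd :: tl).Nodup)
    (hch : ∀ k, ∀ hk : k < tl.length, ∃ b ∈ hd :: tl.take k, Adj m b tl[k]) :
    ∃ a Lr : ℕ, m ≤ Lr ∧ (∀ u ∈ hd :: tl, u.2 = hd.2) ∧
      upts m (hd :: tl).toFinset = (Finset.range Lr).image (fun j => a + j * hd.2) ∧
      tl.length * l ≤ Lr - m ∧
      (∀ p ∈ upts m (hd :: tl).toFinset, ∃ z : ℤ, |z| ≤ Lr ∧ (p : ℤ) = hd.1 + z * hd.2) := by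
  obtain ⟨a, S, h1, ⟨w, hww, hwa⟩, h3⟩ := SegGeom.aux m hm hd tl hch
  have hwins : ∀ u ∈ hd :: tl, 1 ≤ u.1 ∧ 1 ≤ u.2 ∧ l ∣ (u.1 - 1) / u.2 := by
    intro u hu
    have := hw u hu
    simp only [wins, Finset.mem_filter, Finset.mem_product, Finset.mem_Icc] at this
    exact ⟨this.1.1.1, this.1.2.1, this.2.2⟩
  have hd1 : 1 ≤ hd.2 := (hwins hd (by simp)).2.1
  have ha1 : 1 ≤ a := by rw [← hwa]; exact (hwins w hww).1
  have hal : l ∣ (a - 1) / hd.2 := by
    have g := (hwins w hww).2.2
    rw [(h1 w hww).1, hwa] at g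
    exact g
  refine ⟨a, S + m, by omega, fun u hu => (h1 u hu).1, h3, ?_, ?_⟩
  · -- counting
    have hidx : ∀ u ∈ hd :: tl, ∃ k ≤ S / l, u = (a + (k * l) * hd.2, hd.2) := by
      intro u hu
      obtain ⟨g1, i, g2, g3⟩ := h1 u hu
      have g4 := (hwins u hu).2.2
      rw [g1, g3] at g4
      have g5 : (a + i * hd.2 - 1) / hd.2 = (a - 1) / hd.2 + i := by
        have : a + i * hd.2 - 1 = (a - 1) + i * hd.2 := by omega
        rw [this, Nat.add_mul_div_right _ _ (by omega)]
      rw [g5] at g4
      have g6 : l ∣ i := (Nat.dvd_add_right hal).1 g4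
      obtain ⟨k, hk⟩ := g6
      refine ⟨k, ?_, ?_⟩
      · rw [Nat.le_div_iff_mul_le (by omega), mul_comm, ← hk]
        exact g2
      · ext
        · rw [g3, hk, mul_comm l k]
        · exact g1
    have hsub : (hd :: tl).toFinset ⊆
        (Finset.range (S / l + 1)).image (fun k => (a + (k * l) * hd.2, hd.2)) := by
      intro u hu
      rw [List.mem_toFinset] at hu
      obtain ⟨k, hk, hk2⟩ := hidx u hu
      exact Finset.mem_image.2 ⟨k, Finset.mem_range.2 (by omega), hk2.symm⟩
    have hcard := (Finset.card_le_card hsub).trans Finset.card_image_le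
    rw [List.toFinset_card_of_nodup hnd, Finset.card_range, List.length_cons] at hcard
    have h5 : tl.length ≤ S / l := by omega
    have h6 : tl.length * l ≤ S := (Nat.le_div_iff_mul_le (by omega)).1 h5
    omega
  · intro p hp
    rw [h3, Finset.mem_image] at hp
    obtain ⟨j, hj, hjp⟩ := hp
    rw [Finset.mem_range] at hj
    obtain ⟨-, i, hi, hi2⟩ := h1 hd (by simp)
    refine ⟨(j : ℤ) - i, ?_, ?_⟩
    · rw [abs_le]
      constructor <;> push_cast <;> omega
    · rw [← hjp]
      have : (hd.1 : ℤ) = a + i * hd.2 := by exact_mod_cast hi2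
      rw [this]
      push_cast
      ring

end Pool.Agent.Helper49.VW
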