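import Pool.Agent.Helper49.VW.Weights
import Pool.Agent.Helper49.VW.Small

set_option autoImplicit false

/-! VW-6: Maker plays inside the emergency room. -/

namespace Pool.Agent.Helper49.VW

open Finset

variable {ι : Type} [DecidableEq ι]

/-- The small potential of the group of `x` after Maker's move. -/
private theorem stepE_q_lt (pts : ι → Finset ℕ) (H : Finset ι) (V : Finset ℕ) (β T : ℕ)
    (Fam : Finset (Finset ι)) (s : St ι) (h : Good pts H V β T Fam s) (x : ℕ)
    (hxM : x ∉ s.M) (hxB : x ∉ s.B) (hxE : x ∈ s.E) (g : ℕ) :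
    q { s with M := insert x s.M } g < 1 := by
  by_cases hg : g = s.grp (s.ab x)
  · rw [hg]
    exact (q_maker_le s _ x).trans_lt (h.small2 x hxE hxM hxB)
  · rw [(q_maker_eq s g x fun A hA hgA hx => hg (by rw [h.core.Rg A hA x hx, hgA])).1]
    exact h.small1 g

/-- Maker does not complete a set. If `A ∉ D` and `pts A ⊆ insert x M` then `Closed` (with `x ∈ E`) is
violated; note that Breaker has no point in `A`.  If `A ∈ D` then `R A ⊆ insert x M`, and the small
potential of the group of `A` after Maker's move is `< 1`: if the group is the group of `ab x` by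
`small2` and `q_maker_le`, otherwise `x ∉ R A` (`Rg`) and `small1`, `q_maker_eq`. -/
theorem stepE_good (pts : ι → Finset ℕ) (H : Finset ι) (V : Finset ℕ) (β T : ℕ)
    (Fam : Finset (Finset ι)) (s : St ι) (h : Good pts H V β T Fam s) (x : ℕ) (hxV : x ∈ V)
    (hxM : x ∉ s.M) (hxB : x ∉ s.B) (hxE : x ∈ s.E) :
    ∀ A ∈ H, ¬ pts A ⊆ insert x s.M := by
  intro A hA hsub
  have hnB : ∀ p ∈ pts A, p ∉ s.B := by
    intro p hp hpB
    rcases Finset.mem_insert.1 (hsub hp) with h1 | h1
    · exact hxB (h1 ▸ hpB)
    · exact Finset.disjoint_left.1 h.core.MB h1 hpB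
  by_cases hD : A ∈ s.D
  · have hR : s.R A ⊆ insert x s.M := (h.core.Rp A hD).trans hsub
    have hRB : Disjoint (s.R A) s.B :=
      Finset.disjoint_left.2 fun p hp => hnB p (h.core.Rp A hD hp)
    exact not_subset_of_q_lt { s with M := insert x s.M } A hD hRB
      (stepE_q_lt pts H V β T Fam s h x hxM hxB hxE _) hR
  · have h1 := h.closed A hA hD fun p hp hpB => absurd hpB (hnB p hp)
    have h2 : pts A \ (s.M ∪ s.E) = ∅ := by
      rw [Finset.sdiff_eq_empty_iff_subset]
      intro p hp
      rcases Finset.mem_insert.1 (hsub hp) with h3 | h3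
      · exact Finset.mem_union_right _ (h3 ▸ hxE)
      · exact Finset.mem_union_left _ h3
    rw [h2, Finset.card_empty] at h1
    exact Nat.not_lt_zero _ h1

/-- Breaker's answer: an unclaimed point `y ∈ E` with `grp (ab y) = grp (ab x)` which maximises `qAt`
(of the state after Maker's move) if there is one, otherwise any unclaimed point of `V`. -/
theorem stepE (pts : ι → Finset ℕ) (H : Finset ι) (V : Finset ℕ) (β T : ℕ)
    (Fam : Finset (Finset ι)) (s : St ι) (h : Good pts H V β T Fam s) (x : ℕ) (hxV : x ∈ V)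
    (hxM : x ∉ s.M) (hxB : x ∉ s.B) (hxE : x ∈ s.E)
    (hex : ∃ y ∈ V, y ∉ insert x s.M ∧ y ∉ s.B) :
    ∃ y ∈ V, y ∉ insert x s.M ∧ y ∉ s.B ∧
      Good pts H V β T Fam { s with M := insert x s.M, B := insert y s.B } := by
  classical
  set s1 : St ι := { s with M := insert x s.M } with hs1
  set g := s.grp (s.ab x) with hg
  -- the choice of Breaker's point
  obtain ⟨y, hyV, hyM, hyB, hymax⟩ : ∃ y ∈ V, y ∉ insert x s.M ∧ y ∉ s.B ∧
      ∀ z ∈ s.E, z ∉ insert x s.M → z ∉ s.B → s.grp (s.ab z) = g →
        qAt s1 g z ≤ qAt s1 g y := by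
    set Y : Finset ℕ := s.E.filter
      (fun z => z ∉ insert x s.M ∧ z ∉ s.B ∧ s.grp (s.ab z) = g) with hY
    by_cases hne : Y.Nonempty
    · obtain ⟨y, hy, hmax⟩ := Finset.exists_max_image Y (fun z => qAt s1 g z) hne
      have hy' := Finset.mem_filter.1 hy
      exact ⟨y, h.core.EV hy'.1, hy'.2.1, hy'.2.2.1, fun z hz1 hz2 hz3 hz4 =>
        hmax z (Finset.mem_filter.2 ⟨hz1, hz2, hz3, hz4⟩)⟩
    · obtain ⟨y, hyV, hyM, hyB⟩ := hex
      refine ⟨y, hyV, hyM, hyB, fun z hz1 hz2 hz3 hz4 => ?_⟩
      exact absurd ⟨z, Finset.mem_filter.2 ⟨hz1, hz2, hz3, hz4⟩⟩ hne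
  refine ⟨y, hyV, hyM, hyB, ?_⟩
  have hyx : y ≠ x := fun he => hyM (he ▸ Finset.mem_insert_self _ _)
  have hyM' : y ∉ s.M := fun he => hyM (Finset.mem_insert_of_mem he)
  have hq1 : ∀ g', q s1 g' < 1 := stepE_q_lt pts H V β T Fam s h x hxM hxB hxE
  have hs2 : ({ s with M := insert x s.M, B := insert y s.B } : St ι) =
      { s1 with B := insert y s1.B } := rfl
  rw [hs2]
  have hPhi := Phi_makerE pts β Fam s x hxE
  have hPhi2 := Phi_breaker_le pts β Fam s1 y
  constructor
  · -- structural facts
    have hc := h.core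
    exact
      { MV := Finset.insert_subset hxV hc.MV
        BV := Finset.insert_subset hyV hc.BV
        MB := by
          rw [Finset.disjoint_left]
          intro p hp hpB
          rcases Finset.mem_insert.1 hp with h1 | h1
          · rcases Finset.mem_insert.1 hpB with h2 | h2
            · exact hyx (h2.symm.trans h1)
            · exact hxB (h1 ▸ h2)
          · rcases Finset.mem_insert.1 hpB with h2 | h2
            · exact hyM' (h2 ▸ h1)
            · exact Finset.disjoint_left.1 hc.MB h1 h2
        EV := hc.EV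
        DH := hc.DH
        abD := hc.abD
        abp := hc.abp
        ancD := hc.ancD
        ancSelf := hc.ancSelf
        ancTrans := hc.ancTrans
        ancLinked := hc.ancLinked
        ancCard := hc.ancCard
        RE := hc.RE
        Rp := hc.Rp
        Rg := hc.Rg
        grpM := fun A hA => (hc.grpM A hA).trans (Finset.card_le_card (Finset.subset_insert _ _)) }
  · -- closed
    intro A hA hD hB
    have h1 := h.closed A hA hD fun p hp hpB => hB p hp (Finset.mem_insert_of_mem hpB)
    have h2 : insert x s.M ∪ s.E = s.M ∪ s.E := by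
      rw [Finset.insert_union, Finset.insert_eq_self]
      exact Finset.mem_union_right _ hxE
    show β < (pts A \ (insert x s.M ∪ s.E)).card
    rw [h2]
    exact h1
  · exact hPhi2.1.trans_lt (hPhi.1.trans_lt h.big1)
  · intro z hzV hzM hzB hzE
    have h1 := h.big2 z hzV (fun he => hzM (Finset.mem_insert_of_mem he))
      (fun he => hzB (Finset.mem_insert_of_mem he)) hzE
    have h2 := hPhi2.1
    have h3 := hPhi2.2 z
    have h4 := hPhi.1
    have h5 := hPhi.2 z
    have h6 : Phi pts β Fam s1 = Phi pts β Fam s := h4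
    have h7 : PhiAt pts β Fam s1 z = PhiAt pts β Fam s z := h5
    linarith
  · intro g'
    exact (q_breaker_le s1 g' y).1.trans_lt (hq1 g')
  · intro z hzE hzM hzB
    have hzE' : z ∈ s.E := hzE
    have hzM' : z ∉ insert x s.M := hzM
    have hzB' : z ∉ insert y s.B := hzB
    show q { s1 with B := insert y s1.B } (s.grp (s.ab z)) +
      qAt { s1 with B := insert y s1.B } (s.grp (s.ab z)) z < 1
    have hb := q_breaker_le s1 (s.grp (s.ab z)) y
    by_cases hgz : s.grp (s.ab z) = g
    · rw [hgz] at hb ⊢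
      have h1 := hymax z hzE' hzM' (fun he => hzB' (Finset.mem_insert_of_mem he)) hgz
      have h2 := q_breaker_at s1 g y
      have h3 := hb.2 z
      have h4 := hq1 g
      linarith
    · have h1 := q_maker_eq s (s.grp (s.ab z)) x fun A hA hgA hx =>
        hgz (by rw [hg, h.core.Rg A hA x hx, hgA])
      have h2 := h.small2 z hzE' (fun he => hzM' (Finset.mem_insert_of_mem he))
        (fun he => hzB' (Finset.mem_insert_of_mem he))
      have h3 : q s1 (s.grp (s.ab z)) = q s (s.grp (s.ab z)) := h1.1
      have h4 : qAt s1 (s.grp (s.ab z)) z = qAt s (s.grp (s.ab z)) z := h1.2 z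
      have h5 := hb.1
      have h6 := hb.2 z
      linarith

end Pool.Agent.Helper49.VW
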